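import Pool.Agent.Helper13.EC.GDefs
import Pool.Agent.Helper54.EndFG

set_option autoImplicit false

/-!
[EC-GA12] General (not separative) version of `A12`.

(A1) Let `u, u', z` be of level `j < r`, `u y = y = u' y` for `ℓ y < j` and `u z = u' z`. For every
`l < r` choose `e_l` of level `l` with `e_l y = y` for `ℓ y < l` (`Lev.surj`, `Lev.inv`: `e = z z'`).
By `Lev.inv` we may assume that `z` also acts trivially on the levels `< j` (replace it by `z z'`).
For `v ∈ {u, u', z}` let `E_v 1 = 1`, `E_v y = e_l ^ d l y` for `l = ℓ y < r`, `l ≠ j`, and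
`E_v y = v ^ d j y` for `ℓ y = j`. It is a monoid endomorphism with trivial kernel (`Lev.mul`,
`d_zero`: for `ℓ y' = l < ℓ y` we have `d l y = 0` and the value at `y` acts trivially on the value at
`y'`, which has level `l`; `d_pos` for the trivial kernel, with `Red`). `E_u E_z = E_u' E_z` (values at
`y` of level `j`: `(u z) ^ d j y`), so `E_u = E_u'` by `ECM`, `u ^ m = u' ^ m` for all `m = d j y`,
`ℓ y = j`; by `d_one` (`x, y` of level `≥ j` with `d j x = d j y + 1`; multiply both with an element of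
level `j`) for some `m` and `m + 1`, so for all large `m`
(`Pool.Agent.Helper54.EndCanc.eventually_mem`).
(A2 = `AG`) Let `q z = q' z`, `q t y = y` for `ℓ y < j`, `j ≤ ℓ t`. Replace `z` by `z z'`, trivial
on levels `< j`. For `ℓ y < j`: `q' t y = q' t z y = q t z y = y`. Now `q t`, `q' t`, `z` satisfy the
hypotheses of (A1).
-/

namespace Pool.Agent.Helper13.EC

section

variable {M : Type*} [CommMonoid M] {r : ℕ} {ℓ : M → ℕ} {d : ℕ → M → ℕ}

theorem Lev.lt_of_ne (hL : Lev r ℓ d) {x : M} (hx : x ≠ 1) : ℓ x < r :=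
  lt_of_le_of_ne (hL.le x) (fun h => hx ((hL.one_iff x).1 h))

theorem Lev.ell_one (hL : Lev r ℓ d) : ℓ (1 : M) = r := (hL.one_iff 1).2 rfl

theorem Lev.ell_pow (hL : Lev r ℓ d) (a : M) : ∀ n : ℕ, 0 < n → ℓ (a ^ n) = ℓ a := by
  intro n
  induction n with
  | zero => intro h; exact absurd h (lt_irrefl 0)
  | succ n ih =>
    intro _
    rcases Nat.eq_zero_or_pos n with h | h
    · subst h
      simp
    · rw [pow_succ, hL.mul, ih h, min_self]

/-- A choice of elements, one for every level, which act trivially on the lower levels. -/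
def Lev.Good (r : ℕ) (ℓ : M → ℕ) (w : ℕ → M) : Prop :=
  ∀ l, l < r → ℓ (w l) = l ∧ ∀ y, ℓ y < l → w l * y = y

theorem Lev.exists_good (hL : Lev r ℓ d) : ∃ w : ℕ → M, Lev.Good r ℓ w := by
  have h : ∀ l : ℕ, ∃ a : M, l < r → ℓ a = l ∧ ∀ y, ℓ y < l → a * y = y := by
    intro l
    rcases Nat.lt_or_ge l r with hl | hl
    · obtain ⟨z, hz⟩ := hL.surj l hl.le
      obtain ⟨z', hz', h⟩ := hL.inv z
      refine ⟨z * z', fun _ => ⟨?_, ?_⟩⟩
      · rw [hL.mul, min_eq_left hz', hz]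
      · intro y hy
        exact h y (by rw [hz]; exact hy)
    · exact ⟨1, fun h => absurd h (not_lt.2 hl)⟩
  choose w hw using h
  exact ⟨w, fun l hl => hw l hl⟩

theorem pow_act {w y : M} (h : w * y = y) (n : ℕ) : w ^ n * y = y := by
  induction n with
  | zero => simp
  | succ n ih => rw [pow_succ, mul_assoc, h, ih]

open Classical in
/-- The endomorphism given by a good choice. -/
noncomputable def Lev.E (hL : Lev r ℓ d) (w : ℕ → M) (hw : Lev.Good r ℓ w) : M →* M where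
  toFun y := if y = 1 then 1 else w (ℓ y) ^ d (ℓ y) y
  map_one' := by simp
  map_mul' := by
    intro x y
    by_cases hx : x = 1
    · subst hx
      simp
    by_cases hy : y = 1
    · subst hy
      simp
    have hlx := hL.lt_of_ne hx
    have hly := hL.lt_of_ne hy
    have hxy : x * y ≠ 1 := by
      intro h
      have h1 := hL.mul x y
      rw [h, hL.ell_one] at h1
      have h2 : min (ℓ x) (ℓ y) ≤ ℓ x := min_le_left _ _
      omega
    have key : ∀ a b : M, a ≠ 1 → b ≠ 1 → ℓ a < ℓ b →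
        w (ℓ (a * b)) ^ d (ℓ (a * b)) (a * b) = w (ℓ a) ^ d (ℓ a) a * w (ℓ b) ^ d (ℓ b) b := by
      intro a b ha hb hab
      have hla := hL.lt_of_ne ha
      have hlb := hL.lt_of_ne hb
      have h1 : ℓ (a * b) = ℓ a := by rw [hL.mul, min_eq_left hab.le]
      rw [h1, hL.d_mul (ℓ a) a b le_rfl hab.le, hL.d_zero (ℓ a) b hab, add_zero]
      have hpos := hL.d_pos (ℓ a) a hla rfl
      have h2 : ℓ (w (ℓ a) ^ d (ℓ a) a) = ℓ a := by
        rw [hL.ell_pow _ _ hpos, (hw (ℓ a) hla).1]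
      have h3 : w (ℓ b) * w (ℓ a) ^ d (ℓ a) a = w (ℓ a) ^ d (ℓ a) a :=
        (hw (ℓ b) hlb).2 _ (by rw [h2]; exact hab)
      rw [mul_comm (w (ℓ a) ^ d (ℓ a) a), pow_act h3]
    simp only [if_neg hx, if_neg hy, if_neg hxy]
    rcases lt_trichotomy (ℓ x) (ℓ y) with h | h | h
    · exact key x y hx hy h
    · have h1 : ℓ (x * y) = ℓ x := by rw [hL.mul, h, min_self]
      rw [h1, ← h, hL.d_mul (ℓ x) x y le_rfl h.le, pow_add]
    · rw [mul_comm x y, key y x hy hx h, mul_comm]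

theorem Lev.E_apply (hL : Lev r ℓ d) (w : ℕ → M) (hw : Lev.Good r ℓ w) {y : M} (hy : y ≠ 1) :
    hL.E w hw y = w (ℓ y) ^ d (ℓ y) y := if_neg hy

theorem Lev.E_nt (hL : Lev r ℓ d) (w : ℕ → M) (hw : Lev.Good r ℓ w) : NT (hL.E w hw) := by
  intro x hx
  by_contra h
  rw [hL.E_apply w hw h] at hx
  have hlx := hL.lt_of_ne h
  have h2 : ℓ (w (ℓ x) ^ d (ℓ x) x) = ℓ x := by
    rw [hL.ell_pow _ _ (hL.d_pos (ℓ x) x hlx rfl), (hw (ℓ x) hlx).1]
  rw [hx, hL.ell_one] at h2
  omega

theorem Lev.good_update {w : ℕ → M} (hw : Lev.Good r ℓ w) {j : ℕ} {v : M} (hv : ℓ v = j)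
    (h : ∀ y, ℓ y < j → v * y = y) : Lev.Good r ℓ (Function.update w j v) := by
  intro l hl
  by_cases hlj : l = j
  · subst hlj
    rw [Function.update_self]
    exact ⟨hv, h⟩
  · rw [Function.update_of_ne hlj]
    exact hw l hl

/-- (A1), exponents `d j y` for `y` of level `j`. -/
theorem ag_pow (hEC : ECM M) (hL : Lev r ℓ d) {j : ℕ} (hj : j < r) {u u' z : M} (hu : ℓ u = j)
    (hu' : ℓ u' = j) (hz : ℓ z = j) (au : ∀ y, ℓ y < j → u * y = y)
    (au' : ∀ y, ℓ y < j → u' * y = y) (az : ∀ y, ℓ y < j → z * y = y) (h : u * z = u' * z)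
    (y : M) (hy : ℓ y = j) : u ^ d j y = u' ^ d j y := by
  obtain ⟨w, hw⟩ := hL.exists_good
  have gu := Lev.good_update hw hu au
  have gu' := Lev.good_update hw hu' au'
  have gz := Lev.good_update hw hz az
  have hall : ∀ x, hL.E _ gu x = hL.E _ gu' x := by
    refine hEC _ _ (hL.E _ gz) (hL.E_nt _ gu) (hL.E_nt _ gu') (hL.E_nt _ gz) ?_
    intro x
    by_cases hx : x = 1
    · subst hx
      simp
    · rw [hL.E_apply _ gu hx, hL.E_apply _ gu' hx, hL.E_apply _ gz hx]
      by_cases hlj : ℓ x = j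
      · rw [hlj]
        simp only [Function.update_self]
        rw [← mul_pow, ← mul_pow, h]
      · simp only [Function.update_of_ne hlj]
  have hy1 : y ≠ 1 := by
    intro h1
    rw [h1, hL.ell_one] at hy
    omega
  have h1 := hall y
  rw [hL.E_apply _ gu hy1, hL.E_apply _ gu' hy1, hy] at h1
  simpa only [Function.update_self] using h1

/-- (A1), two consecutive exponents. -/
theorem ag_two (hEC : ECM M) (hL : Lev r ℓ d) {j : ℕ} (hj : j < r) {u u' z : M} (hu : ℓ u = j)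
    (hu' : ℓ u' = j) (hz : ℓ z = j) (au : ∀ y, ℓ y < j → u * y = y)
    (au' : ∀ y, ℓ y < j → u' * y = y) (az : ∀ y, ℓ y < j → z * y = y) (h : u * z = u' * z) :
    ∃ m : ℕ, u ^ m = u' ^ m ∧ u ^ (m + 1) = u' ^ (m + 1) := by
  obtain ⟨x, y, hx, hy, hxy⟩ := hL.d_one j hj
  obtain ⟨s, hs⟩ := hL.surj j hj.le
  have h1 : ℓ (x * s) = j := by rw [hL.mul, hs, min_eq_right hx]
  have h2 : ℓ (y * s) = j := by rw [hL.mul, hs, min_eq_right hy]
  have e1 := ag_pow hEC hL hj hu hu' hz au au' az h (y * s) h2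
  have e2 := ag_pow hEC hL hj hu hu' hz au au' az h (x * s) h1
  have h3 : d j (x * s) = d j (y * s) + 1 := by
    rw [hL.d_mul j x s hx hs.ge, hL.d_mul j y s hy hs.ge, hxy]
    omega
  rw [h3] at e2
  exact ⟨d j (y * s), e1, e2⟩

/-- The reduction of (A2) to (A1). -/
theorem ag_red (hEC : ECM M) (hL : Lev r ℓ d) {j : ℕ} (hj : j < r) {q q' z t : M} (hq : ℓ q = j)
    (hq' : ℓ q' = j) (hz : ℓ z = j) (ht : j ≤ ℓ t) (h : q * z = q' * z)
    (hy : ∀ y, ℓ y < j → q * t * y = y) :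
    ∃ m : ℕ, (q * t) ^ m = (q' * t) ^ m ∧ (q * t) ^ (m + 1) = (q' * t) ^ (m + 1) := by
  obtain ⟨z', hz', hzz⟩ := hL.inv z
  rw [hz] at hz' hzz
  have e : q * t * (z * z') = q' * t * (z * z') := by
    calc q * t * (z * z') = q * z * (t * z') := by ac_rfl
      _ = q' * z * (t * z') := by rw [h]
      _ = q' * t * (z * z') := by ac_rfl
  refine ag_two hEC hL hj (u := q * t) (u' := q' * t) (z := z * z') ?_ ?_ ?_ hy ?_ hzz e
  · rw [hL.mul, hq, min_eq_left ht]
  · rw [hL.mul, hq', min_eq_left ht]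
  · rw [hL.mul, hz, min_eq_left hz']
  · intro y hyj
    calc q' * t * y = q' * t * (z * z' * y) := by rw [hzz y hyj]
      _ = q' * t * (z * z') * y := by rw [mul_assoc (q' * t)]
      _ = q * t * (z * z') * y := by rw [e]
      _ = q * t * (z * z' * y) := by rw [mul_assoc (q * t)]
      _ = q * t * y := by rw [hzz y hyj]
      _ = y := hy y hyj

end

theorem ag {M : Type*} [CommMonoid M] (hred : Red M) (hEC : ECM M) {r : ℕ}
    {ℓ : M → ℕ} {d : ℕ → M → ℕ} (hL : Lev r ℓ d) : AG r ℓ := by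
  intro j hj q q' z t hq hq' hz ht h hy
  obtain ⟨m, h1, h2⟩ := ag_red hEC hL hj hq hq' hz ht h hy
  exact Pool.Agent.Helper54.EndCanc.eventually_mem (fun n => (q * t) ^ n = (q' * t) ^ n)
    (fun a b ha hb => by
      show (q * t) ^ (a + b) = (q' * t) ^ (a + b)
      rw [pow_add, pow_add, ha, hb]) (by simp) m h1 h2

end Pool.Agent.Helper13.EC
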