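import Pool.Agent.Helper13.EC.Defs
import Pool.Agent.Helper13.EC.GA12
import Pool.Agent.Helper54.EndFG

set_option autoImplicit false

/-!
[EC-A12] Separative levels, first part.

`sep_of_large`: equal large powers imply equality in a separative monoid (adapt
`Pool.Agent.Helper54.EndCanc.eq_of_eventually` with `i = MulHom.id`).

(A1) Let `u, u', z` be of level `j < r`, `u y = y = u' y` for `ℓ y < j` and `u z = u' z`. For every
`l < r` choose `e_l` of level `l` with `e_l y = y` for `ℓ y < l` (`Lev.surj`, `Lev.inv`: `e = z z'`).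
By `Lev.inv` we may assume that `z` also acts trivially on the levels `< j` (replace it by `z z'`).
For `v ∈ {u, u', z}` let `E_v 1 = 1`, `E_v y = e_l ^ d l y` for `l = ℓ y < r`, `l ≠ j`, and
`E_v y = v ^ d j y` for `ℓ y = j`. It is a monoid endomorphism with trivial kernel (`Lev.mul`,
`d_zero`: for `ℓ y' = l < ℓ y` we have `d l y = 0` and the value at `y` acts trivially on the value at
`y'`, which has level `l`; `d_pos` for the trivial kernel, with `Red`). `E_u E_z = E_u' E_z` (values at
`y` of level `j`: `(u z) ^ d j y`), so `E_u = E_u'` by `ECM`, `u ^ m = u' ^ m` for all `m = d j y`,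
`ℓ y = j`; by `d_one` (`x, y` of level `≥ j` with `d j x = d j y + 1`; multiply both with an element of
level `j`) for `m, m + 1`, so for all large `m`, so `u = u'`.
(A2 = `AA`) Let `q z = q' z`, `q t y = y` for `ℓ y < j`, `j ≤ ℓ t`. Replace `z` by `z z'`, trivial
on levels `< j`. For `ℓ y < j`: `q' t y = q' t z y = q t z y = y`. Now `q t`, `q' t`, `z` satisfy the
hypotheses of (A1).
-/

namespace Pool.Agent.Helper13.EC

theorem sep_of_large {M : Type*} [CommMonoid M] (hsep : Sep M) (b c : M)
    (h : ∃ N, ∀ n, N ≤ n → b ^ n = c ^ n) : b = c :=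
  Pool.Agent.Helper54.EndCanc.eq_of_eventually (MulHom.id M) Function.injective_id hsep b c h

/-- `a ^ m = b ^ m` and `a ^ (m + 1) = b ^ (m + 1)` imply `a = b` (also for `m = 0`). -/
theorem sep_of_succ {M : Type*} [CommMonoid M] (hsep : Sep M) (a b : M) (m : ℕ)
    (h : a ^ m = b ^ m) (h1 : a ^ (m + 1) = b ^ (m + 1)) : a = b :=
  sep_of_large hsep a b (Pool.Agent.Helper54.EndCanc.eventually_mem (fun n => a ^ n = b ^ n)
    (fun k l hk hl => by
      show a ^ (k + l) = b ^ (k + l)
      rw [pow_add, pow_add, hk, hl]) (by simp) m h h1)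

/-- A set of exponents closed under addition: `a ^ m = b ^ m` for all values `m` of a normalised
additive function. -/
theorem aa {M : Type*} [CommMonoid M] (hred : Red M) (hEC : ECM M) (hsep : Sep M) {r : ℕ}
    {ℓ : M → ℕ} {d : ℕ → M → ℕ} (hL : Lev r ℓ d) : AA r ℓ := by
  intro j hj q q' z t hq hq' hz ht h hy
  obtain ⟨m, h1, h2⟩ := ag_red hEC hL hj hq hq' hz ht h hy
  exact sep_of_succ hsep _ _ m h1 h2

end Pool.Agent.Helper13.EC
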