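import Pool.Agent.Helper13.EC.Step

set_option autoImplicit false

/-!
[EC-Chain] Iterating `step`: existence of the levelling.

`F_0 = univ`, `F_{n+1} = nxt F_n`. All `F_n` satisfy `Filt` (for `F_n = {1}`: `nxt {1} = {1}`, and
`Filt {1}` holds if `F_n` is a `Filt`). If `F_n ≠ {1}` then `F_{n+1}` is strictly smaller than `F_n`,
and since a filter `F` is generated by the generators of `M` lying in `F`, the (finite) number of
generators of `M` in `F_n` drops. So there is a least `r` with `F_r = {1}`. Let
`ℓ x = Nat.findGreatest (x ∈ F_·) r` (classical); for `k ≤ r`: `k ≤ ℓ x ↔ x ∈ F_k`; let `d j` be the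
`δ` of `step` for `F_j`, `j < r`, and `0` for `j ≥ r`. The fields of `Lev`:
`surj` from `proper`; `mul` from `Filt.mul`, `Filt.left`; `inv` from `Filt.inv` of `F_{ℓ z}`
(for `z = 1` take `z' = 1`); `key0`: `u w = w`, `w ≠ 1`: `ℓ w ≤ ℓ u` by `mul`, and with `j = ℓ w < r`
`u * 1 * w = w` shows `u ∈ nxt F_j = F_{j+1}`; `key1`, `key2` from those of `F_j`.
-/

namespace Pool.Agent.Helper13.EC

/-- The iterated filters. -/
def chain_F (M : Type*) [CommMonoid M] : ℕ → Set M
  | 0 => Set.univ
  | n + 1 => nxt (chain_F M n)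

theorem chain_univ {M : Type*} [CommMonoid M] : Filt (Set.univ : Set M) where
  one := Set.mem_univ _
  mul := fun _ _ _ _ => Set.mem_univ _
  left := fun _ _ _ => Set.mem_univ _
  inv := fun _ _ => ⟨1, Set.mem_univ _, fun _ hy => absurd (Set.mem_univ _) hy⟩

theorem chain_triv {M : Type*} [CommMonoid M] {F : Set M}
    (h1 : ∀ x ∈ F, x = 1) : nxt F = F := by
  ext x
  constructor
  · intro hx
    exact hx.1
  · intro hx
    exact ⟨hx, Or.inl (h1 x hx)⟩

theorem chain_filt {M : Type*} [CommMonoid M] [Monoid.FG M] (hred : Red M)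
    (hid : ∀ e : M, e * e = e → e = 1) (hEC : ECM M) (n : ℕ) : Filt (chain_F M n) := by
  induction n with
  | zero => exact chain_univ
  | succ n ih =>
    change Filt (nxt (chain_F M n))
    by_cases h : ∃ x ∈ chain_F M n, x ≠ 1
    · obtain ⟨δ, hδ⟩ := step hred hid hEC _ ih h
      exact hδ.filt
    · have h1 : ∀ x ∈ chain_F M n, x = 1 := by
        intro x hx
        by_contra hne
        exact h ⟨x, hx, hne⟩
      rw [chain_triv h1]
      exact ih

theorem chain_anti {M : Type*} [CommMonoid M] {m n : ℕ} (h : m ≤ n) :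
    chain_F M n ⊆ chain_F M m := by
  induction h with
  | refl => exact fun x hx => hx
  | step _ ih => exact fun x hx => ih hx.1

/-- A filter is generated by the generators lying in it. -/
theorem chain_gen {M : Type*} [CommMonoid M] (X : Set M) (hX : Submonoid.closure X = ⊤)
    {F G : Set M} (hF : Filt F) (hG : Filt G) (h : ∀ x ∈ X, x ∈ F → x ∈ G) :
    ∀ x ∈ F, x ∈ G := by
  have key : ∀ x : M, x ∈ F → x ∈ G := by
    intro x
    have hx : x ∈ Submonoid.closure X := by rw [hX]; exact Submonoid.mem_top x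
    induction hx using Submonoid.closure_induction with
    | mem x hx => exact h x hx
    | one => exact fun _ => hG.one
    | mul x y _ _ hx hy =>
      intro hxy
      have h1 : x ∈ F := hF.left x y hxy
      have h2 : y ∈ F := hF.left y x (by rw [mul_comm]; exact hxy)
      exact hG.mul x y (hx h1) (hy h2)
  exact key

theorem chain_end {M : Type*} [CommMonoid M] [Monoid.FG M] (hred : Red M)
    (hid : ∀ e : M, e * e = e → e = 1) (hEC : ECM M) :
    ∃ n, ∀ x ∈ chain_F M n, x = 1 := by
  classical
  obtain ⟨X, hX⟩ := Monoid.FG.fg_top (M := M)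
  by_contra hcon
  have hne : ∀ n, ∃ x ∈ chain_F M n, x ≠ 1 := by
    intro n
    by_contra hh
    apply hcon
    refine ⟨n, fun x hx => ?_⟩
    by_contra hx1
    exact hh ⟨x, hx, hx1⟩
  have hlt : ∀ n, (X.filter (fun x => x ∈ chain_F M (n + 1))).card
      < (X.filter (fun x => x ∈ chain_F M n)).card := by
    intro n
    apply Finset.card_lt_card
    rw [Finset.ssubset_iff_of_subset]
    · obtain ⟨δ, hδ⟩ := step hred hid hEC _ (chain_filt hred hid hEC n) (hne n)
      obtain ⟨x, hx, hx'⟩ := hδ.proper
      by_contra hh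
      apply hx'
      refine chain_gen (X : Set M) hX (chain_filt hred hid hEC n) hδ.filt ?_ x hx
      intro y hy hyF
      by_contra hyG
      apply hh
      refine ⟨y, ?_, ?_⟩
      · rw [Finset.mem_filter]
        exact ⟨hy, hyF⟩
      · rw [Finset.mem_filter]
        rintro ⟨_, h2⟩
        exact hyG h2
    · intro y hy
      rw [Finset.mem_filter] at hy ⊢
      exact ⟨hy.1, hy.2.1⟩
  have hbd : ∀ n, (X.filter (fun x => x ∈ chain_F M n)).card + n
      ≤ (X.filter (fun x => x ∈ chain_F M 0)).card := by
    intro n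
    induction n with
    | zero => exact le_refl _
    | succ n ih =>
      have := hlt n
      omega
  have := hbd ((X.filter (fun x => x ∈ chain_F M 0)).card + 1)
  omega

theorem exists_lev {M : Type*} [CommMonoid M] [Monoid.FG M] (hred : Red M)
    (hid : ∀ e : M, e * e = e → e = 1) (hEC : ECM M) :
    ∃ (r : ℕ) (ℓ : M → ℕ) (d : ℕ → M → ℕ), Lev r ℓ d := by
  classical
  have hex := chain_end hred hid hEC
  have hfil : ∀ n, Filt (chain_F M n) := chain_filt hred hid hEC
  obtain ⟨r, hr1, hr2⟩ : ∃ r, (∀ x ∈ chain_F M r, x = 1) ∧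
      ∀ j, j < r → ∃ x ∈ chain_F M j, x ≠ 1 := by
    refine ⟨Nat.find hex, Nat.find_spec hex, ?_⟩
    intro j hj
    have := Nat.find_min hex hj
    by_contra hh
    apply this
    intro x hx
    by_contra hx1
    exact hh ⟨x, hx, hx1⟩
  have hst : ∀ j, ∃ δ : M → ℕ, j < r → StepData (chain_F M j) δ := by
    intro j
    by_cases hj : j < r
    · obtain ⟨δ, hδ⟩ := step hred hid hEC _ (hfil j) (hr2 j hj)
      exact ⟨δ, fun _ => hδ⟩
    · exact ⟨fun _ => 0, fun h => absurd h hj⟩
  choose δ hδ using hst
  let ℓ : M → ℕ := fun x => Nat.findGreatest (fun k => x ∈ chain_F M k) r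
  have hle : ∀ x, ℓ x ≤ r := fun x => Nat.findGreatest_le r
  have hmem : ∀ x, x ∈ chain_F M (ℓ x) := by
    intro x
    exact Nat.findGreatest_spec (P := fun k => x ∈ chain_F M k) (Nat.zero_le r) (Set.mem_univ x)
  have hiff : ∀ x k, k ≤ r → (k ≤ ℓ x ↔ x ∈ chain_F M k) := by
    intro x k hk
    constructor
    · intro h
      exact chain_anti h (hmem x)
    · intro h
      exact Nat.le_findGreatest hk h
  have hof : ∀ x k, k ≤ ℓ x → x ∈ chain_F M k := fun x k h => chain_anti h (hmem x)
  have hone : ∀ x, ℓ x = r ↔ x = 1 := by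
    intro x
    constructor
    · intro h
      exact hr1 x (hof x r (le_of_eq h.symm))
    · intro h
      apply le_antisymm (hle x)
      rw [hiff x r (le_refl r), h]
      exact (hfil r).one
  have hltr : ∀ x, x ≠ 1 → ℓ x < r := by
    intro x hx
    exact lt_of_le_of_ne (hle x) (fun h => hx ((hone x).1 h))
  refine ⟨r, ℓ, fun j x => if j < r then δ j x else 0, ?_⟩
  refine ⟨hle, hone, ?_, ?_, ?_, ?_, ?_, ?_, ?_, ?_, ?_, ?_⟩
  · -- surj
    intro j hj
    rcases Nat.lt_or_ge j r with hjr | hjr
    · obtain ⟨x, hx, hx'⟩ := (hδ j hjr).proper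
      refine ⟨x, le_antisymm ?_ ((hiff x j hj).2 hx)⟩
      by_contra hh
      apply hx'
      exact hof x (j + 1) (by omega)
    · exact ⟨1, by rw [(hone 1).2 rfl]; omega⟩
  · -- mul
    intro x y
    apply le_antisymm
    · apply le_min
      · rw [hiff x _ (hle _)]
        exact (hfil _).left x y (hmem _)
      · rw [hiff y _ (hle _)]
        apply (hfil _).left y x
        rw [mul_comm y x]
        exact hmem _
    · rw [hiff _ _ (le_trans (min_le_left _ _) (hle x))]
      exact (hfil _).mul x y (hof x _ (min_le_left _ _)) (hof y _ (min_le_right _ _))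
  · -- inv
    intro z
    obtain ⟨z', hz', h⟩ := (hfil (ℓ z)).inv z (hmem z)
    refine ⟨z', (hiff z' _ (hle z)).2 hz', ?_⟩
    intro y hy
    apply h y
    intro hh
    have := (hiff y _ (hle z)).2 hh
    omega
  · -- d_mul
    intro j x y hx hy
    by_cases hj : j < r
    · simp only [hj, if_true]
      exact (hδ j hj).d_mul x (hof x j hx) y (hof y j hy)
    · simp only [hj, if_false, add_zero]
  · -- d_pos
    intro j x hj hx
    simp only [hj, if_true]
    apply (hδ j hj).d_pos x (hof x j (le_of_eq hx.symm))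
    intro hh
    have := (hiff x (j + 1) hj).2 hh
    omega
  · -- d_zero
    intro j x hx
    have hj : j < r := lt_of_lt_of_le hx (hle x)
    simp only [hj, if_true]
    exact (hδ j hj).d_zero x (hof x (j + 1) hx)
  · -- d_one
    intro j hj
    obtain ⟨x, hx, y, hy, h⟩ := (hδ j hj).d_one
    refine ⟨x, y, (hiff x j hj.le).2 hx, (hiff y j hj.le).2 hy, ?_⟩
    simp only [hj, if_true]
    exact h
  · -- key0
    intro u w hw huw
    have hj := hltr w hw
    have hwF := hmem w
    have huF : u ∈ chain_F M (ℓ w) := by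
      apply (hfil _).left u w
      rw [huw]
      exact hwF
    have : u ∈ chain_F M (ℓ w + 1) := by
      refine ⟨huF, Or.inr ⟨1, (hfil _).one, w, hwF, hw, ?_⟩⟩
      rw [mul_one, huw]
    exact (hiff u (ℓ w + 1) hj).2 this
  · -- key1
    intro u w hw huw y hy
    have hj := hltr w hw
    have hwF := hmem w
    have huF : u ∈ chain_F M (ℓ w) := by
      apply (hfil _).left u w
      rw [huw]
      exact hwF
    apply (hδ _ hj).key1 u huF w hwF hw huw y
    intro hh
    have := (hiff y _ hj.le).2 hh
    omega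
  · -- key2
    intro u w hw huw z hz
    have hj := hltr w hw
    have hwF := hmem w
    have huF : u ∈ chain_F M (ℓ w) := by
      apply (hfil _).left u w
      rw [huw]
      exact hwF
    simp only [hj, if_true]
    exact (hδ _ hj).key2 u huF w hwF hw huw z (hof z _ (le_of_eq hz.symm))

end Pool.Agent.Helper13.EC
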