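import Pool.Agent.Helper13.EC.Defs

set_option autoImplicit false

/-!
[EC-DataA] The data `(a, b, Λ')`; `j = ℓ q`.

`exists_data`: let `x1` be a generator of level `j` for which `- Λ x / d j x` is maximal (rational; a
finite nonempty set, because `q` of level `j < r` has a generator of level `j` as a factor); it is
`> 0` there because `Λ q < 0` (`q` is a product of generators of level `j`, of generators of level
`> j`, where `Λ = 0`). Put `a y = - Λ x1 * d j y`, `b y = d j x1 * Λ y - Λ x1 * d j y` (as natural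
numbers, `Int.toNat`; `b ≥ 0` on `{j ≤ ℓ y}` by the choice of `x1`: check generators) and
`Λ' y = - d j x1 * Λ y`.
-/

namespace Pool.Agent.Helper13.EC

theorem dataA_ind {M : Type*} [CommMonoid M] {r : ℕ} {ℓ : M → ℕ} {d : ℕ → M → ℕ}
    (hL : Lev r ℓ d) {X : Set M} (hX : Submonoid.closure X = ⊤) {j : ℕ} (P : M → Prop)
    (h1 : P 1) (hg : ∀ x ∈ X, j ≤ ℓ x → P x)
    (hm : ∀ x y, j ≤ ℓ x → j ≤ ℓ y → P x → P y → P (x * y)) (x : M) (hx : j ≤ ℓ x) : P x := by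
  have hmem : x ∈ Submonoid.closure X := by rw [hX]; trivial
  revert hx
  induction hmem using Submonoid.closure_induction with
  | mem x hx => exact fun h => hg x hx h
  | one => exact fun _ => h1
  | mul x y _ _ ihx ihy =>
    intro h
    rw [hL.mul] at h
    have hx : j ≤ ℓ x := le_trans h (min_le_left _ _)
    have hy : j ≤ ℓ y := le_trans h (min_le_right _ _)
    exact hm x y hx hy (ihx hx) (ihy hy)

theorem exists_data {M : Type*} [CommMonoid M] [Monoid.FG M] {r : ℕ} {ℓ : M → ℕ}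
    {d : ℕ → M → ℕ} (hL : Lev r ℓ d) (q : M) (hq : ℓ q < r) {i : ℕ} (hi : i ≤ ℓ q) (Λ : M → ℤ)
    (hΛ : ∀ x y, i ≤ ℓ x → i ≤ ℓ y → Λ (x * y) = Λ x + Λ y) (hΛ0 : ∀ x, ℓ q < ℓ x → Λ x = 0)
    (hΛq : Λ q < 0) :
    ∃ (a b : M → ℕ) (Λ' : M → ℤ), (∀ x y, ℓ q ≤ ℓ x → ℓ q ≤ ℓ y → a (x * y) = a x + a y) ∧
      (∀ x y, ℓ q ≤ ℓ x → ℓ q ≤ ℓ y → b (x * y) = b x + b y) ∧
      (∀ x, ℓ q < ℓ x → a x = 0 ∧ b x = 0) ∧ (∀ x, ℓ x = ℓ q → 0 < a x) ∧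
      (∃ x, ℓ x = ℓ q ∧ b x = 0) ∧
      (∀ x y, i ≤ ℓ x → i ≤ ℓ y → Λ' (x * y) = Λ' x + Λ' y) ∧ (∀ x, ℓ q < ℓ x → Λ' x = 0) ∧
      (∀ x, ℓ q ≤ ℓ x → Λ' x = (a x : ℤ) - b x) := by
  classical
  obtain ⟨X, hX, hXf⟩ := Monoid.fg_iff.1 (inferInstance : Monoid.FG M)
  have hone : ℓ (1 : M) = r := (hL.one_iff 1).2 rfl
  -- a generator of level `j` with negative value
  obtain ⟨x0, hx0X, hx0j, hx0⟩ : ∃ x ∈ X, ℓ x = ℓ q ∧ Λ x < 0 := by
    by_contra hcon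
    push Not at hcon
    have hnn : 0 ≤ Λ q := by
      refine dataA_ind hL hX (j := ℓ q) (fun x => 0 ≤ Λ x) ?_ ?_ ?_ q le_rfl
      · exact le_of_eq (hΛ0 1 (by rw [hone]; exact hq)).symm
      · intro x hx hj
        rcases hj.lt_or_eq with h | h
        · exact le_of_eq (hΛ0 x h).symm
        · exact hcon x hx h.symm
      · intro x y hx hy h1 h2
        simp only [hΛ x y (le_trans hi hx) (le_trans hi hy)]
        exact add_nonneg h1 h2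
    omega
  -- the maximal ratio
  set G : Finset M := hXf.toFinset.filter (fun x => ℓ x = ℓ q) with hG
  have hGne : G.Nonempty := ⟨x0, by
    rw [hG, Finset.mem_filter, hXf.mem_toFinset]; exact ⟨hx0X, hx0j⟩⟩
  obtain ⟨x1, hx1G, hmax⟩ := Finset.exists_max_image G
    (fun x => (-(Λ x : ℚ)) / (d (ℓ q) x : ℚ)) hGne
  rw [hG, Finset.mem_filter, hXf.mem_toFinset] at hx1G
  obtain ⟨-, hx1j⟩ := hx1G
  have hd1 : 0 < d (ℓ q) x1 := hL.d_pos (ℓ q) x1 hq hx1j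
  have hratio : ∀ x ∈ X, ℓ x = ℓ q → 0 ≤ (d (ℓ q) x1 : ℤ) * Λ x - Λ x1 * d (ℓ q) x := by
    intro x hx hxj
    have hd : 0 < d (ℓ q) x := hL.d_pos (ℓ q) x hq hxj
    have h1 := hmax x (by rw [hG, Finset.mem_filter, hXf.mem_toFinset]; exact ⟨hx, hxj⟩)
    have hdq : (0 : ℚ) < (d (ℓ q) x : ℚ) := by exact_mod_cast hd
    have hd1q : (0 : ℚ) < (d (ℓ q) x1 : ℚ) := by exact_mod_cast hd1
    rw [div_le_div_iff₀ hdq hd1q] at h1
    have h2 : -(Λ x : ℤ) * (d (ℓ q) x1 : ℤ) ≤ -(Λ x1 : ℤ) * (d (ℓ q) x : ℤ) := by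
      exact_mod_cast h1
    linarith
  have hneg : Λ x1 < 0 := by
    have h1 := hratio x0 hx0X hx0j
    have hd0 : (0 : ℤ) < (d (ℓ q) x0 : ℤ) := by exact_mod_cast hL.d_pos (ℓ q) x0 hq hx0j
    have hd1z : (0 : ℤ) < (d (ℓ q) x1 : ℤ) := by exact_mod_cast hd1
    by_contra hcon
    push Not at hcon
    have h2 : (d (ℓ q) x1 : ℤ) * Λ x0 < 0 := mul_neg_of_pos_of_neg hd1z hx0
    have h3 : 0 ≤ Λ x1 * (d (ℓ q) x0 : ℤ) := mul_nonneg hcon hd0.le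
    linarith
  -- nonnegativity of `b`
  have hbn : ∀ y, ℓ q ≤ ℓ y → 0 ≤ (d (ℓ q) x1 : ℤ) * Λ y - Λ x1 * d (ℓ q) y := by
    intro y hy
    refine dataA_ind hL hX (j := ℓ q)
      (fun y => 0 ≤ (d (ℓ q) x1 : ℤ) * Λ y - Λ x1 * d (ℓ q) y) ?_ ?_ ?_ y hy
    · have h1 : ℓ q < ℓ (1 : M) := by rw [hone]; exact hq
      simp only [hΛ0 1 h1, hL.d_zero (ℓ q) 1 h1, mul_zero, Nat.cast_zero, sub_zero, le_refl]
    · intro x hx hj
      rcases hj.lt_or_eq with h | h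
      · simp only [hΛ0 x h, hL.d_zero (ℓ q) x h, mul_zero, Nat.cast_zero, sub_zero, le_refl]
      · exact hratio x hx h.symm
    · intro x y hx hy h1 h2
      simp only [hΛ x y (le_trans hi hx) (le_trans hi hy), hL.d_mul (ℓ q) x y hx hy]
      push_cast
      have : (d (ℓ q) x1 : ℤ) * (Λ x + Λ y) - Λ x1 * ((d (ℓ q) x : ℤ) + d (ℓ q) y)
        = ((d (ℓ q) x1 : ℤ) * Λ x - Λ x1 * d (ℓ q) x)
          + ((d (ℓ q) x1 : ℤ) * Λ y - Λ x1 * d (ℓ q) y) := by ring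
      rw [this]
      exact add_nonneg h1 h2
  have han : ∀ y, 0 ≤ -Λ x1 * (d (ℓ q) y : ℤ) := fun y =>
    mul_nonneg (by omega) (Int.natCast_nonneg _)
  have hacast : ∀ y, (((-Λ x1 * (d (ℓ q) y : ℤ)).toNat : ℕ) : ℤ) = -Λ x1 * (d (ℓ q) y : ℤ) :=
    fun y => Int.toNat_of_nonneg (han y)
  have hbcast : ∀ y, ℓ q ≤ ℓ y →
      ((((d (ℓ q) x1 : ℤ) * Λ y - Λ x1 * d (ℓ q) y).toNat : ℕ) : ℤ)
        = (d (ℓ q) x1 : ℤ) * Λ y - Λ x1 * d (ℓ q) y :=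
    fun y hy => Int.toNat_of_nonneg (hbn y hy)
  have hmin : ∀ x y, ℓ q ≤ ℓ x → ℓ q ≤ ℓ y → ℓ q ≤ ℓ (x * y) := by
    intro x y hx hy
    rw [hL.mul]
    exact le_min hx hy
  refine ⟨fun y => (-Λ x1 * (d (ℓ q) y : ℤ)).toNat,
    fun y => ((d (ℓ q) x1 : ℤ) * Λ y - Λ x1 * d (ℓ q) y).toNat,
    fun y => -(d (ℓ q) x1 : ℤ) * Λ y, ?_, ?_, ?_, ?_, ?_, ?_, ?_, ?_⟩
  · intro x y hx hy
    have h : (((-Λ x1 * (d (ℓ q) (x * y) : ℤ)).toNat : ℕ) : ℤ)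
        = ((((-Λ x1 * (d (ℓ q) x : ℤ)).toNat + (-Λ x1 * (d (ℓ q) y : ℤ)).toNat : ℕ)) : ℤ) := by
      rw [Nat.cast_add, hacast, hacast, hacast, hL.d_mul (ℓ q) x y hx hy]
      push_cast
      ring
    exact_mod_cast h
  · intro x y hx hy
    have h : ((((d (ℓ q) x1 : ℤ) * Λ (x * y) - Λ x1 * d (ℓ q) (x * y)).toNat : ℕ) : ℤ)
        = (((((d (ℓ q) x1 : ℤ) * Λ x - Λ x1 * d (ℓ q) x).toNat
          + ((d (ℓ q) x1 : ℤ) * Λ y - Λ x1 * d (ℓ q) y).toNat : ℕ)) : ℤ) := by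
      rw [Nat.cast_add, hbcast _ (hmin x y hx hy), hbcast x hx, hbcast y hy,
        hL.d_mul (ℓ q) x y hx hy, hΛ x y (le_trans hi hx) (le_trans hi hy)]
      push_cast
      ring
    exact_mod_cast h
  · intro x hx
    simp only [hΛ0 x hx, hL.d_zero (ℓ q) x hx, mul_zero, Nat.cast_zero, sub_zero, Int.toNat_zero,
      and_self]
  · intro x hx
    have h1 : 0 < d (ℓ q) x := hL.d_pos (ℓ q) x hq hx
    have h2 : (0 : ℤ) < -Λ x1 * (d (ℓ q) x : ℤ) := mul_pos (by omega) (by exact_mod_cast h1)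
    exact Int.lt_toNat.2 (by simpa using h2)
  · refine ⟨x1, hx1j, ?_⟩
    have : (d (ℓ q) x1 : ℤ) * Λ x1 - Λ x1 * d (ℓ q) x1 = 0 := by ring
    simp only [this, Int.toNat_zero]
  · intro x y hx hy
    simp only [hΛ x y hx hy]
    ring
  · intro x hx
    simp only [hΛ0 x hx, mul_zero]
  · intro x hx
    simp only
    rw [hacast x, hbcast x hx]
    ring

end Pool.Agent.Helper13.EC
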