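import Mathlib

set_option autoImplicit false

/-!
[EC-Lam] Integer valued additive functions on finitely generated commutative monoids.

Let `G` be the Grothendieck group of `F` (`Algebra.GrothendieckGroup F`, `Localization ⊤`), finitely
generated; `K` the subgroup generated by the image of `H`; `K = {of h / of h' : h, h' ∈ H}`. If the
image of `q` in `G / K` has infinite order, then (torsion free quotient of a finitely generated
abelian group is free over `ℤ`) there is a homomorphism `G / K → ℤ` with nonzero value at `q`; change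
its sign if necessary. Otherwise `q ^ n ∈ K`: `q ^ n = h' / h` in `G`, i.e. `q ^ n h z = h' z` for some
`z`.
-/

namespace Pool.Agent.Helper13.EC

/-- An element of infinite order of a finitely generated abelian group has nonzero value under
some homomorphism to `ℤ`. -/
theorem lam_dual {A : Type*} [AddCommGroup A] [Module.Finite ℤ A] (a : A)
    (ha : ∀ n : ℕ, 0 < n → n • a ≠ 0) : ∃ φ : A →+ ℤ, φ a ≠ 0 := by
  classical
  let T : Submodule ℤ A := Submodule.torsion ℤ A
  have hTF : Module.Free ℤ (A ⧸ T) := inferInstance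
  have hne : (T.mkQ a) ≠ 0 := by
    intro h
    have hmem : a ∈ T := by
      have := (Submodule.Quotient.mk_eq_zero T (x := a)).1 (by simpa using h)
      exact this
    have h2 := (Submodule.mem_torsion_iff (R := ℤ) a).1 hmem
    obtain ⟨c, hc⟩ := h2
    have hc0 : (c : ℤ) ≠ 0 := nonZeroDivisors.ne_zero c.2
    have hc1 : (c : ℤ) • a = 0 := hc
    refine ha (c : ℤ).natAbs (Int.natAbs_pos.2 hc0) ?_
    rcases Int.natAbs_eq (c : ℤ) with h3 | h3
    · rw [h3] at hc1
      simpa using hc1
    · rw [h3] at hc1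
      simpa using hc1
  have h4 : ¬ ∀ φ : Module.Dual ℤ (A ⧸ T), φ (T.mkQ a) = 0 := by
    intro h
    exact hne ((Module.forall_dual_apply_eq_zero_iff ℤ (T.mkQ a)).1 h)
  push Not at h4
  obtain ⟨φ, hφ⟩ := h4
  exact ⟨(φ.comp T.mkQ).toAddMonoidHom, hφ⟩

/-- The elements of the subgroup generated by a submonoid of a commutative group are the
quotients. -/
theorem lam_closure {G : Type*} [CommGroup G] (S : Submonoid G) (x : G)
    (hx : x ∈ Subgroup.closure (S : Set G)) : ∃ a ∈ S, ∃ b ∈ S, x * a = b := by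
  induction hx using Subgroup.closure_induction with
  | mem x hx => exact ⟨1, S.one_mem, x, hx, mul_one x⟩
  | one => exact ⟨1, S.one_mem, 1, S.one_mem, mul_one 1⟩
  | mul x y _ _ ihx ihy =>
    obtain ⟨a, ha, b, hb, h1⟩ := ihx
    obtain ⟨c, hc, d, hd, h2⟩ := ihy
    exact ⟨a * c, S.mul_mem ha hc, b * d, S.mul_mem hb hd, by rw [← h1, ← h2]; exact mul_mul_mul_comm x y a c⟩
  | inv x _ ihx =>
    obtain ⟨a, ha, b, hb, h1⟩ := ihx
    exact ⟨b, hb, a, ha, by rw [← h1]; exact inv_mul_cancel_left x a⟩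

theorem exists_lam {F : Type*} [CommMonoid F] [Monoid.FG F] (H : Submonoid F) (q : F) :
    (∃ Λ : F → ℤ, (∀ x y, Λ (x * y) = Λ x + Λ y) ∧ (∀ h ∈ H, Λ h = 0) ∧ Λ q < 0) ∨
      ∃ n : ℕ, 0 < n ∧ ∃ h ∈ H, ∃ h' ∈ H, ∃ z : F, q ^ n * h * z = h' * z := by
  classical
  let G := Algebra.GrothendieckGroup F
  let ι : F →* G := Algebra.GrothendieckGroup.of
  let K : Subgroup G := Subgroup.closure ((H.map ι : Submonoid G) : Set G)
  by_cases hq : ∃ n : ℕ, 0 < n ∧ ι q ^ n ∈ K
  · right
    obtain ⟨n, hn, hK⟩ := hq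
    obtain ⟨a, ⟨h, hh, rfl⟩, b, ⟨h', hh', rfl⟩, hab⟩ := lam_closure (H.map ι) _ hK
    have h1 : ι (q ^ n * h) = ι h' := by rw [map_mul, map_pow]; exact hab
    have h2 := (Localization.mk_eq_monoidOf_mk' (S := (⊤ : Submonoid F)))
    have h3 := (Submonoid.LocalizationMap.eq_iff_exists (Localization.monoidOf (⊤ : Submonoid F))
      (x := q ^ n * h) (y := h')).1 h1
    obtain ⟨c, hc⟩ := h3
    refine ⟨n, hn, h, hh, h', hh', (c : F), ?_⟩
    rw [mul_comm _ (c : F), mul_comm h' (c : F)]
    exact hc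
  · left
    push Not at hq
    have hfgG : Group.FG G := Group.fg_iff_monoid_fg.2 inferInstance
    have hfgQ : Group.FG (G ⧸ K) := inferInstance
    have hfin : Module.Finite ℤ (Additive (G ⧸ K)) := by
      rw [Module.Finite.iff_addGroup_fg]
      exact AddGroup.fg_iff_mul_fg.2 hfgQ
    obtain ⟨φ, hφ⟩ := lam_dual (A := Additive (G ⧸ K)) (Additive.ofMul (QuotientGroup.mk (ι q)))
      (by
        intro n hn h0
        refine hq n hn ?_
        have h1 : (QuotientGroup.mk (ι q) : G ⧸ K) ^ n = 1 := h0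
        rw [← QuotientGroup.mk_pow] at h1
        exact (QuotientGroup.eq_one_iff _).1 h1)
    let Λ : F → ℤ := fun x => φ (Additive.ofMul (QuotientGroup.mk (ι x)))
    have hadd : ∀ x y, Λ (x * y) = Λ x + Λ y := by
      intro x y
      show φ (Additive.ofMul (QuotientGroup.mk (ι (x * y)))) = _
      rw [map_mul ι, QuotientGroup.mk_mul, ofMul_mul, map_add]
    have hz : ∀ h ∈ H, Λ h = 0 := by
      intro h hh
      have h1 : (QuotientGroup.mk (ι h) : G ⧸ K) = 1 :=
        (QuotientGroup.eq_one_iff _).2 (Subgroup.subset_closure ⟨h, hh, rfl⟩)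
      show φ (Additive.ofMul (QuotientGroup.mk (ι h))) = 0
      rw [h1, ofMul_one, map_zero]
    rcases lt_or_gt_of_ne hφ with h | h
    · exact ⟨Λ, hadd, hz, h⟩
    · refine ⟨fun x => - Λ x, fun x y => by simp only [hadd]; ring, fun x hx => by simp only [hz x hx]; ring, ?_⟩
      exact neg_neg_of_pos h

end Pool.Agent.Helper13.EC

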