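import Pool.Agent.Helper13.EC.Defs
import Pool.Agent.Helper13.EC.Lam

set_option autoImplicit false

/-!
[EC-DataI] The data `(i, n, g, Λ)` attached to an element `q` of level `j < r`.

`exists_i`: let `i ≤ j` be maximal such that `q ^ n g` (`n > 0`, `ℓ g > j`) acts trivially on all
levels `< i` for some `n, g` (`i = 0`: `n = 1`, `g = 1`). If `i = j` let `Λ = - d j`. If `i < j` apply
`exists_lam` to the filter `F = {x | i ≤ ℓ x}` (a submonoid of `M`, finitely generated: generated by
the generators of `M` lying in it) and `H = {x | j < ℓ x}`. If it gives `Λ`, extend it by `0` outside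
`F`. If it gives `q ^ m h z = h' z` with `ℓ h, ℓ h' > j`, `ℓ z ≥ i`: multiply by an element of level
`i`: `ℓ z = i`. By `Lev.inv` there is `h''`, `ℓ h'' ≥ ℓ h' > j`, with `h' h'' y = y` for
`ℓ y < ℓ h'`, in particular for `y` of level `≤ j`. So `c = q ^ m (h h'')` satisfies
`c z = q ^ m h z h'' = h' h'' z = z`, `z ≠ 1`. `key1`: `c y = y` for `ℓ y < i`; `key2`:
`y c ^ d i y = y` for `ℓ y = i`. With `K = ∏ d i x` over the generators `x` of `M` of level `i`
(positive by `d_pos`), `y c ^ K = y` for all `y` of level `i` (such a `y` has such a generator as a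
factor). So `c ^ K = q ^ (m K) (h h'') ^ K` acts trivially on the levels `< i + 1`, against the
maximality of `i`.
-/

namespace Pool.Agent.Helper13.EC

/-- the submonoid of elements of level at least `i` -/
def dataiF {M : Type*} [CommMonoid M] {r : ℕ} {ℓ : M → ℕ} {d : ℕ → M → ℕ} (hL : Lev r ℓ d)
    (i : ℕ) (hi : i ≤ r) : Submonoid M where
  carrier := {x | i ≤ ℓ x}
  one_mem' := by
    show i ≤ ℓ 1
    rw [(hL.one_iff 1).2 rfl]
    exact hi
  mul_mem' := by
    intro a b ha hb
    show i ≤ ℓ (a * b)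
    rw [hL.mul]
    exact le_min ha hb

theorem datai_fg {M : Type*} [CommMonoid M] [Monoid.FG M] {r : ℕ} {ℓ : M → ℕ} {d : ℕ → M → ℕ}
    (hL : Lev r ℓ d) (i : ℕ) (hi : i ≤ r) : Monoid.FG (dataiF hL i hi) := by
  classical
  rw [Monoid.fg_iff_submonoid_fg]
  obtain ⟨S, hS⟩ := (Monoid.fg_def.1 inferInstance : (⊤ : Submonoid M).FG)
  refine ⟨S.filter (fun x => i ≤ ℓ x), ?_⟩
  apply le_antisymm
  · rw [Submonoid.closure_le]
    intro x hx
    exact (Finset.mem_filter.1 (Finset.mem_coe.1 hx)).2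
  · intro x hx
    have hxS : x ∈ Submonoid.closure (S : Set M) := by rw [hS]; trivial
    revert hx
    induction hxS using Submonoid.closure_induction with
    | mem x h =>
      intro hx
      exact Submonoid.subset_closure (Finset.mem_coe.2 (Finset.mem_filter.2 ⟨h, hx⟩))
    | one => intro _; exact one_mem _
    | mul x y _ _ ihx ihy =>
      intro h
      have h' : i ≤ ℓ (x * y) := h
      rw [hL.mul] at h'
      exact mul_mem (ihx (le_trans h' (min_le_left _ _))) (ihy (le_trans h' (min_le_right _ _)))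

theorem datai_pow_level {M : Type*} [CommMonoid M] {r : ℕ} {ℓ : M → ℕ} {d : ℕ → M → ℕ}
    (hL : Lev r ℓ d) (j : ℕ) (hj : j < r) (g : M) (hg : j < ℓ g) (n : ℕ) : j < ℓ (g ^ n) := by
  induction n with
  | zero => rw [pow_zero, (hL.one_iff 1).2 rfl]; exact hj
  | succ n ih => rw [pow_succ, hL.mul]; exact lt_min ih hg

theorem datai_act_pow {M : Type*} [CommMonoid M] (c y : M) (h : c * y = y) (n : ℕ) :
    c ^ n * y = y := by
  induction n with
  | zero => rw [pow_zero, one_mul]
  | succ n ih => rw [pow_succ, mul_assoc, h, ih]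

/-- a common exponent for all elements of level `i` -/
theorem datai_exp {M : Type*} [CommMonoid M] [Monoid.FG M] {r : ℕ} {ℓ : M → ℕ}
    {d : ℕ → M → ℕ} (hL : Lev r ℓ d) (i : ℕ) (hi : i < r) (c : M)
    (hc : ∀ y, ℓ y = i → y * c ^ d i y = y) :
    ∃ K : ℕ, 0 < K ∧ ∀ y, ℓ y = i → c ^ K * y = y := by
  classical
  obtain ⟨S, hS⟩ := (Monoid.fg_def.1 inferInstance : (⊤ : Submonoid M).FG)
  refine ⟨∏ s ∈ S.filter (fun x => ℓ x = i), d i s, ?_, ?_⟩
  · refine Finset.prod_pos fun s hs => ?_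
    exact hL.d_pos i s hi (Finset.mem_filter.1 hs).2
  · intro y hy
    have hyS : y ∈ Submonoid.closure (S : Set M) := by rw [hS]; trivial
    induction hyS using Submonoid.closure_induction with
    | mem x h =>
      have hmem : x ∈ S.filter (fun x => ℓ x = i) := Finset.mem_filter.2 ⟨h, hy⟩
      obtain ⟨e, he⟩ := Finset.dvd_prod_of_mem (fun s => d i s) hmem
      have he' : (∏ s ∈ S.filter (fun x => ℓ x = i), d i s) = d i x * e := he
      rw [he', pow_mul]
      refine datai_act_pow _ _ ?_ e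
      rw [mul_comm]
      exact hc x hy
    | one =>
      rw [(hL.one_iff 1).2 rfl] at hy
      omega
    | mul x y _ _ ihx ihy =>
      rw [hL.mul] at hy
      rcases min_choice (ℓ x) (ℓ y) with h | h
      · rw [h] at hy
        rw [← mul_assoc, ihx hy]
      · rw [h] at hy
        rw [mul_left_comm, ihy hy]

theorem exists_i {M : Type*} [CommMonoid M] [Monoid.FG M] (hred : Red M) {r : ℕ} {ℓ : M → ℕ}
    {d : ℕ → M → ℕ} (hL : Lev r ℓ d) (q : M) (hq : ℓ q < r) :
    ∃ i ≤ ℓ q, ∃ n : ℕ, 0 < n ∧ ∃ g : M, ℓ q < ℓ g ∧ (∀ y, ℓ y < i → q ^ n * g * y = y) ∧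
      ∃ Λ : M → ℤ, (∀ x y, i ≤ ℓ x → i ≤ ℓ y → Λ (x * y) = Λ x + Λ y) ∧
        (∀ x, ℓ q < ℓ x → Λ x = 0) ∧ Λ q < 0 := by
  classical
  let P : ℕ → Prop := fun i => i ≤ ℓ q ∧ ∃ n : ℕ, 0 < n ∧ ∃ g : M, ℓ q < ℓ g ∧
    ∀ y, ℓ y < i → q ^ n * g * y = y
  have hP0 : P 0 := ⟨Nat.zero_le _, 1, one_pos, 1, by rw [(hL.one_iff 1).2 rfl]; exact hq,
    fun y hy => absurd hy (Nat.not_lt_zero _)⟩
  obtain ⟨i, hPi, hmax⟩ : ∃ i, P i ∧ ¬ P (i + 1) := by
    by_contra hcon
    push Not at hcon
    have hall : ∀ i, P i := fun i => by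
      induction i with
      | zero => exact hP0
      | succ i ih => exact hcon i ih
    have := (hall (ℓ q + 1)).1
    omega
  obtain ⟨hiq, n, hn, g, hg, hact⟩ := hPi
  refine ⟨i, hiq, n, hn, g, hg, hact, ?_⟩
  rcases hiq.eq_or_lt with heq | hlt
  · subst heq
    refine ⟨fun x => -(d (ℓ q) x : ℤ), ?_, ?_, ?_⟩
    · intro x y hx hy
      simp only [hL.d_mul (ℓ q) x y hx hy]
      push_cast
      ring
    · intro x hx
      simp only [hL.d_zero (ℓ q) x hx]
      simp
    · have := hL.d_pos (ℓ q) q hq rfl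
      simp only
      omega
  have hir : i ≤ r := by omega
  have : Monoid.FG (dataiF hL i hir) := datai_fg hL i hir
  let H : Submonoid (dataiF hL i hir) :=
    { carrier := {x | ℓ q < ℓ (x : M)}
      one_mem' := by
        show ℓ q < ℓ ((1 : dataiF hL i hir) : M)
        rw [Submonoid.coe_one, (hL.one_iff 1).2 rfl]
        exact hq
      mul_mem' := by
        intro a b ha hb
        show ℓ q < ℓ ((a * b : dataiF hL i hir) : M)
        rw [Submonoid.coe_mul, hL.mul]
        exact lt_min ha hb }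
  rcases exists_lam H ⟨q, hiq⟩ with ⟨Λ, hadd, hz, hneg⟩ | ⟨m, hm, h, hh, h', hh', z, heq⟩
  · refine ⟨fun x => if hx : i ≤ ℓ x then Λ ⟨x, hx⟩ else 0, ?_, ?_, ?_⟩
    · intro x y hx hy
      have hxy : i ≤ ℓ (x * y) := by rw [hL.mul]; exact le_min hx hy
      simp only [hx, hy, hxy, dif_pos]
      exact hadd ⟨x, hx⟩ ⟨y, hy⟩
    · intro x hx
      have hx' : i ≤ ℓ x := by omega
      simp only [hx', dif_pos]
      exact hz ⟨x, hx'⟩ hx
    · simp only [hiq, dif_pos]
      exact hneg
  · exfalso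
    apply hmax
    have heq' : q ^ m * (h : M) * (z : M) = (h' : M) * (z : M) := by
      have := congrArg (fun t : dataiF hL i hir => (t : M)) heq
      simpa using this
    have hhl : ℓ q < ℓ (h : M) := hh
    have hhl' : ℓ q < ℓ (h' : M) := hh'
    obtain ⟨w, hw⟩ := hL.surj i hir
    have hzl : i ≤ ℓ (z : M) := z.2
    have hzw : ℓ ((z : M) * w) = i := by rw [hL.mul, hw]; exact min_eq_right hzl
    have hzw1 : (z : M) * w ≠ 1 := by
      intro h1
      have := (hL.one_iff _).2 h1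
      omega
    obtain ⟨h'', hle, hinv⟩ := hL.inv (h' : M)
    have hc1 : q ^ m * ((h : M) * h'') * ((z : M) * w) = (z : M) * w := by
      calc q ^ m * ((h : M) * h'') * ((z : M) * w) = (q ^ m * (h : M) * (z : M)) * (h'' * w) := by
            simp only [mul_assoc, mul_comm, mul_left_comm]
        _ = (h' : M) * (z : M) * (h'' * w) := by rw [heq']
        _ = (h' : M) * h'' * ((z : M) * w) := by simp only [mul_assoc, mul_comm, mul_left_comm]
        _ = (z : M) * w := hinv _ (by rw [hzw]; omega)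
    have hk1 := hL.key1 _ _ hzw1 hc1
    have hk2 := hL.key2 _ _ hzw1 hc1
    rw [hzw] at hk1 hk2
    obtain ⟨K, hK, hKa⟩ := datai_exp hL i (by omega) _ hk2
    refine ⟨by omega, m * K, Nat.mul_pos hm hK, ((h : M) * h'') ^ K, ?_, ?_⟩
    · refine datai_pow_level hL _ hq _ ?_ K
      rw [hL.mul]
      exact lt_min hhl (by omega)
    · intro y hy
      have hcK : q ^ (m * K) * ((h : M) * h'') ^ K = (q ^ m * ((h : M) * h'')) ^ K := by
        rw [mul_pow (q ^ m), pow_mul]
      rw [hcK]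
      rcases (Nat.lt_succ_iff.1 hy).eq_or_lt with h2 | h2
      · exact hKa y h2
      · exact datai_act_pow _ _ (hk1 y h2) K

end Pool.Agent.Helper13.EC
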