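import Mathlib

set_option autoImplicit false

/-!
Definitions for the finitely generated case of MP_4b0123_al.

A commutative semigroup `S` is studied through the monoid `M = WithOne S`; endomorphisms of `S` are
the monoid endomorphisms of `M` with trivial kernel. `M` is reduced (`a * b = 1` implies `a = 1`).
-/

namespace Pool.Agent.Helper13.EC

/-- A monoid endomorphism with trivial kernel. -/
def NT {M : Type*} [CommMonoid M] (f : M →* M) : Prop := ∀ x, f x = 1 → x = 1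

/-- A reduced monoid. -/
def Red (M : Type*) [CommMonoid M] : Prop := ∀ a b : M, a * b = 1 → a = 1

/-- The semigroup of endomorphisms with trivial kernel is cancellative. -/
def ECM (M : Type*) [CommMonoid M] : Prop :=
  ∀ f g h : M →* M, NT f → NT g → NT h → (∀ x, f x * h x = g x * h x) → ∀ x, f x = g x

/-- Separative. -/
def Sep (M : Type*) [CommMonoid M] : Prop := ∀ a b : M, a * a = a * b → a * b = b * b → a = b

/-- A filter `F` (a submonoid closed under divisors) whose elements act invertibly on the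
complement of `F`. -/
structure Filt {M : Type*} [CommMonoid M] (F : Set M) : Prop where
  one : (1 : M) ∈ F
  mul : ∀ x y, x ∈ F → y ∈ F → x * y ∈ F
  left : ∀ x y, x * y ∈ F → x ∈ F
  inv : ∀ z ∈ F, ∃ z' ∈ F, ∀ y, y ∉ F → z * z' * y = y

/-- The next filter. -/
def nxt {M : Type*} [CommMonoid M] (F : Set M) : Set M :=
  {s | s ∈ F ∧ (s = 1 ∨ ∃ t ∈ F, ∃ w ∈ F, w ≠ 1 ∧ s * t * w = w)}

/-- What one step of the construction gives: `δ` is a normalised grading of `F` which vanishes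
exactly on the next filter. -/
structure StepData {M : Type*} [CommMonoid M] (F : Set M) (δ : M → ℕ) : Prop where
  filt : Filt (nxt F)
  proper : ∃ x ∈ F, x ∉ nxt F
  key1 : ∀ u ∈ F, ∀ w ∈ F, w ≠ 1 → u * w = w → ∀ y, y ∉ F → u * y = y
  d_mul : ∀ x ∈ F, ∀ y ∈ F, δ (x * y) = δ x + δ y
  d_zero : ∀ x ∈ nxt F, δ x = 0
  d_pos : ∀ x ∈ F, x ∉ nxt F → 0 < δ x
  d_one : ∃ x ∈ F, ∃ y ∈ F, δ x = δ y + 1
  key2 : ∀ u ∈ F, ∀ w ∈ F, w ≠ 1 → u * w = w → ∀ z ∈ F, z * u ^ δ z = z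

/-- A levelling `ℓ` of `M` with normalised gradings `d j` of the filters `{x | j ≤ ℓ x}`; the top
level `r` consists of `1` only. -/
structure Lev {M : Type*} [CommMonoid M] (r : ℕ) (ℓ : M → ℕ) (d : ℕ → M → ℕ) : Prop where
  le : ∀ x, ℓ x ≤ r
  one_iff : ∀ x, ℓ x = r ↔ x = 1
  surj : ∀ j, j ≤ r → ∃ x, ℓ x = j
  mul : ∀ x y, ℓ (x * y) = min (ℓ x) (ℓ y)
  inv : ∀ z, ∃ z', ℓ z ≤ ℓ z' ∧ ∀ y, ℓ y < ℓ z → z * z' * y = y
  d_mul : ∀ j x y, j ≤ ℓ x → j ≤ ℓ y → d j (x * y) = d j x + d j y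
  d_pos : ∀ j x, j < r → ℓ x = j → 0 < d j x
  d_zero : ∀ j x, j < ℓ x → d j x = 0
  d_one : ∀ j, j < r → ∃ x y, j ≤ ℓ x ∧ j ≤ ℓ y ∧ d j x = d j y + 1
  key0 : ∀ u w, w ≠ 1 → u * w = w → ℓ w < ℓ u
  key1 : ∀ u w, w ≠ 1 → u * w = w → ∀ y, ℓ y < ℓ w → u * y = y
  key2 : ∀ u w, w ≠ 1 → u * w = w → ∀ z, ℓ z = ℓ w → z * u ^ d (ℓ w) z = z

/-- Endomorphisms which agree modulo the congruence of the levelling are equal. -/
def Kap {M : Type*} [CommMonoid M] (ℓ : M → ℕ) : Prop :=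
  ∀ f g : M →* M, NT f → NT g → (∀ x, ∃ z, ℓ z = ℓ x ∧ f x * z = g x * z) → ∀ x, f x = g x

/-- The conclusion of module `A12`: equivalent elements have equal products with an inverse. -/
def AA {M : Type*} [CommMonoid M] (r : ℕ) (ℓ : M → ℕ) : Prop :=
  ∀ j, j < r → ∀ q q' z t : M, ℓ q = j → ℓ q' = j → ℓ z = j → j ≤ ℓ t → q * z = q' * z →
    (∀ y, ℓ y < j → q * t * y = y) → q * t = q' * t

end Pool.Agent.Helper13.EC
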