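import Pool.Agent.Helper13.EC.Defs
import Pool.Agent.Helper54.EndFG

set_option autoImplicit false

/-!
[EC-Eps] The normalised grading of the face `{b = 0}`.

`P = {y | j ≤ ℓ y, b y = 0}` is a submonoid of `M` (`hab0` gives `b 1 = 0`, since `ℓ 1 = r > j`); it
is generated by the generators of `M` lying in it (`Lev.mul`, `b` additive on `{j ≤ ℓ y}` with values
in `ℕ`). Apply `Pool.Agent.Helper54.EndCanc.exists_div` to the restriction of `d j` to `P`: `c > 0`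
divides all `d j y`, `y ∈ P`, and `d j x = d j y + c` for some `x, y ∈ P`. Put `ε y = d j y / c`
(additive on `P`). Multiply `x`, `y` with the element of `hx1` to have level `j`. Let `K` be `1` plus
the sum of `d j y` over the generators `y` of `M`; for the generators `y ∈ P` of level `j`
`ε y ≤ d j y ≤ K ≤ K a y`, for level `> j` `d j y = 0`; products: additivity. `ε y > 0` for level `j`:
`d j y > 0` and `c` divides it.
-/

namespace Pool.Agent.Helper13.EC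

theorem eps_bound {M : Type*} [CommMonoid M] [Monoid.FG M] {r : ℕ} {ℓ : M → ℕ}
    {d : ℕ → M → ℕ} (hL : Lev r ℓ d) {j : ℕ} (hj : j < r) (a : M → ℕ)
    (ha : ∀ x y, j ≤ ℓ x → j ≤ ℓ y → a (x * y) = a x + a y)
    (hapos : ∀ x, ℓ x = j → 0 < a x) :
    ∃ K : ℕ, 0 < K ∧ ∀ x, j ≤ ℓ x → d j x ≤ K * a x := by
  classical
  obtain ⟨T, hT, hTf⟩ := (Monoid.fg_iff (M := M)).1 inferInstance
  refine ⟨1 + ∑ t ∈ hTf.toFinset, d j t, by omega, fun x => ?_⟩
  have hx : x ∈ Submonoid.closure T := by rw [hT]; trivial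
  induction hx using Submonoid.closure_induction with
  | mem y hy =>
    intro h
    rcases h.lt_or_eq with h1 | h1
    · rw [hL.d_zero j y h1]
      exact Nat.zero_le _
    · have h2 : d j y ≤ ∑ t ∈ hTf.toFinset, d j t :=
        Finset.single_le_sum (f := fun t => d j t) (fun _ _ => Nat.zero_le _)
          (hTf.mem_toFinset.2 hy)
      have h3 := hapos y h1.symm
      calc d j y ≤ (1 + ∑ t ∈ hTf.toFinset, d j t) * 1 := by omega
        _ ≤ _ := Nat.mul_le_mul_left _ h3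
  | one =>
    intro _
    rw [hL.d_zero j 1 (by rw [(hL.one_iff 1).2 rfl]; exact hj)]
    exact Nat.zero_le _
  | mul x y _ _ ihx ihy =>
    intro h
    rw [hL.mul] at h
    have hx1 : j ≤ ℓ x := h.trans (min_le_left _ _)
    have hy1 : j ≤ ℓ y := h.trans (min_le_right _ _)
    rw [hL.d_mul j x y hx1 hy1, ha x y hx1 hy1, Nat.mul_add]
    exact Nat.add_le_add (ihx hx1) (ihy hy1)

theorem exists_eps {M : Type*} [CommMonoid M] [Monoid.FG M] {r : ℕ} {ℓ : M → ℕ}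
    {d : ℕ → M → ℕ} (hL : Lev r ℓ d) {j : ℕ} (hj : j < r) (a b : M → ℕ)
    (ha : ∀ x y, j ≤ ℓ x → j ≤ ℓ y → a (x * y) = a x + a y)
    (hb : ∀ x y, j ≤ ℓ x → j ≤ ℓ y → b (x * y) = b x + b y)
    (hab0 : ∀ x, j < ℓ x → a x = 0 ∧ b x = 0) (hapos : ∀ x, ℓ x = j → 0 < a x)
    (hx1 : ∃ x, ℓ x = j ∧ b x = 0) :
    ∃ (K : ℕ) (ε : M → ℕ), 0 < K ∧
      (∀ x y, j ≤ ℓ x → j ≤ ℓ y → b x = 0 → b y = 0 → ε (x * y) = ε x + ε y) ∧
      (∀ x, j < ℓ x → ε x = 0) ∧ (∀ x, ℓ x = j → b x = 0 → 0 < ε x ∧ ε x ≤ K * a x) ∧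
      ∃ x y, ℓ x = j ∧ ℓ y = j ∧ b x = 0 ∧ b y = 0 ∧ ε x = ε y + 1 := by
  classical
  obtain ⟨K, hK, hbd⟩ := eps_bound hL hj a ha hapos
  obtain ⟨x₀, hx₀, hbx₀⟩ := hx1
  have h1 : j < ℓ (1 : M) := by rw [(hL.one_iff 1).2 rfl]; exact hj
  let P : Submonoid M :=
    { carrier := {y | j ≤ ℓ y ∧ b y = 0}
      one_mem' := ⟨h1.le, (hab0 1 h1).2⟩
      mul_mem' := by
        rintro x y ⟨hx, hbx⟩ ⟨hy, hby⟩
        refine ⟨?_, ?_⟩
        · rw [hL.mul]
          exact le_min hx hy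
        · rw [hb x y hx hy, hbx, hby] }
  obtain ⟨c, hc, hdvd, u, v, huv⟩ := Pool.Agent.Helper54.EndCanc.exists_div
    (S := P) (fun y => d j (y : M)) (fun x y => hL.d_mul j x y x.2.1 y.2.1)
    ⟨⟨x₀, hx₀.ge, hbx₀⟩, hL.d_pos j x₀ hj hx₀⟩
  have hadd : ∀ x y, j ≤ ℓ x → j ≤ ℓ y → b x = 0 → b y = 0 →
      d j (x * y) / c = d j x / c + d j y / c := by
    intro x y hx hy hbx hby
    rw [hL.d_mul j x y hx hy, Nat.add_div_of_dvd_right (hdvd ⟨x, hx, hbx⟩)]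
  refine ⟨K, fun y => d j y / c, hK, hadd, ?_, ?_, ?_⟩
  · intro x hx
    change d j x / c = 0
    rw [hL.d_zero j x hx, Nat.zero_div]
  · intro x hx hbx
    have h2 : c ∣ d j x := hdvd ⟨x, hx.ge, hbx⟩
    have h3 : 0 < d j x := hL.d_pos j x hj hx
    exact ⟨Nat.div_pos (Nat.le_of_dvd h3 h2) hc, (Nat.div_le_self _ _).trans (hbd x hx.ge)⟩
  · refine ⟨u * x₀, v * x₀, ?_, ?_, ?_, ?_, ?_⟩
    · rw [hL.mul, hx₀]
      exact min_eq_right u.2.1
    · rw [hL.mul, hx₀]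
      exact min_eq_right v.2.1
    · rw [hb _ _ u.2.1 hx₀.ge, hbx₀, u.2.2]
    · rw [hb _ _ v.2.1 hx₀.ge, hbx₀, v.2.2]
    · change d j (u * x₀) / c = d j (v * x₀) / c + 1
      rw [hadd _ _ u.2.1 hx₀.ge u.2.2 hbx₀, hadd _ _ v.2.1 hx₀.ge v.2.2 hbx₀]
      have h4 : d j (u : M) / c = d j (v : M) / c + 1 := by
        rw [huv, Nat.add_div_right _ hc]
      omega

end Pool.Agent.Helper13.EC
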