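import Pool.Agent.Helper13.EC.Words

set_option autoImplicit false

/-!
[EC-Face] The main construction. Let `q, q', z` have level `j < r`, `q z = q' z`.

Preparation: `e l` for `l < r`: an element of level `l` with `e l * y = y` for `ℓ y < l` (from
`Lev.surj`, `Lev.inv`). `q1 = q ^ n g`, level `j`; `t` of level `≥ j` with `q1 t y = y` for `ℓ y < j`
(`Lev.inv`). Since `q1` acts trivially on the levels `< i`, so does `t`. Replacing `z` by `z z'` we may
assume that `z` acts trivially on the levels `< j`.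

(W) The words `q ^ u q' ^ v g ^ A t ^ B` with `u + v = n A`, `A, B > 0` are all equal: theorem
`words` of the module `Words` (stub or done; use it).

(f) For a function `ε` as in the statement let `f_ε 1 = 1`, and for `y` of level `l < r`
  * `l < i` or `l > j`: `f y = e l ^ d l y`;
  * `i ≤ l < j`: `f y = e l ^ d l y * q1 ^ (Λ' y).toNat * t ^ (- Λ' y).toNat`;
  * `l = j`, `b y = 0`: `f y = q ^ (n a y - ε y) * q' ^ ε y * g ^ a y`;
  * `l = j`, `b y > 0`: `f y = q ^ (n a y) * g ^ a y * t ^ b y`.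
Multiplicativity, `ℓ y' = l' ≤ l = ℓ y` (so `ℓ (y y') = l'`):
  * `l' < l`, `l > j`: `f y` acts trivially on level `l'`; `d l' y = 0`, `Λ' y = 0`, `a y = b y = 0`,
    `ε y = 0`, so `f (y y') = f y'`.
  * `l' < i ≤ l ≤ j`: `f y` acts trivially on the levels `< i` (`q ^ u q' ^ v g ^ a` with `u + v = n a`
    acts as `q1 ^ a`, by multiplying with `z`; `q1`, `t` and `e l` act trivially).
  * `i ≤ l' < l < j`: `e l` acts trivially on level `l'`, `q1 t` too, so
    `q1 ^ α t ^ β y'` depends only on `α - β` for `ℓ y' < j`.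
  * `i ≤ l' < l = j`: `f y` acts on level `l'` as `q1 ^ a y t ^ b y`, `a y - b y = Λ' y`.
  * `l' = l`: clear except `l = j`, where (W) is used if one of `b y`, `b y'` is zero and the other
    positive (`a > 0` there).
Trivial kernel: every value at `y ≠ 1` has a factor of level `< r` with positive exponent (`d_pos`;
`a y > 0`, `n > 0`, so one of `n a y - ε y`, `ε y` is positive); in fact `ℓ (f y) = ℓ y`.
Compare `f_ε` with `f_0`: they agree off the face and `f_ε y z ^ (n a y) = f_0 y z ^ (n a y)` on it, so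
`Kap` gives `f_ε = f_0`.
-/

namespace Pool.Agent.Helper13.EC

section levels

variable {M : Type*} [CommMonoid M] {r : ℕ} {ℓ : M → ℕ} {d : ℕ → M → ℕ}

private theorem lev_one (hL : Lev r ℓ d) : ℓ (1 : M) = r := (hL.one_iff 1).2 rfl

private theorem lev_pow_le (hL : Lev r ℓ d) (x : M) (k : ℕ) : ℓ x ≤ ℓ (x ^ k) := by
  induction k with
  | zero => rw [pow_zero, lev_one hL]; exact hL.le x
  | succ k ih => rw [pow_succ, hL.mul]; exact le_min ih le_rfl

private theorem lev_pow (hL : Lev r ℓ d) (x : M) {k : ℕ} (hk : 0 < k) : ℓ (x ^ k) = ℓ x := by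
  obtain ⟨m, rfl⟩ : ∃ m, k = m + 1 := ⟨k - 1, by omega⟩
  rw [pow_succ, hL.mul]
  exact min_eq_right (lev_pow_le hL x m)

/-- Powers of an element acting trivially act trivially. -/
private theorem pow_act {x w : M} (h : x * w = w) (k : ℕ) : x ^ k * w = w := by
  induction k with
  | zero => rw [pow_zero, one_mul]
  | succ k ih => rw [pow_succ, mul_assoc, h, ih]

/-- If `x * t` fixes `w`, then `x ^ α * t ^ β * w` depends on `α - β` only. -/
private theorem cancel_act {x t w : M} (h : x * t * w = w) (α β : ℕ) :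
    x ^ α * t ^ β * w
      = x ^ ((α : ℤ) - β).toNat * t ^ (-((α : ℤ) - β)).toNat * w := by
  rcases le_total α β with hab | hab
  · obtain ⟨c, rfl⟩ : ∃ c, β = α + c := ⟨β - α, by omega⟩
    have h1 : ((α : ℤ) - ((α + c : ℕ) : ℤ)).toNat = 0 := by push_cast; omega
    have h2 : (-((α : ℤ) - ((α + c : ℕ) : ℤ))).toNat = c := by push_cast; omega
    rw [h1, h2, pow_zero, one_mul]
    have h3 : x ^ α * t ^ (α + c) * w = t ^ c * ((x * t) ^ α * w) := by
      rw [pow_add, mul_pow]; ac_rfl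
    rw [h3, pow_act h]
  · obtain ⟨c, rfl⟩ : ∃ c, α = β + c := ⟨α - β, by omega⟩
    have h1 : (((β + c : ℕ) : ℤ) - (β : ℤ)).toNat = c := by push_cast; omega
    have h2 : (-(((β + c : ℕ) : ℤ) - (β : ℤ))).toNat = 0 := by push_cast; omega
    rw [h1, h2, pow_zero, mul_one]
    have h3 : x ^ (β + c) * t ^ β * w = x ^ c * ((x * t) ^ β * w) := by
      rw [pow_add, mul_pow]; ac_rfl
    rw [h3, pow_act h]

private theorem exists_e (hL : Lev r ℓ d) :
    ∃ e : ℕ → M, ∀ l, l < r → ℓ (e l) = l ∧ ∀ y, ℓ y < l → e l * y = y := by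
  have h : ∀ l, ∃ x : M, l < r → ℓ x = l ∧ ∀ y, ℓ y < l → x * y = y := by
    intro l
    by_cases hl : l < r
    · obtain ⟨x, hx⟩ := hL.surj l hl.le
      obtain ⟨x', hx', hy⟩ := hL.inv x
      refine ⟨x * x', fun _ => ⟨?_, ?_⟩⟩
      · rw [hL.mul, hx]; rw [hx] at hx'; exact min_eq_left hx'
      · intro y hyl; exact hy y (by rw [hx]; exact hyl)
    · exact ⟨1, fun h => absurd h hl⟩
  choose e he using h
  exact ⟨e, he⟩

end levels

/-- The integer which is used on the levels other than `j`. -/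
private def lam0 {M : Type*} (ℓ : M → ℕ) (i : ℕ) (Λ' : M → ℤ) (y : M) : ℤ :=
  if ℓ y < i then 0 else Λ' y

/-- The values off the face. -/
private def offv {M : Type*} [CommMonoid M] (r : ℕ) (ℓ : M → ℕ) (d : ℕ → M → ℕ) (e : ℕ → M)
    (j i n : ℕ) (q g t : M) (a b : M → ℕ) (Λ' : M → ℤ) (y : M) : M :=
  if ℓ y = r then 1 else
  if ℓ y = j then q ^ (n * a y) * g ^ a y * t ^ b y else
    e (ℓ y) ^ d (ℓ y) y * ((q ^ n * g) ^ (lam0 ℓ i Λ' y).toNat * t ^ (-lam0 ℓ i Λ' y).toNat)

/-- The map `f_ε`. -/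
private def fv {M : Type*} [CommMonoid M] (r : ℕ) (ℓ : M → ℕ) (d : ℕ → M → ℕ) (e : ℕ → M)
    (j i n : ℕ) (q q' g t : M) (a b : M → ℕ) (Λ' : M → ℤ) (ε : M → ℕ) (y : M) : M :=
  if ℓ y = j ∧ b y = 0 then q ^ (n * a y - ε y) * q' ^ ε y * g ^ a y
  else offv r ℓ d e j i n q g t a b Λ' y

section main

variable {M : Type*} [CommMonoid M] {r : ℕ} {ℓ : M → ℕ} {d : ℕ → M → ℕ}

private theorem fv_hom (hL : Lev r ℓ d) (hAA : AA r ℓ) {j : ℕ} (hj : j < r) {q q' z : M}
    (hq : ℓ q = j) (hq' : ℓ q' = j) (hz : ℓ z = j) (hqz : q * z = q' * z)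
    (hzact : ∀ y, ℓ y < j → z * y = y) {i n : ℕ} (hij : i ≤ j)
    (hn : 0 < n) {g t : M} (hg : j < ℓ g) (hqg : ∀ y, ℓ y < i → q ^ n * g * y = y)
    (ht : j ≤ ℓ t) (hqt : ∀ y, ℓ y < j → q ^ n * g * t * y = y)
    (e : ℕ → M) (he : ∀ l, l < r → ℓ (e l) = l ∧ ∀ y, ℓ y < l → e l * y = y)
    (a b : M → ℕ) (Λ' : M → ℤ) (ha : ∀ x y, j ≤ ℓ x → j ≤ ℓ y → a (x * y) = a x + a y)
    (hb : ∀ x y, j ≤ ℓ x → j ≤ ℓ y → b (x * y) = b x + b y)
    (hab0 : ∀ x, j < ℓ x → a x = 0 ∧ b x = 0) (hapos : ∀ x, ℓ x = j → 0 < a x)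
    (hΛ : ∀ x y, i ≤ ℓ x → i ≤ ℓ y → Λ' (x * y) = Λ' x + Λ' y)
    (hΛ0 : ∀ x, j < ℓ x → Λ' x = 0) (hΛab : ∀ x, j ≤ ℓ x → Λ' x = (a x : ℤ) - b x)
    (ε : M → ℕ) (hε : ∀ x y, j ≤ ℓ x → j ≤ ℓ y → b x = 0 → b y = 0 → ε (x * y) = ε x + ε y)
    (hε0 : ∀ x, j < ℓ x → ε x = 0) (hεle : ∀ x, ℓ x = j → b x = 0 → ε x ≤ n * a x) :
    ∃ f : M →* M, NT f ∧ ∀ y, f y = fv r ℓ d e j i n q q' g t a b Λ' ε y := by
  -- `t` acts trivially on the levels `< i`
  have hti : ∀ y, ℓ y < i → t * y = y := by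
    intro y hy
    have h1 := hqt y (lt_of_lt_of_le hy hij)
    have h2 := hqg y hy
    calc t * y = t * (q ^ n * g * y) := by rw [h2]
      _ = q ^ n * g * t * y := by ac_rfl
      _ = y := h1
  -- `q` and `q'` act in the same way on the levels `< j`
  have hqq : ∀ y, ℓ y < j → ∀ k : ℕ, q' ^ k * y = q ^ k * y := by
    intro y hy k
    induction k with
    | zero => rw [pow_zero, pow_zero]
    | succ k ih =>
      calc q' ^ (k + 1) * y = q' ^ k * (q' * y) := by rw [pow_succ, mul_assoc]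
        _ = q' ^ k * (q' * (z * y)) := by rw [hzact y hy]
        _ = q' ^ k * (q' * z * y) := by rw [mul_assoc q' z y]
        _ = q' ^ k * (q * z * y) := by rw [hqz]
        _ = q' ^ k * (q * (z * y)) := by rw [mul_assoc q z y]
        _ = q' ^ k * (q * y) := by rw [hzact y hy]
        _ = q * (q' ^ k * y) := by ac_rfl
        _ = q * (q ^ k * y) := by rw [ih]
        _ = q ^ (k + 1) * y := by rw [pow_succ]; ac_rfl
  set F : M → M := fv r ℓ d e j i n q q' g t a b Λ' ε with hF
  -- the values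
  have hFr : ∀ y, ℓ y = r → F y = 1 := by
    intro y hy
    have h1 : ¬ (ℓ y = j ∧ b y = 0) := fun h => by omega
    simp only [hF, fv, offv, if_neg h1, if_pos hy]
  have hFj0 : ∀ y, ℓ y = j → b y = 0 → F y = q ^ (n * a y - ε y) * q' ^ ε y * g ^ a y := by
    intro y hy hby
    simp only [hF, fv, if_pos (And.intro hy hby)]
  have hFj1 : ∀ y, ℓ y = j → 0 < b y → F y = q ^ (n * a y) * g ^ a y * t ^ b y := by
    intro y hy hby
    have h1 : ¬ (ℓ y = j ∧ b y = 0) := fun h => by omega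
    have h2 : ¬ (ℓ y = r) := by omega
    simp only [hF, fv, offv, if_neg h1, if_neg h2, if_pos hy]
  have hFl : ∀ y, ℓ y < r → ℓ y ≠ j → F y = e (ℓ y) ^ d (ℓ y) y *
      ((q ^ n * g) ^ (lam0 ℓ i Λ' y).toNat * t ^ (-lam0 ℓ i Λ' y).toNat) := by
    intro y hy hyj
    have h1 : ¬ (ℓ y = j ∧ b y = 0) := fun h => hyj h.1
    have h2 : ¬ (ℓ y = r) := by omega
    simp only [hF, fv, offv, if_neg h1, if_neg h2, if_neg hyj]
  have hqg_lev : ℓ (q ^ n * g) = j := by
    rw [hL.mul, lev_pow hL q hn, hq]; exact min_eq_left hg.le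
  have hlam_gt : ∀ y, j < ℓ y → lam0 ℓ i Λ' y = 0 := by
    intro y hy
    simp only [lam0]
    split
    · rfl
    · exact hΛ0 y hy
  have hlam_lt : ∀ y, ℓ y < i → lam0 ℓ i Λ' y = 0 := by
    intro y hy
    simp only [lam0, if_pos hy]
  have hlam_eq : ∀ y, i ≤ ℓ y → lam0 ℓ i Λ' y = Λ' y := by
    intro y hy
    simp only [lam0, if_neg (not_lt.2 hy)]
  -- the level of a value
  have hlev : ∀ y, ℓ (F y) = ℓ y := by
    intro y
    rcases (hL.le y).eq_or_lt with hy | hy
    · rw [hFr y hy, lev_one hL, hy]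
    · by_cases hyj : ℓ y = j
      · have hap : 0 < n * a y := Nat.mul_pos hn (hapos y hyj)
        rcases Nat.eq_zero_or_pos (b y) with hby | hby
        · rw [hFj0 y hyj hby, hL.mul, hL.mul]
          have h1 : ℓ (q ^ (n * a y - ε y)) = j ∨ ℓ (q' ^ ε y) = j := by
            rcases Nat.eq_zero_or_pos (ε y) with h0 | h0
            · left; rw [lev_pow hL q (by omega), hq]
            · right; rw [lev_pow hL q' h0, hq']
          have h2 : j ≤ ℓ (q ^ (n * a y - ε y)) := by
            have := lev_pow_le hL q (n * a y - ε y); omega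
          have h3 : j ≤ ℓ (q' ^ ε y) := by
            have := lev_pow_le hL q' (ε y); omega
          have h4 : j ≤ ℓ (g ^ a y) := by
            have := lev_pow_le hL g (a y); omega
          rw [hyj]
          rcases h1 with h1 | h1
          · rw [h1, min_eq_left h3, min_eq_left h4]
          · rw [h1, min_eq_right h2, min_eq_left h4]
        · rw [hFj1 y hyj hby, hL.mul, hL.mul, lev_pow hL q hap, hq]
          have h4 : j ≤ ℓ (g ^ a y) := by
            have := lev_pow_le hL g (a y); omega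
          have h5 : j ≤ ℓ (t ^ b y) := by
            have := lev_pow_le hL t (b y); omega
          rw [min_eq_left h4, min_eq_left h5, hyj]
      · rw [hFl y hy hyj]
        have hdp : 0 < d (ℓ y) y := hL.d_pos (ℓ y) y hy rfl
        rw [hL.mul, lev_pow hL _ hdp, (he (ℓ y) hy).1]
        rcases lt_or_gt_of_ne hyj with h | h
        · apply min_eq_left
          rw [hL.mul]
          refine le_min ?_ ?_
          · have := lev_pow_le hL (q ^ n * g) (lam0 ℓ i Λ' y).toNat; omega
          · have := lev_pow_le hL t (-lam0 ℓ i Λ' y).toNat; omega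
        · rw [hlam_gt y h]
          simp only [Int.toNat_zero, neg_zero, pow_zero, mul_one]
          rw [lev_one hL]; exact min_eq_left hy.le
  -- the action of a value on the lower levels
  have hact : ∀ y, ℓ y < r → ∀ w, ℓ w < ℓ y → F y * w =
      (q ^ n * g) ^ (lam0 ℓ i Λ' y).toNat * t ^ (-lam0 ℓ i Λ' y).toNat * w := by
    intro y hy w hw
    by_cases hyj : ℓ y = j
    · have hwj : ℓ w < j := by omega
      have h1 : F y * w = (q ^ n * g) ^ a y * t ^ b y * w := by
        rcases Nat.eq_zero_or_pos (b y) with hby | hby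
        · rw [hFj0 y hyj hby, hby, pow_zero, mul_one]
          have hle := hεle y hyj hby
          calc q ^ (n * a y - ε y) * q' ^ ε y * g ^ a y * w
              = q ^ (n * a y - ε y) * g ^ a y * (q' ^ ε y * w) := by ac_rfl
            _ = q ^ (n * a y - ε y) * g ^ a y * (q ^ ε y * w) := by rw [hqq w hwj]
            _ = q ^ (n * a y - ε y) * q ^ ε y * g ^ a y * w := by ac_rfl
            _ = (q ^ n * g) ^ a y * w := by
                rw [← pow_add, Nat.sub_add_cancel hle, mul_pow, ← pow_mul]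
        · rw [hFj1 y hyj hby, mul_pow, ← pow_mul]
      rw [h1, cancel_act (hqt w hwj) (a y) (b y), hlam_eq y (by omega), hΛab y (by omega)]
    · rw [hFl y hy hyj]
      have h1 : e (ℓ y) ^ d (ℓ y) y * w = w := pow_act ((he (ℓ y) hy).2 w hw) _
      calc e (ℓ y) ^ d (ℓ y) y *
          ((q ^ n * g) ^ (lam0 ℓ i Λ' y).toNat * t ^ (-lam0 ℓ i Λ' y).toNat) * w
          = (q ^ n * g) ^ (lam0 ℓ i Λ' y).toNat * t ^ (-lam0 ℓ i Λ' y).toNat *
            (e (ℓ y) ^ d (ℓ y) y * w) := by ac_rfl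
        _ = _ := by rw [h1]
  -- merging the exponents on the levels `< j`
  have hmerge : ∀ w, ℓ w < j → ∀ s s' : ℤ,
      (q ^ n * g) ^ s.toNat * t ^ (-s).toNat * ((q ^ n * g) ^ s'.toNat * t ^ (-s').toNat * w)
        = (q ^ n * g) ^ (s + s').toNat * t ^ (-(s + s')).toNat * w := by
    intro w hw s s'
    have h1 : (q ^ n * g) ^ s.toNat * t ^ (-s).toNat *
        ((q ^ n * g) ^ s'.toNat * t ^ (-s').toNat * w)
        = (q ^ n * g) ^ (s.toNat + s'.toNat) * t ^ ((-s).toNat + (-s').toNat) * w := by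
      rw [pow_add, pow_add]; ac_rfl
    rw [h1, cancel_act (hqt w hw)]
    have h2 : (((s.toNat + s'.toNat : ℕ) : ℤ) - (((-s).toNat + (-s').toNat : ℕ) : ℤ)) = s + s' := by
      push_cast; omega
    rw [h2]
  -- multiplicativity, lower level second
  have hmul1 : ∀ y y' : M, ℓ y' < ℓ y → F (y * y') = F y * F y' := by
    intro y y' hlt
    rcases (hL.le y).eq_or_lt with hy | hy
    · have h1 : y = 1 := (hL.one_iff y).1 hy
      rw [hFr y hy, one_mul, h1, one_mul]
    have hlt' : ℓ y' < r := lt_of_lt_of_le hlt (hL.le y)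
    have hlevm : ℓ (y * y') = ℓ y' := by rw [hL.mul]; exact min_eq_right hlt.le
    have hdm : d (ℓ y') (y * y') = d (ℓ y') y' := by
      rw [hL.d_mul (ℓ y') y y' hlt.le le_rfl, hL.d_zero (ℓ y') y hlt, zero_add]
    rw [hact y hy (F y') (by rw [hlev]; exact hlt)]
    by_cases hy'j : ℓ y' = j
    · -- level `j`, `y` above
      have hyj : j < ℓ y := by omega
      rw [hlam_gt y hyj]
      simp only [Int.toNat_zero, neg_zero, pow_zero, one_mul]
      have h1 := hab0 y hyj
      have h2 : a (y * y') = a y' := by rw [ha y y' hyj.le (by omega), h1.1, zero_add]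
      have h3 : b (y * y') = b y' := by rw [hb y y' hyj.le (by omega), h1.2, zero_add]
      rcases Nat.eq_zero_or_pos (b y') with hby | hby
      · rw [hFj0 (y * y') (by omega) (by omega), hFj0 y' hy'j hby, h2,
          hε y y' hyj.le (by omega) h1.2 hby, hε0 y hyj, zero_add]
      · rw [hFj1 (y * y') (by omega) (by omega), hFj1 y' hy'j hby, h2, h3]
    · rw [hFl (y * y') (by omega) (by omega), hFl y' hlt' hy'j, hlevm, hdm]
      rcases lt_or_gt_of_ne hy'j with h | h
      · -- level below `j`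
        by_cases hi : ℓ y' < i
        · rw [hlam_lt (y * y') (by omega), hlam_lt y' hi]
          simp only [Int.toNat_zero, neg_zero, pow_zero, mul_one]
          have hw : ℓ (e (ℓ y') ^ d (ℓ y') y') < i := by
            rw [lev_pow hL _ (hL.d_pos (ℓ y') y' hlt' rfl), (he (ℓ y') hlt').1]; exact hi
          rw [mul_assoc, pow_act (hti _ hw), pow_act (hqg _ hw)]
        · have hw : ℓ (e (ℓ y') ^ d (ℓ y') y') < j := by
            rw [lev_pow hL _ (hL.d_pos (ℓ y') y' hlt' rfl), (he (ℓ y') hlt').1]; exact h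
          have hsum : lam0 ℓ i Λ' (y * y') = lam0 ℓ i Λ' y + lam0 ℓ i Λ' y' := by
            rw [hlam_eq (y * y') (by omega), hlam_eq y (by omega), hlam_eq y' (by omega),
              hΛ y y' (by omega) (by omega)]
          rw [hsum, mul_comm (e (ℓ y') ^ d (ℓ y') y') _, mul_comm (e (ℓ y') ^ d (ℓ y') y') _,
            hmerge _ hw]
      · -- level above `j`
        rw [hlam_gt (y * y') (by omega), hlam_gt y' (by omega), hlam_gt y (by omega)]
        simp only [Int.toNat_zero, neg_zero, pow_zero, mul_one, one_mul]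
  -- multiplicativity, equal levels
  have hmul2 : ∀ y y' : M, ℓ y' = ℓ y → F (y * y') = F y * F y' := by
    intro y y' heq
    rcases (hL.le y).eq_or_lt with hy | hy
    · have h1 : y = 1 := (hL.one_iff y).1 hy
      rw [hFr y hy, one_mul, h1, one_mul]
    have hlevm : ℓ (y * y') = ℓ y := by rw [hL.mul, heq, min_self]
    by_cases hyj : ℓ y = j
    · have hy'j : ℓ y' = j := by omega
      have h2 : a (y * y') = a y + a y' := ha y y' (by omega) (by omega)
      have h3 : b (y * y') = b y + b y' := hb y y' (by omega) (by omega)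
      have hay := hapos y hyj
      have hay' := hapos y' hy'j
      rcases Nat.eq_zero_or_pos (b y) with hby | hby <;>
        rcases Nat.eq_zero_or_pos (b y') with hby' | hby'
      · rw [hFj0 (y * y') (by omega) (by omega), hFj0 y hyj hby, hFj0 y' hy'j hby', h2,
          hε y y' (by omega) (by omega) hby hby']
        have hle := hεle y hyj hby
        have hle' := hεle y' hy'j hby'
        have h4 : n * (a y + a y') - (ε y + ε y') = (n * a y - ε y) + (n * a y' - ε y') := by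
          rw [Nat.mul_add]; omega
        rw [h4, pow_add, pow_add, pow_add]; ac_rfl
      · rw [hFj1 (y * y') (by omega) (by omega), hFj0 y hyj hby, hFj1 y' hy'j hby', h2, h3, hby,
          zero_add]
        have hle := hεle y hyj hby
        have hw := words hL hAA hj hq hq' hz hqz hn hg ht hqt
          (n * a y - ε y + n * a y') (ε y) (a y + a y') (b y') (by omega) hby'
          (by rw [Nat.mul_add]; omega)
        rw [← hw, pow_add, pow_add]; ac_rfl
      · rw [hFj1 (y * y') (by omega) (by omega), hFj1 y hyj hby, hFj0 y' hy'j hby', h2, h3, hby',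
          add_zero]
        have hle := hεle y' hy'j hby'
        have hw := words hL hAA hj hq hq' hz hqz hn hg ht hqt
          (n * a y + (n * a y' - ε y')) (ε y') (a y + a y') (b y) (by omega) hby
          (by rw [Nat.mul_add]; omega)
        rw [← hw, pow_add, pow_add]; ac_rfl
      · rw [hFj1 (y * y') (by omega) (by omega), hFj1 y hyj hby, hFj1 y' hy'j hby', h2, h3,
          Nat.mul_add, pow_add, pow_add, pow_add]
        ac_rfl
    · have hdm : d (ℓ y) (y * y') = d (ℓ y) y + d (ℓ y) y' :=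
        hL.d_mul (ℓ y) y y' le_rfl heq.ge
      rw [hFl (y * y') (by omega) (by omega), hFl y hy hyj, hFl y' (by omega) (by omega), hlevm,
        heq, hdm]
      rcases lt_or_gt_of_ne hyj with h | h
      · by_cases hi : ℓ y < i
        · rw [hlam_lt (y * y') (by omega), hlam_lt y' (by omega), hlam_lt y hi]
          simp only [Int.toNat_zero, neg_zero, pow_zero, mul_one]
          rw [pow_add]
        · have hdp : 0 < d (ℓ y) y + d (ℓ y) y' := by
            have := hL.d_pos (ℓ y) y hy rfl; omega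
          have hw : ℓ (e (ℓ y) ^ (d (ℓ y) y + d (ℓ y) y')) < j := by
            rw [lev_pow hL _ hdp, (he (ℓ y) hy).1]; exact h
          have hsum : lam0 ℓ i Λ' (y * y') = lam0 ℓ i Λ' y + lam0 ℓ i Λ' y' := by
            rw [hlam_eq (y * y') (by omega), hlam_eq y (by omega), hlam_eq y' (by omega),
              hΛ y y' (by omega) (by omega)]
          rw [hsum, mul_comm (e (ℓ y) ^ (d (ℓ y) y + d (ℓ y) y')) _, ← hmerge _ hw, pow_add]
          ac_rfl
      · rw [hlam_gt (y * y') (by omega), hlam_gt y' (by omega), hlam_gt y (by omega)]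
        simp only [Int.toNat_zero, neg_zero, pow_zero, mul_one]
        rw [pow_add]
  refine ⟨⟨⟨F, hFr 1 (lev_one hL)⟩, ?_⟩, ?_, fun y => rfl⟩
  · intro x y
    show F (x * y) = F x * F y
    rcases lt_trichotomy (ℓ x) (ℓ y) with h | h | h
    · rw [mul_comm x y, hmul1 y x h, mul_comm]
    · exact hmul2 x y h.symm
    · exact hmul1 x y h
  · intro x hx
    have h1 : F x = 1 := hx
    have h2 := hlev x
    rw [h1, lev_one hL] at h2
    exact (hL.one_iff x).1 h2.symm

end main

theorem face {M : Type*} [CommMonoid M] (hred : Red M) {r : ℕ} {ℓ : M → ℕ} {d : ℕ → M → ℕ}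
    (hL : Lev r ℓ d) (hK : Kap ℓ) (hAA : AA r ℓ) {j : ℕ} (hj : j < r) {q q' z : M}
    (hq : ℓ q = j) (hq' : ℓ q' = j) (hz : ℓ z = j) (hqz : q * z = q' * z) {i n : ℕ} (hij : i ≤ j)
    (hn : 0 < n) {g : M} (hg : j < ℓ g) (hqg : ∀ y, ℓ y < i → q ^ n * g * y = y)
    (a b : M → ℕ) (Λ' : M → ℤ) (ha : ∀ x y, j ≤ ℓ x → j ≤ ℓ y → a (x * y) = a x + a y)
    (hb : ∀ x y, j ≤ ℓ x → j ≤ ℓ y → b (x * y) = b x + b y)
    (hab0 : ∀ x, j < ℓ x → a x = 0 ∧ b x = 0) (hapos : ∀ x, ℓ x = j → 0 < a x)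
    (hΛ : ∀ x y, i ≤ ℓ x → i ≤ ℓ y → Λ' (x * y) = Λ' x + Λ' y)
    (hΛ0 : ∀ x, j < ℓ x → Λ' x = 0) (hΛab : ∀ x, j ≤ ℓ x → Λ' x = (a x : ℤ) - b x)
    (ε : M → ℕ) (hε : ∀ x y, j ≤ ℓ x → j ≤ ℓ y → b x = 0 → b y = 0 → ε (x * y) = ε x + ε y)
    (hε0 : ∀ x, j < ℓ x → ε x = 0) (hεle : ∀ x, ℓ x = j → b x = 0 → ε x ≤ n * a x) (y : M)
    (hy : ℓ y = j) (hby : b y = 0) :
    q ^ (n * a y - ε y) * q' ^ ε y * g ^ a y = q ^ (n * a y) * g ^ a y := by
  obtain ⟨e, he⟩ := exists_e hL
  obtain ⟨t, ht0, hqt⟩ := hL.inv (q ^ n * g)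
  have hlev1 : ℓ (q ^ n * g) = j := by
    rw [hL.mul, lev_pow hL q hn, hq]; exact min_eq_left hg.le
  rw [hlev1] at ht0 hqt
  obtain ⟨z', hz', hzz⟩ := hL.inv z
  rw [hz] at hz' hzz
  have hz2 : ℓ (z * z') = j := by rw [hL.mul, hz]; exact min_eq_left hz'
  have hqz2 : q * (z * z') = q' * (z * z') := by rw [← mul_assoc, ← mul_assoc, hqz]
  obtain ⟨f, hfN, hf⟩ := fv_hom hL hAA hj hq hq' hz2 hqz2 hzz hij hn hg hqg ht0 hqt e he a b Λ'
    ha hb hab0 hapos hΛ hΛ0 hΛab ε hε hε0 hεle
  obtain ⟨f0, hf0N, hf0⟩ := fv_hom hL hAA hj hq hq' hz2 hqz2 hzz hij hn hg hqg ht0 hqt e he a b Λ'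
    ha hb hab0 hapos hΛ hΛ0 hΛab (fun _ => 0) (fun _ _ _ _ _ _ => rfl) (fun _ _ => rfl)
    (fun _ _ _ => Nat.zero_le _)
  have hpow : ∀ k : ℕ, q' ^ k * z = q ^ k * z := by
    intro k
    induction k with
    | zero => rw [pow_zero, pow_zero]
    | succ k ih =>
      calc q' ^ (k + 1) * z = q' * (q' ^ k * z) := by rw [pow_succ]; ac_rfl
        _ = q' * (q ^ k * z) := by rw [ih]
        _ = q ^ k * (q' * z) := by ac_rfl
        _ = q ^ k * (q * z) := by rw [hqz]
        _ = q ^ (k + 1) * z := by rw [pow_succ]; ac_rfl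
  have hall := hK f f0 hfN hf0N (by
    intro x
    by_cases hx : ℓ x = j ∧ b x = 0
    · refine ⟨z, by rw [hz, hx.1], ?_⟩
      rw [hf, hf0]
      simp only [fv, if_pos hx, Nat.sub_zero, pow_zero, mul_one]
      have hle := hεle x hx.1 hx.2
      calc q ^ (n * a x - ε x) * q' ^ ε x * g ^ a x * z
          = q ^ (n * a x - ε x) * g ^ a x * (q' ^ ε x * z) := by ac_rfl
        _ = q ^ (n * a x - ε x) * g ^ a x * (q ^ ε x * z) := by rw [hpow]
        _ = q ^ (n * a x - ε x) * q ^ ε x * g ^ a x * z := by ac_rfl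
        _ = q ^ (n * a x) * g ^ a x * z := by rw [← pow_add, Nat.sub_add_cancel hle]
    · refine ⟨x, rfl, ?_⟩
      rw [hf, hf0]
      simp only [fv, if_neg hx]) y
  rw [hf, hf0] at hall
  simpa only [fv, if_pos (And.intro hy hby), Nat.sub_zero, pow_zero, mul_one] using hall

end Pool.Agent.Helper13.EC
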