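import Pool.Agent.Helper13.EC.Defs

set_option autoImplicit false

namespace Pool.Agent.Helper13.EC

/-- Equivalent elements of a level have, after multiplication with an inverse of one of them, equal
large powers. -/
def AG {M : Type*} [CommMonoid M] (r : ℕ) (ℓ : M → ℕ) : Prop :=
  ∀ j, j < r → ∀ q q' z t : M, ℓ q = j → ℓ q' = j → ℓ z = j → j ≤ ℓ t → q * z = q' * z →
    (∀ y, ℓ y < j → q * t * y = y) → ∃ N, ∀ m, N ≤ m → (q * t) ^ m = (q' * t) ^ m

end Pool.Agent.Helper13.EC
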