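import Mathlib

set_option autoImplicit false

/-!
[EC-GWords] Exchanging letters. With `T = q ^ (n-1) g t` the hypothesis is
`(q' T) ^ m = (q T) ^ m` for `m ≥ m₀`, i.e. `q' ^ m T ^ m = q ^ m T ^ m`: if a word contains `T ^ m`
then `m` letters `q'` can be replaced by `q`. Strong induction on `v`: `v = 0` clear;
`m₀ ≤ v < 2 m₀`: replace all `v` letters (the word contains `T ^ v`, because `(n-1) v ≤ u`,
`v ≤ A`, `v ≤ B`); `v ≥ 2 m₀`: replace `m₀` letters, then use the induction hypothesis for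
`u + m₀`, `v - m₀ ≥ m₀`.
-/

namespace Pool.Agent.Helper13.EC

theorem gwords_replace {M : Type*} [CommMonoid M] {q q' g t : M} {n m₀ : ℕ}
    (h : ∀ m, m₀ ≤ m → (q' * (q ^ (n - 1) * g * t)) ^ m = (q * (q ^ (n - 1) * g * t)) ^ m)
    (m : ℕ) (hm : m₀ ≤ m) (u A B : ℕ) (hu : (n - 1) * m ≤ u) (hA : m ≤ A) (hB : m ≤ B) :
    q ^ u * q' ^ m * g ^ A * t ^ B = q ^ (u + m) * g ^ A * t ^ B := by
  obtain ⟨u', rfl⟩ := Nat.exists_eq_add_of_le hu
  obtain ⟨A', rfl⟩ := Nat.exists_eq_add_of_le hA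
  obtain ⟨B', rfl⟩ := Nat.exists_eq_add_of_le hB
  have h1 := h m hm
  simp only [mul_pow, ← pow_mul] at h1
  calc q ^ ((n - 1) * m + u') * q' ^ m * g ^ (m + A') * t ^ (m + B')
      = (q' ^ m * (q ^ ((n - 1) * m) * g ^ m * t ^ m)) * (q ^ u' * g ^ A' * t ^ B') := by
        simp only [pow_add]
        ac_rfl
    _ = (q ^ m * (q ^ ((n - 1) * m) * g ^ m * t ^ m)) * (q ^ u' * g ^ A' * t ^ B') := by
        rw [h1]
    _ = q ^ ((n - 1) * m + u' + m) * g ^ (m + A') * t ^ (m + B') := by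
        simp only [pow_add]
        ac_rfl

theorem gwords {M : Type*} [CommMonoid M] {q q' g t : M} {n m₀ : ℕ} (hn : 0 < n) (hm : 0 < m₀)
    (h : ∀ m, m₀ ≤ m → (q' * (q ^ (n - 1) * g * t)) ^ m = (q * (q ^ (n - 1) * g * t)) ^ m)
    (u v A B : ℕ) (hv : v = 0 ∨ m₀ ≤ v) (hu : 2 * n * m₀ ≤ u) (hA : 2 * m₀ ≤ A)
    (hB : 2 * m₀ ≤ B) :
    q ^ u * q' ^ v * g ^ A * t ^ B = q ^ (u + v) * g ^ A * t ^ B := by
  induction v using Nat.strong_induction_on generalizing u with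
  | _ v ih =>
    rcases hv with rfl | hv
    · simp
    · by_cases h2 : v < 2 * m₀
      · refine gwords_replace h v hv u A B ?_ (by omega) (by omega)
        calc (n - 1) * v ≤ n * (2 * m₀) := Nat.mul_le_mul (Nat.sub_le n 1) h2.le
          _ = 2 * n * m₀ := by ring
          _ ≤ u := hu
      · obtain ⟨w, rfl⟩ := Nat.exists_eq_add_of_le hv
        have h3 : m₀ ≤ w := by omega
        have h4 : (n - 1) * m₀ ≤ u := by
          calc (n - 1) * m₀ ≤ n * (2 * m₀) := Nat.mul_le_mul (Nat.sub_le n 1) (by omega)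
            _ = 2 * n * m₀ := by ring
            _ ≤ u := hu
        have h5 := gwords_replace h m₀ le_rfl u A B h4 (by omega) (by omega)
        have h6 := ih w (by omega) (u + m₀) (Or.inr h3) (by omega)
        calc q ^ u * q' ^ (m₀ + w) * g ^ A * t ^ B
            = (q ^ u * q' ^ m₀ * g ^ A * t ^ B) * q' ^ w := by
              rw [pow_add]
              ac_rfl
          _ = (q ^ (u + m₀) * g ^ A * t ^ B) * q' ^ w := by rw [h5]
          _ = q ^ (u + m₀) * q' ^ w * g ^ A * t ^ B := by ac_rfl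
          _ = q ^ (u + m₀ + w) * g ^ A * t ^ B := h6
          _ = q ^ (u + (m₀ + w)) * g ^ A * t ^ B := by rw [Nat.add_assoc]

end Pool.Agent.Helper13.EC
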