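import Pool.Agent.Helper13.EC.GDefs
import Pool.Agent.Helper13.EC.GWords

set_option autoImplicit false

/-!
[EC-GFace] The main construction (general version). `q, q', z` have level `j < r`, `q z = q' z`.

Preparation: `e l` for `l < r`: an element of level `l` with `e l * y = y` for `ℓ y < l` (from
`Lev.surj`, `Lev.inv`). `q1 = q ^ n g`, level `j`; `t` of level `≥ j` with `q1 t y = y` for `ℓ y < j`
(`Lev.inv`). Since `q1` acts trivially on the levels `< i`, so does `t`. Replacing `z` by `z z'` we may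
assume that `z` acts trivially on the levels `< j`; so `q y = q z y = q' z y = q' y` for `ℓ y < j`.
`T = q ^ (n-1) g t` has level `≥ j`, `q T = q1 t`; `hAG` gives `(q T) ^ m = (q' T) ^ m` for `m ≥ m₀`,
`m₀ > 0`. This is the `m₀` of the statement; `gwords` applies.

For `a, b, Λ', ε` as in the statement let `f_ε 1 = 1`, and for `y` of level `l < r`
  * `l < i` or `l > j`: `f y = e l ^ d l y`;
  * `i ≤ l < j`: `f y = e l ^ d l y * q1 ^ (Λ' y).toNat * t ^ (- Λ' y).toNat`;
  * `l = j`, `b y = 0`: `f y = q ^ (n a y - ε y) * q' ^ ε y * g ^ a y`;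
  * `l = j`, `b y > 0`: `f y = q ^ (n a y) * g ^ a y * t ^ b y`.
-/

namespace Pool.Agent.Helper13.EC

theorem gface_pow_act {M : Type*} [CommMonoid M] {x w : M} (h : x * w = w) (k : ℕ) :
    x ^ k * w = w := by
  induction k with
  | zero => simp
  | succ k ih => rw [pow_succ, mul_assoc, h, ih]

theorem gface_shift {M : Type*} [CommMonoid M] {q1 t w : M} (h : q1 * t * w = w)
    {α β α2 β2 : ℕ} (hab : α + β2 = α2 + β) :
    q1 ^ α * t ^ β * w = q1 ^ α2 * t ^ β2 * w := by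
  have key : ∀ α β k : ℕ, q1 ^ α * t ^ β * w = q1 ^ (α + k) * t ^ (β + k) * w := by
    intro α β k
    calc q1 ^ α * t ^ β * w = q1 ^ α * t ^ β * ((q1 * t) ^ k * w) := by rw [gface_pow_act h]
      _ = q1 ^ (α + k) * t ^ (β + k) * w := by
        rw [mul_pow, pow_add, pow_add]
        ac_rfl
  rcases Nat.le_total α α2 with h1 | h1
  · have h2 : α2 = α + (α2 - α) := by omega
    have h3 : β2 = β + (α2 - α) := by omega
    rw [h3, h2, Nat.add_sub_cancel_left]
    exact key _ _ _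
  · have h2 : α = α2 + (α - α2) := by omega
    have h3 : β = β2 + (α - α2) := by omega
    rw [h3, h2, Nat.add_sub_cancel_left]
    exact (key _ _ _).symm

theorem gface_lev_pow {M : Type*} [CommMonoid M] {r : ℕ} {ℓ : M → ℕ} {d : ℕ → M → ℕ}
    (hL : Lev r ℓ d) (x : M) (k : ℕ) : ℓ x ≤ ℓ (x ^ k) := by
  induction k with
  | zero =>
    rw [pow_zero, (hL.one_iff 1).2 rfl]
    exact hL.le x
  | succ k ih =>
    rw [pow_succ, hL.mul]
    exact le_min ih le_rfl

theorem gface_lev_pow_pos {M : Type*} [CommMonoid M] {r : ℕ} {ℓ : M → ℕ} {d : ℕ → M → ℕ}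
    (hL : Lev r ℓ d) (x : M) {k : ℕ} (hk : 0 < k) : ℓ (x ^ k) = ℓ x := by
  obtain ⟨m, rfl⟩ : ∃ m, k = m + 1 := ⟨k - 1, by omega⟩
  rw [pow_succ, hL.mul]
  exact min_eq_right (gface_lev_pow hL x m)

/-- The homomorphism of the construction; the mixing identity is a hypothesis. -/
theorem gface_hom {M : Type*} [CommMonoid M] {r : ℕ} {ℓ : M → ℕ} {d : ℕ → M → ℕ}
    (hL : Lev r ℓ d) {j i n : ℕ} (hj : j < r) (hij : i ≤ j) (hn : 0 < n)
    {q q' g t : M} {e : ℕ → M}
    (he : ∀ l, l ≤ r → ℓ (e l) = l ∧ ∀ y, ℓ y < l → e l * y = y)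
    (hq : ℓ q = j) (hq' : ℓ q' = j) (hg : j < ℓ g) (ht : j ≤ ℓ t)
    (hqq : ∀ y, ℓ y < j → q * y = q' * y)
    (hqt : ∀ y, ℓ y < j → q ^ n * g * t * y = y)
    (hqg : ∀ y, ℓ y < i → q ^ n * g * y = y)
    (a b : M → ℕ) (Λ' : M → ℤ) (ε : M → ℕ)
    (ha : ∀ x y, j ≤ ℓ x → j ≤ ℓ y → a (x * y) = a x + a y)
    (hb : ∀ x y, j ≤ ℓ x → j ≤ ℓ y → b (x * y) = b x + b y)
    (hab0 : ∀ x, j < ℓ x → a x = 0 ∧ b x = 0) (hapos : ∀ x, ℓ x = j → 0 < a x)
    (hΛ : ∀ x y, i ≤ ℓ x → i ≤ ℓ y → Λ' (x * y) = Λ' x + Λ' y)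
    (hΛ0 : ∀ x, j < ℓ x → Λ' x = 0) (hΛab : ∀ x, j ≤ ℓ x → Λ' x = (a x : ℤ) - b x)
    (hε : ∀ x y, j ≤ ℓ x → j ≤ ℓ y → b x = 0 → b y = 0 → ε (x * y) = ε x + ε y)
    (hε0 : ∀ x, j < ℓ x → ε x = 0) (hεle : ∀ x, ℓ x = j → b x = 0 → ε x ≤ n * a x)
    (hmix : ∀ x y, ℓ x = j → ℓ y = j → b x = 0 → b y ≠ 0 →
      q ^ (n * a x - ε x) * q' ^ ε x * g ^ a x * (q ^ (n * a y) * g ^ a y * t ^ b y) =
        q ^ (n * a (x * y)) * g ^ a (x * y) * t ^ b (x * y)) :
    ∃ f : M →* M, (∀ y, ℓ (f y) = ℓ y) ∧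
      (∀ y, ℓ y = j → b y = 0 → f y = q ^ (n * a y - ε y) * q' ^ ε y * g ^ a y) ∧
      (∀ y, ℓ y = j → b y ≠ 0 → f y = q ^ (n * a y) * g ^ a y * t ^ b y) ∧
      (∀ y, ℓ y ≠ j → f y = e (ℓ y) ^ d (ℓ y) y *
        (if i ≤ ℓ y ∧ ℓ y < j then (q ^ n * g) ^ (Λ' y).toNat * t ^ (-Λ' y).toNat else 1)) := by
  classical
  have hone : ℓ (1 : M) = r := (hL.one_iff 1).2 rfl
  -- action of powers of `q'`
  have hqp : ∀ (v : ℕ) (y : M), ℓ y < j → q' ^ v * y = q ^ v * y := by
    intro v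
    induction v with
    | zero => intro y _; simp
    | succ v ih =>
      intro y hy
      have h1 : ℓ (q' * y) < j := by
        rw [hL.mul, hq']
        exact lt_of_le_of_lt (min_le_right _ _) hy
      rw [pow_succ, mul_assoc, ih _ h1, ← hqq y hy, pow_succ, mul_assoc]
  -- the exponent part
  set G : M → M := fun y => (q ^ n * g) ^ (Λ' y).toNat * t ^ (-Λ' y).toNat with hG
  set F : M → M := fun y =>
    if ℓ y = j then
      (if b y = 0 then q ^ (n * a y - ε y) * q' ^ ε y * g ^ a y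
        else q ^ (n * a y) * g ^ a y * t ^ b y)
    else e (ℓ y) ^ d (ℓ y) y * (if i ≤ ℓ y ∧ ℓ y < j then G y else 1) with hF
  have hF1 : ∀ y, ℓ y = j → b y = 0 → F y = q ^ (n * a y - ε y) * q' ^ ε y * g ^ a y := by
    intro y h1 h2
    simp only [hF, if_pos h1, if_pos h2]
  have hF2 : ∀ y, ℓ y = j → b y ≠ 0 → F y = q ^ (n * a y) * g ^ a y * t ^ b y := by
    intro y h1 h2
    simp only [hF, if_pos h1, if_neg h2]
  have hF3 : ∀ y, i ≤ ℓ y → ℓ y < j → F y = e (ℓ y) ^ d (ℓ y) y * G y := by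
    intro y h1 h2
    simp only [hF, if_neg h2.ne, if_pos (And.intro h1 h2)]
  have hF4 : ∀ y, (ℓ y < i ∨ j < ℓ y) → F y = e (ℓ y) ^ d (ℓ y) y := by
    intro y h1
    have h2 : ℓ y ≠ j := by omega
    have h3 : ¬ (i ≤ ℓ y ∧ ℓ y < j) := by omega
    simp only [hF, if_neg h2, if_neg h3, mul_one]
  -- levels of the values
  have hlev1 : ℓ (q ^ n * g) = j := by
    rw [hL.mul, gface_lev_pow_pos hL q hn, hq]
    exact min_eq_left hg.le
  have hlevG : ∀ y, j ≤ ℓ (G y) := by
    intro y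
    simp only [hG]
    rw [hL.mul]
    refine le_min ?_ ?_
    · have := gface_lev_pow hL (q ^ n * g) (Λ' y).toNat
      omega
    · have := gface_lev_pow hL t (-Λ' y).toNat
      omega
  have hlevE : ∀ y, ℓ (e (ℓ y) ^ d (ℓ y) y) = ℓ y := by
    intro y
    rcases (hL.le y).lt_or_eq with h | h
    · rw [gface_lev_pow_pos hL _ (hL.d_pos (ℓ y) y h rfl), (he (ℓ y) h.le).1]
    · have h1 : e (ℓ y) = 1 := by
        rw [h]
        exact (hL.one_iff _).1 (he r le_rfl).1
      rw [h1, one_pow, hone, h]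
  have hlev : ∀ y, ℓ (F y) = ℓ y := by
    intro y
    rcases lt_trichotomy (ℓ y) j with h | h | h
    · by_cases hi : i ≤ ℓ y
      · rw [hF3 y hi h, hL.mul, hlevE]
        have := hlevG y
        exact min_eq_left (by omega)
      · rw [hF4 y (Or.inl (by omega)), hlevE]
    · have hgp : j ≤ ℓ (g ^ a y) := hg.le.trans (gface_lev_pow hL g _)
      have h2 : ∀ k, j ≤ ℓ (q ^ k) := fun k => hq ▸ gface_lev_pow hL q k
      have h3 : ∀ k, j ≤ ℓ (q' ^ k) := fun k => hq' ▸ gface_lev_pow hL q' k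
      have hpos : 0 < n * a y := Nat.mul_pos hn (hapos y h)
      by_cases hby : b y = 0
      · rw [hF1 y h hby, hL.mul, hL.mul, h]
        have h4 : min (ℓ (q ^ (n * a y - ε y))) (ℓ (q' ^ ε y)) = j := by
          rcases Nat.eq_zero_or_pos (ε y) with h5 | h5
          · have h6 : 0 < n * a y - ε y := by omega
            have h7 := h3 (ε y)
            rw [gface_lev_pow_pos hL q h6, hq]
            exact min_eq_left h7
          · have h7 := h2 (n * a y - ε y)
            rw [gface_lev_pow_pos hL q' h5, hq']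
            exact min_eq_right h7
        rw [h4]
        exact min_eq_left hgp
      · have htp : j ≤ ℓ (t ^ b y) := ht.trans (gface_lev_pow hL t _)
        rw [hF2 y h hby, hL.mul, hL.mul, h, gface_lev_pow_pos hL q hpos, hq]
        rw [min_eq_left hgp, min_eq_left htp]
    · rw [hF4 y (Or.inr h), hlevE]
  -- actions of `G`
  have hGact : ∀ y y' w, ℓ w < j → i ≤ ℓ y → i ≤ ℓ y' → G y * (G y' * w) = G (y * y') * w := by
    intro y y' w hw h1 h2
    have h3 := hΛ y y' h1 h2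
    have h4 : q ^ n * g * t * w = w := hqt w hw
    simp only [hG]
    rw [h3]
    calc (q ^ n * g) ^ (Λ' y).toNat * t ^ (-Λ' y).toNat *
          ((q ^ n * g) ^ (Λ' y').toNat * t ^ (-Λ' y').toNat * w)
        = (q ^ n * g) ^ ((Λ' y).toNat + (Λ' y').toNat) *
            t ^ ((-Λ' y).toNat + (-Λ' y').toNat) * w := by
          rw [pow_add, pow_add]
          ac_rfl
      _ = _ := gface_shift h4 (by omega)
  have htact : ∀ w, ℓ w < i → t * w = w := by
    intro w hw
    have h1 := hqg w hw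
    have h2 := hqt w (lt_of_lt_of_le hw hij)
    calc t * w = t * (q ^ n * g * w) := by rw [h1]
      _ = q ^ n * g * t * w := by ac_rfl
      _ = w := h2
  have hGact0 : ∀ y w, ℓ w < i → G y * w = w := by
    intro y w hw
    simp only [hG]
    rw [mul_assoc, gface_pow_act (htact w hw), gface_pow_act (hqg w hw)]
  have hG1 : ∀ y, j < ℓ y → G y = 1 := by
    intro y hy
    simp only [hG]
    rw [hΛ0 y hy]
    simp
  -- action of `F y` for `ℓ y = j` on lower levels
  have hact_j : ∀ y w, ℓ y = j → ℓ w < j → F y * w = G y * w := by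
    intro y w hy hw
    have h4 : q ^ n * g * t * w = w := hqt w hw
    have hab := hΛab y hy.ge
    by_cases hby : b y = 0
    · have hle := hεle y hy hby
      have hgw : ℓ (g ^ a y * w) < j := by
        rw [hL.mul]
        exact lt_of_le_of_lt (min_le_right _ _) hw
      rw [hF1 y hy hby]
      simp only [hG]
      calc q ^ (n * a y - ε y) * q' ^ ε y * g ^ a y * w
          = q ^ (n * a y - ε y) * (q' ^ ε y * (g ^ a y * w)) := by ac_rfl
        _ = q ^ (n * a y - ε y) * (q ^ ε y * (g ^ a y * w)) := by rw [hqp _ _ hgw]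
        _ = (q ^ (n * a y - ε y) * q ^ ε y) * g ^ a y * w := by ac_rfl
        _ = (q ^ n * g) ^ a y * t ^ 0 * w := by
          rw [← pow_add, Nat.sub_add_cancel hle, pow_mul, ← mul_pow, pow_zero, mul_one]
        _ = _ := gface_shift h4 (by omega)
    · rw [hF2 y hy hby]
      simp only [hG]
      calc q ^ (n * a y) * g ^ a y * t ^ b y * w
          = (q ^ n * g) ^ a y * t ^ b y * w := by rw [pow_mul, ← mul_pow]
        _ = _ := gface_shift h4 (by omega)
  have hact_E : ∀ y w, ℓ w < ℓ y → e (ℓ y) ^ d (ℓ y) y * w = w := by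
    intro y w h
    exact gface_pow_act ((he (ℓ y) (hL.le y)).2 w h) _
  -- action of `F y` on levels in `[i, j)`
  have hact : ∀ y w, ℓ w < ℓ y → i ≤ ℓ w → ℓ w < j → F y * w = G y * w := by
    intro y w h h1 h2
    rcases lt_trichotomy (ℓ y) j with h3 | h3 | h3
    · rw [hF3 y (by omega) h3]
      calc e (ℓ y) ^ d (ℓ y) y * G y * w = G y * (e (ℓ y) ^ d (ℓ y) y * w) := by ac_rfl
        _ = G y * w := by rw [hact_E y w h]
    · exact hact_j y w h3 h2
    · rw [hF4 y (Or.inr h3), hact_E y w h, hG1 y h3, one_mul]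
  have hact0 : ∀ y w, ℓ w < ℓ y → ℓ w < i → F y * w = w := by
    intro y w h h1
    rcases lt_trichotomy (ℓ y) j with h3 | h3 | h3
    · by_cases hi : i ≤ ℓ y
      · rw [hF3 y hi h3]
        calc e (ℓ y) ^ d (ℓ y) y * G y * w = e (ℓ y) ^ d (ℓ y) y * (G y * w) := by ac_rfl
          _ = w := by rw [hGact0 y w h1, hact_E y w h]
      · rw [hF4 y (Or.inl (by omega)), hact_E y w h]
    · rw [hact_j y w h3 (by omega), hGact0 y w h1]
    · rw [hF4 y (Or.inr h3), hact_E y w h]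
  -- multiplicativity
  have hmul : ∀ y y', ℓ y' ≤ ℓ y → F (y * y') = F y * F y' := by
    intro y y' hle
    have hyy : ℓ (y * y') = ℓ y' := by
      rw [hL.mul]
      exact min_eq_right hle
    rcases hle.lt_or_eq with hlt | heq
    · -- different levels
      have hd : d (ℓ y') (y * y') = d (ℓ y') y' := by
        rw [hL.d_mul _ _ _ hle le_rfl, hL.d_zero _ _ hlt, zero_add]
      by_cases h1 : ℓ y' < i
      · have h2 : F y * F y' = F y' := hact0 y (F y') (by rw [hlev]; exact hlt)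
          (by rw [hlev]; exact h1)
        rw [h2, hF4 _ (Or.inl (by rw [hyy]; exact h1)), hF4 _ (Or.inl h1), hyy, hd]
      · have h1' : i ≤ ℓ y' := by omega
        by_cases h2 : ℓ y' < j
        · rw [hact y (F y') (by rw [hlev]; exact hlt) (by rw [hlev]; exact h1')
            (by rw [hlev]; exact h2)]
          rw [hF3 _ (by rw [hyy]; exact h1') (by rw [hyy]; exact h2), hF3 _ h1' h2, hyy, hd]
          have h3 : ℓ (e (ℓ y') ^ d (ℓ y') y') < j := by rw [hlevE]; exact h2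
          calc e (ℓ y') ^ d (ℓ y') y' * G (y * y')
              = G (y * y') * e (ℓ y') ^ d (ℓ y') y' := by ac_rfl
            _ = G y * (G y' * e (ℓ y') ^ d (ℓ y') y') :=
              (hGact y y' _ h3 (by omega) h1').symm
            _ = G y * (e (ℓ y') ^ d (ℓ y') y' * G y') := by ac_rfl
        · have hyj : j < ℓ y := by omega
          have h3 : F y * F y' = F y' := by
            rw [hF4 y (Or.inr hyj), hact_E y _ (by rw [hlev]; exact hlt)]
          rw [h3]
          have ha0 := hab0 y hyj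
          rcases (by omega : j = ℓ y' ∨ j < ℓ y') with h4 | h4
          · have ha1 : a (y * y') = a y' := by rw [ha _ _ hyj.le h4.le, ha0.1, zero_add]
            have hb1 : b (y * y') = b y' := by rw [hb _ _ hyj.le h4.le, ha0.2, zero_add]
            by_cases hby : b y' = 0
            · have he1 : ε (y * y') = ε y' := by
                rw [hε _ _ hyj.le h4.le ha0.2 hby, hε0 y hyj, zero_add]
              rw [hF1 _ (by rw [hyy, h4]) (by rw [hb1, hby]), hF1 _ h4.symm hby, ha1, he1]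
            · rw [hF2 _ (by rw [hyy, h4]) (by rw [hb1]; exact hby), hF2 _ h4.symm hby, ha1, hb1]
          · rw [hF4 _ (Or.inr (by rw [hyy]; exact h4)), hF4 _ (Or.inr h4), hyy, hd]
    · -- equal levels
      have hd : d (ℓ y') (y * y') = d (ℓ y') y + d (ℓ y') y' :=
        hL.d_mul _ _ _ hle le_rfl
      rcases lt_trichotomy (ℓ y') j with h3 | h3 | h3
      · by_cases hi : i ≤ ℓ y'
        · rw [hF3 _ (by rw [hyy]; exact hi) (by rw [hyy]; exact h3), hF3 y (by omega) (by omega),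
            hF3 y' hi h3, hyy, hd, ← heq]
          have h4 : ℓ (e (ℓ y') ^ (d (ℓ y') y + d (ℓ y') y')) < j := by
            have h5 := hlevE (y * y')
            rw [hyy, hd] at h5
            rw [h5]
            exact h3
          calc e (ℓ y') ^ (d (ℓ y') y + d (ℓ y') y') * G (y * y')
              = G (y * y') * e (ℓ y') ^ (d (ℓ y') y + d (ℓ y') y') := by ac_rfl
            _ = G y * (G y' * e (ℓ y') ^ (d (ℓ y') y + d (ℓ y') y')) :=
              (hGact y y' _ h4 (by omega) hi).symm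
            _ = e (ℓ y') ^ d (ℓ y') y * G y * (e (ℓ y') ^ d (ℓ y') y' * G y') := by
              rw [pow_add]
              ac_rfl
        · rw [hF4 _ (Or.inl (by rw [hyy]; omega)), hF4 y (Or.inl (by omega)),
            hF4 y' (Or.inl (by omega)), hyy, hd, ← heq, pow_add]
      · have hyj : ℓ y = j := by omega
        have ha1 := ha y y' hyj.ge h3.ge
        have hb1 := hb y y' hyj.ge h3.ge
        by_cases h4 : b y = 0
        · by_cases h5 : b y' = 0
          · have he1 := hε y y' hyj.ge h3.ge h4 h5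
            have hl1 := hεle y hyj h4
            have hl2 := hεle y' h3 h5
            rw [hF1 _ (by rw [hyy, h3]) (by rw [hb1, h4, h5]), hF1 y hyj h4, hF1 y' h3 h5, ha1,
              he1]
            have h6 : n * (a y + a y') - (ε y + ε y') = (n * a y - ε y) + (n * a y' - ε y') := by
              rw [mul_add]
              omega
            rw [h6, pow_add, pow_add, pow_add]
            ac_rfl
          · have hm := hmix y y' hyj h3 h4 h5
            rw [hF2 _ (by rw [hyy, h3]) (by rw [hb1]; omega), hF1 y hyj h4, hF2 y' h3 h5, hm]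
        · by_cases h5 : b y' = 0
          · have hm := hmix y' y h3 hyj h5 h4
            rw [hF2 _ (by rw [hyy, h3]) (by rw [hb1]; omega), hF2 y hyj h4, hF1 y' h3 h5]
            rw [mul_comm y y', ← hm]
            ac_rfl
          · rw [hF2 _ (by rw [hyy, h3]) (by rw [hb1]; omega), hF2 y hyj h4, hF2 y' h3 h5, ha1, hb1,
              mul_add, pow_add, pow_add, pow_add]
            ac_rfl
      · rw [hF4 _ (Or.inr (by rw [hyy]; exact h3)), hF4 y (Or.inr (by omega)),
          hF4 y' (Or.inr h3), hyy, hd, ← heq, pow_add]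
  have hF1' : F 1 = 1 := by
    have h1 : ℓ (F 1) = r := by rw [hlev, hone]
    exact (hL.one_iff _).1 h1
  refine ⟨⟨⟨F, hF1'⟩, ?_⟩, ?_, ?_, ?_, ?_⟩
  · intro x y
    rcases le_total (ℓ y) (ℓ x) with h | h
    · exact hmul x y h
    · have h1 := hmul y x h
      show F (x * y) = F x * F y
      rw [mul_comm x y, h1, mul_comm]
  · intro y
    exact hlev y
  · intro y h1 h2
    exact hF1 y h1 h2
  · intro y h1 h2
    exact hF2 y h1 h2
  · intro y h1
    show F y = _
    simp only [hF, if_neg h1, hG]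

theorem gface {M : Type*} [CommMonoid M] (hred : Red M) {r : ℕ} {ℓ : M → ℕ} {d : ℕ → M → ℕ}
    (hL : Lev r ℓ d) (hK : Kap ℓ) (hAG : AG r ℓ) {j : ℕ} (hj : j < r) {q q' z : M}
    (hq : ℓ q = j) (hq' : ℓ q' = j) (hz : ℓ z = j) (hqz : q * z = q' * z) {i n : ℕ} (hij : i ≤ j)
    (hn : 0 < n) {g : M} (hg : j < ℓ g) (hqg : ∀ y, ℓ y < i → q ^ n * g * y = y) :
    ∃ m₀, 0 < m₀ ∧ ∀ (a b : M → ℕ) (Λ' : M → ℤ),
      (∀ x y, j ≤ ℓ x → j ≤ ℓ y → a (x * y) = a x + a y) →
      (∀ x y, j ≤ ℓ x → j ≤ ℓ y → b (x * y) = b x + b y) →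
      (∀ x, j < ℓ x → a x = 0 ∧ b x = 0) → (∀ x, ℓ x = j → 2 * m₀ ≤ a x) →
      (∀ x, ℓ x = j → b x = 0 ∨ 2 * m₀ ≤ b x) →
      (∀ x y, i ≤ ℓ x → i ≤ ℓ y → Λ' (x * y) = Λ' x + Λ' y) →
      (∀ x, j < ℓ x → Λ' x = 0) → (∀ x, j ≤ ℓ x → Λ' x = (a x : ℤ) - b x) →
      ∀ ε : M → ℕ, (∀ x y, j ≤ ℓ x → j ≤ ℓ y → b x = 0 → b y = 0 → ε (x * y) = ε x + ε y) →
      (∀ x, j < ℓ x → ε x = 0) → (∀ x, ℓ x = j → b x = 0 → m₀ ≤ ε x ∧ ε x ≤ n * a x) →
      ∀ y, ℓ y = j → b y = 0 →
        q ^ (n * a y - ε y) * q' ^ ε y * g ^ a y = q ^ (n * a y) * g ^ a y := by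
  classical
  have hone : ℓ (1 : M) = r := (hL.one_iff 1).2 rfl
  -- the elements `e l`
  have he : ∀ l : ℕ, ∃ e : M, l ≤ r → (ℓ e = l ∧ ∀ y, ℓ y < l → e * y = y) := by
    intro l
    by_cases hl : l ≤ r
    · obtain ⟨x, hx⟩ := hL.surj l hl
      obtain ⟨x', h1, h2⟩ := hL.inv x
      refine ⟨x * x', fun _ => ⟨?_, ?_⟩⟩
      · rw [hL.mul, hx]
        exact min_eq_left (by omega)
      · intro y hy
        exact h2 y (by omega)
    · exact ⟨1, fun h => absurd h hl⟩
  choose e he using he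
  -- the element `t`
  have hlev1 : ℓ (q ^ n * g) = j := by
    rw [hL.mul, gface_lev_pow_pos hL q hn, hq]
    exact min_eq_left hg.le
  obtain ⟨t, ht0, hqt0⟩ := hL.inv (q ^ n * g)
  rw [hlev1] at ht0 hqt0
  -- the element `Z`
  obtain ⟨z', hz', hZ⟩ := hL.inv z
  rw [hz] at hz' hZ
  have hZj : ℓ (z * z') = j := by
    rw [hL.mul, hz]
    exact min_eq_left hz'
  have hqZ : q * (z * z') = q' * (z * z') := by rw [← mul_assoc, hqz, mul_assoc]
  have hqq : ∀ y, ℓ y < j → q * y = q' * y := by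
    intro y hy
    calc q * y = q * (z * z' * y) := by rw [hZ y hy]
      _ = q * (z * z') * y := by ac_rfl
      _ = q' * (z * z') * y := by rw [hqZ]
      _ = q' * (z * z' * y) := by ac_rfl
      _ = q' * y := by rw [hZ y hy]
  -- the number `m₀`
  have hT : j ≤ ℓ (q ^ (n - 1) * g * t) := by
    have h1 := gface_lev_pow hL q (n - 1)
    rw [hL.mul, hL.mul]
    exact le_min (le_min (by omega) hg.le) ht0
  have hqT : q * (q ^ (n - 1) * g * t) = q ^ n * g * t := by
    have h1 : n = (n - 1) + 1 := by omega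
    conv_rhs => rw [h1, pow_succ]
    ac_rfl
  obtain ⟨N, hN⟩ := hAG j hj q q' z (q ^ (n - 1) * g * t) hq hq' hz hT hqz
    (fun y hy => by rw [hqT]; exact hqt0 y hy)
  refine ⟨N + 1, Nat.succ_pos _, ?_⟩
  intro a b Λ' ha hb hab0 ha2 hb2 hΛ hΛ0 hΛab ε hε hε0 hεb y hy hby
  have hw : ∀ m, N + 1 ≤ m →
      (q' * (q ^ (n - 1) * g * t)) ^ m = (q * (q ^ (n - 1) * g * t)) ^ m :=
    fun m hm => (hN m (by omega)).symm
  have hapos : ∀ x, ℓ x = j → 0 < a x := fun x hx => by
    have := ha2 x hx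
    omega
  -- the mixing identity
  have hmixG : ∀ δ : M → ℕ, (∀ x, ℓ x = j → b x = 0 → (δ x = 0 ∨ N + 1 ≤ δ x) ∧
      δ x ≤ n * a x) → ∀ x y, ℓ x = j → ℓ y = j → b x = 0 → b y ≠ 0 →
      q ^ (n * a x - δ x) * q' ^ δ x * g ^ a x * (q ^ (n * a y) * g ^ a y * t ^ b y) =
        q ^ (n * a (x * y)) * g ^ a (x * y) * t ^ b (x * y) := by
    intro δ hδ x y hx hy hbx hby
    obtain ⟨h1, h2⟩ := hδ x hx hbx
    have h3 := ha2 x hx
    have h4 := ha2 y hy
    have h5 : 2 * (N + 1) ≤ b y := by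
      rcases hb2 y hy with h | h
      · exact absurd h hby
      · exact h
    have h6 : 2 * n * (N + 1) ≤ n * a x - δ x + n * a y := by
      have h7 : n * (2 * (N + 1)) ≤ n * a y := Nat.mul_le_mul_left n h4
      have h8 : 2 * n * (N + 1) = n * (2 * (N + 1)) := by ring
      omega
    have h9 := gwords hn (Nat.succ_pos N) hw (n * a x - δ x + n * a y) (δ x) (a x + a y) (b y) h1
      h6 (by omega) h5
    rw [ha x y hx.ge hy.ge, hb x y hx.ge hy.ge, hbx, zero_add]
    calc q ^ (n * a x - δ x) * q' ^ δ x * g ^ a x * (q ^ (n * a y) * g ^ a y * t ^ b y)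
        = q ^ (n * a x - δ x + n * a y) * q' ^ δ x * g ^ (a x + a y) * t ^ b y := by
          rw [pow_add, pow_add]
          ac_rfl
      _ = q ^ (n * a x - δ x + n * a y + δ x) * g ^ (a x + a y) * t ^ b y := h9
      _ = q ^ (n * (a x + a y)) * g ^ (a x + a y) * t ^ b y := by
          have h10 : n * a x - δ x + n * a y + δ x = n * (a x + a y) := by
            rw [mul_add]
            omega
          rw [h10]
  obtain ⟨f, hf0, hf1, hf2, hf3⟩ := gface_hom hL hj hij hn he hq hq' hg ht0 hqq hqt0 hqg a b Λ' ε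
    ha hb hab0 hapos hΛ hΛ0 hΛab hε hε0 (fun x hx hbx => (hεb x hx hbx).2)
    (hmixG ε (fun x hx hbx => ⟨Or.inr (hεb x hx hbx).1, (hεb x hx hbx).2⟩))
  obtain ⟨f', hf0', hf1', hf2', hf3'⟩ := gface_hom hL hj hij hn he hq hq' hg ht0 hqq hqt0 hqg a b
    Λ' (fun _ => 0) ha hb hab0 hapos hΛ hΛ0 hΛab (fun _ _ _ _ _ _ => rfl) (fun _ _ => rfl)
    (fun _ _ _ => Nat.zero_le _)
    (hmixG (fun _ => 0) (fun x hx hbx => ⟨Or.inl rfl, Nat.zero_le _⟩))
  have hNT : ∀ f : M →* M, (∀ y, ℓ (f y) = ℓ y) → NT f := by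
    intro f hf x hx
    rw [← hL.one_iff, ← hf x, hx, hone]
  have hqv : ∀ v : ℕ, q' ^ v * z = q ^ v * z := by
    intro v
    induction v with
    | zero => simp
    | succ v ih =>
      calc q' ^ (v + 1) * z = q' ^ v * (q' * z) := by rw [pow_succ, mul_assoc]
        _ = q' ^ v * (q * z) := by rw [hqz]
        _ = q * (q' ^ v * z) := by ac_rfl
        _ = q * (q ^ v * z) := by rw [ih]
        _ = q ^ (v + 1) * z := by rw [pow_succ', mul_assoc]
  have hfin := hK f f' (hNT f hf0) (hNT f' hf0') (by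
    intro x
    by_cases hx : ℓ x = j
    · by_cases hbx : b x = 0
      · refine ⟨z, by rw [hz, hx], ?_⟩
        have hle := (hεb x hx hbx).2
        rw [hf1 x hx hbx, hf1' x hx hbx]
        calc q ^ (n * a x - ε x) * q' ^ ε x * g ^ a x * z
            = q ^ (n * a x - ε x) * g ^ a x * (q' ^ ε x * z) := by ac_rfl
          _ = q ^ (n * a x - ε x) * g ^ a x * (q ^ ε x * z) := by rw [hqv]
          _ = (q ^ (n * a x - ε x) * q ^ ε x) * g ^ a x * z := by ac_rfl
          _ = q ^ (n * a x - 0) * q' ^ 0 * g ^ a x * z := by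
            rw [← pow_add, Nat.sub_add_cancel hle, Nat.sub_zero, pow_zero, mul_one]
      · exact ⟨x, rfl, by rw [hf2 x hx hbx, hf2' x hx hbx]⟩
    · exact ⟨x, rfl, by rw [hf3 x hx, hf3' x hx]⟩) y
  rw [hf1 y hy hby, hf1' y hy hby] at hfin
  simpa using hfin

end Pool.Agent.Helper13.EC
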