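import Pool.Agent.Helper13.EC.GA12
import Pool.Agent.Helper13.EC.DataI
import Pool.Agent.Helper13.EC.DataA
import Pool.Agent.Helper13.EC.Eps
import Pool.Agent.Helper13.EC.GFace

set_option autoImplicit false

/-!
[EC-GLevels] Equivalent elements have equal large powers (general version of `Levels`).

Let `q z = q' z`, all of level `j`. `j = r`: all are `1`. Let `j < r`; take `i, n, g, Λ` from
`exists_i` (for `q`), `a, b, Λ'` from `exists_data`, `x1` of level `j` with `b x1 = 0`, `m₀` from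
`gface` (with `ag hred hEC hL`), `K, ε` from `exists_eps`. Let `c ≥ m₀` be arbitrary and
`K' = K * c * (2 * m₀)` (or anything large enough): `K' a, K' b, K' Λ'` satisfy the hypotheses of
`gface`, and so do the functions `n K' a` and `c ε` in place of `ε` (`m₀ ≤ c ε x ≤ c K a x ≤ n K' a x`).
`g'` (`Lev.inv` for `g`): `g g' y = y` for `ℓ y < ℓ g`, in particular for level `j`; multiplying the
conclusion of `gface` with `g' ^ (K' a y)` removes the powers of `g`.
(1) `ε := n K' a`, `y = x1`: `q' ^ N = q ^ N` for some `N > 0`.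
(2) `ε := c ε`: for every `c ≥ m₀` and `y` of level `j` with `b y = 0` there is `L` with
`q ^ L q' ^ (c ε y) = q ^ (L + c ε y)`. Let `P e : ∃ L, q ^ L q' ^ e = q ^ (L + e)`; `P` is closed under
addition. With `x, y` from `exists_eps`, `ε y = s`, `ε x = s + 1`: `P (c s)`, `P (c (s + 1))` for all
`c ≥ m₀`, so `P e` and `P (e + 1)` hold for `e = m₀ (s + 1) + (m₀ + 1) s`. Hence `P 1`: for large `L`
`q ^ L q' ^ e = q ^ (L + e)`, `q ^ L q' ^ (e + 1) = q ^ (L + e + 1)` give
`q' q ^ (L + e) = q ^ (L + e + 1)`.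
(3) Take `k` with `N k ≥ L + e`: `q' q ^ (N k) = q ^ (N k + 1)`, so `q' ^ (N k + 1) = q ^ (N k + 1)` by
(1), and `q' ^ (N k) = q ^ (N k)`; so `q ^ m = q' ^ m` for all large `m`
(`Pool.Agent.Helper54.EndCanc.eventually_mem`).
-/

namespace Pool.Agent.Helper13.EC

theorem glevels_lpow {M : Type*} [CommMonoid M] {r : ℕ} {ℓ : M → ℕ} {d : ℕ → M → ℕ}
    (hL : Lev r ℓ d) (x : M) (k : ℕ) (hk : 0 < k) : ℓ (x ^ k) = ℓ x := by
  induction k with
  | zero => exact absurd hk (lt_irrefl 0)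
  | succ m ih =>
    rcases Nat.eq_zero_or_pos m with hm | hm
    · subst hm
      simp
    · rw [pow_succ, hL.mul, ih hm, min_self]

theorem glevels_act {M : Type*} [CommMonoid M] (c y : M) (h : c * y = y) (k : ℕ) :
    c ^ k * y = y := by
  induction k with
  | zero => simp
  | succ m ih => rw [pow_succ, mul_assoc, h, ih]

theorem glevels_cancel {M : Type*} [CommMonoid M] {ℓ : M → ℕ} {g g' : M}
    (hg : ∀ y, ℓ y < ℓ g → g * g' * y = y) {u v : M} (hu : ℓ u < ℓ g) (hv : ℓ v < ℓ g) (A : ℕ)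
    (h : u * g ^ A = v * g ^ A) : u = v := by
  have e : ∀ w : M, ℓ w < ℓ g → w * g ^ A * g' ^ A = w := by
    intro w hw
    have := glevels_act (g * g') w (hg w hw) A
    rw [mul_pow] at this
    rw [mul_assoc, mul_comm w]
    exact this
  rw [← e u hu, h, e v hv]

/-- Exchange of `e` letters at the cost of some power of `q`. -/
def GlevelsP {M : Type*} [CommMonoid M] (q q' : M) (e : ℕ) : Prop :=
  ∃ L : ℕ, q ^ L * q' ^ e = q ^ (L + e)

theorem glevels_add {M : Type*} [CommMonoid M] {q q' : M} {e f : ℕ} (he : GlevelsP q q' e)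
    (hf : GlevelsP q q' f) : GlevelsP q q' (e + f) := by
  obtain ⟨L, hL⟩ := he
  obtain ⟨L', hL'⟩ := hf
  refine ⟨L + L', ?_⟩
  have : q ^ (L + L') * q' ^ (e + f) = (q ^ L * q' ^ e) * (q ^ L' * q' ^ f) := by
    rw [pow_add, pow_add, mul_mul_mul_comm]
  rw [this, hL, hL', ← pow_add]
  congr 1
  omega

theorem glevels_mono {M : Type*} [CommMonoid M] {q q' : M} {e L L' : ℕ}
    (h : q ^ L * q' ^ e = q ^ (L + e)) (hLL : L ≤ L') : q ^ L' * q' ^ e = q ^ (L' + e) := by
  obtain ⟨k, rfl⟩ := Nat.exists_eq_add_of_le hLL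
  rw [add_comm L k, pow_add, mul_assoc, h, ← pow_add, add_assoc]

/-- The arithmetic of the exponents. -/
theorem glevels_fin {M : Type*} [CommMonoid M] {q q' : M} {N m₀ s : ℕ} (hN : 0 < N)
    (hqN : q ^ N = q' ^ N)
    (h0 : ∀ c, m₀ ≤ c → GlevelsP q q' (c * s)) (h1 : ∀ c, m₀ ≤ c → GlevelsP q q' (c * (s + 1))) :
    ∃ N, ∀ m, N ≤ m → q ^ m = q' ^ m := by
  have p0 : GlevelsP q q' (m₀ * (s + 1) + (m₀ + 1) * s) :=
    glevels_add (h1 m₀ le_rfl) (h0 (m₀ + 1) (Nat.le_succ m₀))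
  have p1 : GlevelsP q q' (m₀ * (s + 1) + (m₀ + 1) * s + 1) := by
    have := glevels_add (h0 m₀ le_rfl) (h1 (m₀ + 1) (Nat.le_succ m₀))
    have e : m₀ * s + (m₀ + 1) * (s + 1) = m₀ * (s + 1) + (m₀ + 1) * s + 1 := by ring
    rw [e] at this
    exact this
  generalize m₀ * (s + 1) + (m₀ + 1) * s = e at p0 p1
  obtain ⟨L0, hL0⟩ := p0
  obtain ⟨L1, hL1⟩ := p1
  have hA := glevels_mono hL0 (Nat.le_add_right L0 L1)
  have hB := glevels_mono hL1 (Nat.le_add_left L1 L0)
  generalize L0 + L1 = L at hA hB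
  have hC : q' * q ^ (L + e) = q ^ (L + e + 1) := by
    rw [← hA, mul_left_comm, ← pow_succ' q' e, hB, add_assoc]
  have hD : ∀ m, L + e ≤ m → q' * q ^ m = q ^ (m + 1) := by
    intro m hm
    obtain ⟨k, rfl⟩ := Nat.exists_eq_add_of_le hm
    rw [pow_add, ← mul_assoc, hC, ← pow_add]
    congr 1
    omega
  have hk : L + e ≤ N * (L + e) := Nat.le_mul_of_pos_left _ hN
  have hE : q ^ (N * (L + e)) = q' ^ (N * (L + e)) := by
    rw [pow_mul, pow_mul, hqN]
  have hF : q ^ (N * (L + e) + 1) = q' ^ (N * (L + e) + 1) := by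
    rw [← hD _ hk, hE, ← pow_succ']
  exact Pool.Agent.Helper54.EndCanc.eventually_mem (fun n => q ^ n = q' ^ n)
    (fun m n hm hn => by simp only [pow_add, hm, hn]) (by simp) _ hE hF

theorem glevels {M : Type*} [CommMonoid M] [Monoid.FG M] (hred : Red M)
    (hEC : ECM M) {r : ℕ} {ℓ : M → ℕ} {d : ℕ → M → ℕ} (hL : Lev r ℓ d) (hK : Kap ℓ)
    (q q' z : M) (h1 : ℓ q = ℓ z) (h2 : ℓ q' = ℓ z) (h : q * z = q' * z) :
    ∃ N, ∀ m, N ≤ m → q ^ m = q' ^ m := by
  rcases (hL.le z).lt_or_eq with hj | hj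
  swap
  · have e1 : q = 1 := (hL.one_iff q).1 (h1.trans hj)
    have e2 : q' = 1 := (hL.one_iff q').1 (h2.trans hj)
    exact ⟨0, fun m _ => by rw [e1, e2]⟩
  have hq : ℓ q < r := by rw [h1]; exact hj
  have hAG := ag hred hEC hL
  obtain ⟨i, hi, n, hn, g, hg, hqg, Λ, hΛ, hΛ0, hΛq⟩ := exists_i hred hL q hq
  obtain ⟨a, b, Λ', ha, hb, hab0, hapos, ⟨x1, hx1, hbx1⟩, hΛm, hΛ'0, hΛab⟩ :=
    exists_data hL q hq hi Λ hΛ hΛ0 hΛq
  obtain ⟨g', -, hg'⟩ := hL.inv g
  have hq'j : ℓ q' = ℓ q := h2.trans h1.symm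
  have hzj : ℓ z = ℓ q := h1.symm
  obtain ⟨m₀, hm0, hG⟩ := gface hred hL hK hAG hq rfl hq'j hzj h hi hn hg hqg
  obtain ⟨K, ε, hK0, hε, hε0, hεb, x, y, hx, hy, hbx, hby, hxy⟩ :=
    exists_eps hL hq a b ha hb hab0 hapos ⟨x1, hx1, hbx1⟩
  -- `gface` for large multiples
  have main : ∀ K' : ℕ, 2 * m₀ ≤ K' → ∀ ε' : M → ℕ,
      (∀ x y, ℓ q ≤ ℓ x → ℓ q ≤ ℓ y → b x = 0 → b y = 0 → ε' (x * y) = ε' x + ε' y) →
      (∀ x, ℓ q < ℓ x → ε' x = 0) →
      (∀ x, ℓ x = ℓ q → b x = 0 → m₀ ≤ ε' x ∧ ε' x ≤ n * (K' * a x)) →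
      ∀ y, ℓ y = ℓ q → b y = 0 →
        q ^ (n * (K' * a y) - ε' y) * q' ^ ε' y = q ^ (n * (K' * a y)) := by
    intro K' hK' ε' hε1 hε2 hε3 y hy hby
    have hKpos : 0 < K' := by omega
    have hKb : ∀ w', K' * b w' = 0 → b w' = 0 := fun w' hw' => by
      rcases Nat.mul_eq_zero.1 hw' with h0 | h0
      · omega
      · exact h0
    have hf := hG (fun w => K' * a w) (fun w => K' * b w) (fun w => (K' : ℤ) * Λ' w)
      (fun x y hx hy => by simp only [ha x y hx hy, mul_add])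
      (fun x y hx hy => by simp only [hb x y hx hy, mul_add])
      (fun x hx => by simp only [(hab0 x hx).1, (hab0 x hx).2, mul_zero, and_self])
      (fun x hx => le_trans hK' (Nat.le_mul_of_pos_right _ (hapos x hx)))
      (fun x _ => by
        rcases Nat.eq_zero_or_pos (b x) with h0 | h0
        · left
          simp only [h0, mul_zero]
        · right
          exact le_trans hK' (Nat.le_mul_of_pos_right _ h0))
      (fun x y hx hy => by simp only [hΛm x y hx hy, mul_add])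
      (fun x hx => by simp only [hΛ'0 x hx, mul_zero])
      (fun x hx => by
        simp only [hΛab x hx]
        push_cast
        ring)
      ε'
      (fun x y hx hy hbx hby => hε1 x y hx hy (hKb x hbx) (hKb y hby))
      hε2
      (fun x hx hbx => hε3 x hx (hKb x hbx)) y hy (by simp only [hby, mul_zero])
    obtain ⟨hε4, hε5⟩ := hε3 y hy hby
    refine glevels_cancel hg' ?_ ?_ (K' * a y) hf
    · rw [hL.mul, glevels_lpow hL q' _ (by omega), hq'j]
      exact lt_of_le_of_lt (min_le_right _ _) hg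
    · rw [glevels_lpow hL q _ (by omega)]
      exact hg
  -- (1)
  have hapos1 := hapos x1 hx1
  have hNpos : 0 < n * (2 * m₀ * a x1) := Nat.mul_pos hn (Nat.mul_pos (by omega) hapos1)
  have hN : q ^ (n * (2 * m₀ * a x1)) = q' ^ (n * (2 * m₀ * a x1)) := by
    have hf := main (2 * m₀) le_rfl (fun y => n * (2 * m₀ * a y))
      (fun x y hx hy _ _ => by simp only [ha x y hx hy, mul_add])
      (fun x hx => by simp only [(hab0 x hx).1, mul_zero])
      (fun x hx _ => by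
        refine ⟨?_, le_rfl⟩
        have h3 : 0 < a x := hapos x hx
        calc m₀ ≤ 2 * m₀ := by omega
          _ ≤ 2 * m₀ * a x := Nat.le_mul_of_pos_right _ h3
          _ ≤ n * (2 * m₀ * a x) := Nat.le_mul_of_pos_left _ hn) x1 hx1 hbx1
    simp only [Nat.sub_self, pow_zero, one_mul] at hf
    exact hf.symm
  -- (2)
  have hP : ∀ c, m₀ ≤ c → ∀ w, ℓ w = ℓ q → b w = 0 → GlevelsP q q' (c * ε w) := by
    intro c hc w hw hbw
    have hc0 : 0 < c := lt_of_lt_of_le hm0 hc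
    have hK'2 : 2 * m₀ ≤ K * c * (2 * m₀) := Nat.le_mul_of_pos_left _ (Nat.mul_pos hK0 hc0)
    have hle : ∀ w', ℓ w' = ℓ q → b w' = 0 → c * ε w' ≤ n * (K * c * (2 * m₀) * a w') := by
      intro w' h1' h2'
      calc c * ε w' ≤ c * (K * a w') := Nat.mul_le_mul_left c (hεb w' h1' h2').2
        _ = K * c * a w' * 1 := by ring
        _ ≤ K * c * a w' * (2 * m₀) := Nat.mul_le_mul_left _ (by omega)
        _ = K * c * (2 * m₀) * a w' := by ring
        _ ≤ n * (K * c * (2 * m₀) * a w') := Nat.le_mul_of_pos_left _ hn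
    have hf := main (K * c * (2 * m₀)) hK'2 (fun y => c * ε y)
      (fun x y hx hy hbx hby => by simp only [hε x y hx hy hbx hby, mul_add])
      (fun x hx => by simp only [hε0 x hx, mul_zero])
      (fun x hx hbx => by
        refine ⟨?_, hle x hx hbx⟩
        calc m₀ ≤ c := hc
          _ ≤ c * ε x := Nat.le_mul_of_pos_right _ (hεb x hx hbx).1) w hw hbw
    refine ⟨n * (K * c * (2 * m₀) * a w) - c * ε w, ?_⟩
    rw [Nat.sub_add_cancel (hle w hw hbw)]
    exact hf
  exact glevels_fin hNpos hN (s := ε y) (m₀ := m₀) (fun c hc => hP c hc y hy hby)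
    (fun c hc => by
      have := hP c hc x hx hbx
      rw [hxy] at this
      exact this)

end Pool.Agent.Helper13.EC
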