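import Pool.Agent.Helper13.EC.Defs
import Pool.Agent.Helper54.EndFG

set_option autoImplicit false

/-!
[EC-Grade] For a filter `F` of a finitely generated reduced commutative monoid `M` in which not
every element lies in `nxt F`, there is a normalised grading of `F` vanishing exactly on `nxt F`.

Proof. Generators `X` of `M` (finite). `F` is the submonoid generated by `X ∩ F` (`Filt.left`), so
`↥F` (as a submonoid) is finitely generated and `Pool.Agent.Helper54.EndCanc.farkas` applies to it: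
for every `x ∈ F` there is an additive `L : F → ℕ` with `L x > 0`, or `x v w = w` with `v, w ∈ F`.
In the second case `x ∈ nxt F` (if `w = 1`, then `x v = 1` and `x = 1` by `Red`). Every additive
`L : F → ℕ` vanishes on `nxt F` (`L s + L t + L w = L w`; `L 1 = 0`). Let `δ₀` be the sum of the
`L`'s for the generators `x ∈ X ∩ F`, `x ∉ nxt F`: it is positive at these generators, zero on
`nxt F`, and positive on `F \ nxt F`, because `nxt F` is closed under products (`w` replaced by
`w w'`, which is `≠ 1` by `Red`) so that an element of `F \ nxt F` has a generator outside `nxt F`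
as a factor. Normalise with `Pool.Agent.Helper54.EndCanc.exists_div`.
-/

namespace Pool.Agent.Helper13.EC

theorem nxt_mul {M : Type*} [CommMonoid M] (hred : Red M) {F : Set M} (hF : Filt F) {x y : M}
    (hx : x ∈ nxt F) (hy : y ∈ nxt F) : x * y ∈ nxt F := by
  obtain ⟨hxF, hx'⟩ := hx
  obtain ⟨hyF, hy'⟩ := hy
  refine ⟨hF.mul x y hxF hyF, ?_⟩
  rcases hx' with rfl | ⟨t, ht, w, hw, hw1, hxt⟩
  · rw [one_mul]
    exact hy'
  rcases hy' with rfl | ⟨t', ht', w', hw', hw1', hyt⟩
  · rw [mul_one]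
    exact Or.inr ⟨t, ht, w, hw, hw1, hxt⟩
  refine Or.inr ⟨t * t', hF.mul _ _ ht ht', w * w', hF.mul _ _ hw hw',
    fun h => hw1 (hred _ _ h), ?_⟩
  calc x * y * (t * t') * (w * w') = (x * t * w) * (y * t' * w') := by
        simp only [mul_left_comm, mul_comm]
    _ = w * w' := by rw [hxt, hyt]

theorem grade_right {M : Type*} [CommMonoid M] {F : Set M} (hF : Filt F) {x y : M}
    (h : x * y ∈ F) : y ∈ F := hF.left y x (by rwa [mul_comm])

/-- A filter as a submonoid. -/
def gradeSub {M : Type*} [CommMonoid M] (F : Set M) (hF : Filt F) : Submonoid M where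
  carrier := F
  one_mem' := hF.one
  mul_mem' := fun {a b} ha hb => hF.mul a b ha hb

theorem grade_fg {M : Type*} [CommMonoid M] [Monoid.FG M] (F : Set M) (hF : Filt F) :
    Monoid.FG (gradeSub F hF) := by
  classical
  obtain ⟨X, hX, hXfin⟩ := Monoid.fg_iff.1 (inferInstance : Monoid.FG M)
  rw [Monoid.fg_iff_submonoid_fg, Submonoid.fg_iff]
  refine ⟨X ∩ F, le_antisymm ?_ ?_, hXfin.subset Set.inter_subset_left⟩
  · rw [Submonoid.closure_le]
    exact fun x hx => hx.2
  · intro y hy
    have hyX : y ∈ Submonoid.closure X := by rw [hX]; trivial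
    have key : ∀ z, z ∈ Submonoid.closure X → z ∈ F → z ∈ Submonoid.closure (X ∩ F) := by
      intro z hz
      induction hz using Submonoid.closure_induction with
      | mem z hz => exact fun hzF => Submonoid.subset_closure ⟨hz, hzF⟩
      | one => exact fun _ => Submonoid.one_mem _
      | mul a b _ _ iha ihb =>
        exact fun h => Submonoid.mul_mem _ (iha (hF.left _ _ h)) (ihb (grade_right hF h))
    exact key y hyX hy

theorem grade {M : Type*} [CommMonoid M] [Monoid.FG M] (hred : Red M) (F : Set M) (hF : Filt F)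
    (hne : ∃ x ∈ F, x ∉ nxt F) :
    ∃ δ : M → ℕ, (∀ x ∈ F, ∀ y ∈ F, δ (x * y) = δ x + δ y) ∧ (∀ x ∈ nxt F, δ x = 0) ∧
      (∀ x ∈ F, x ∉ nxt F → 0 < δ x) ∧ (∃ x ∈ F, ∃ y ∈ F, δ x = δ y + 1) := by
  classical
  have : Monoid.FG (gradeSub F hF) := grade_fg F hF
  obtain ⟨k, a, hsurj⟩ := Pool.Agent.Helper54.EndCanc.exists_gens (S := gradeSub F hF)
  -- additive functions vanish on the next filter
  have hzero : ∀ L : gradeSub F hF → ℕ, (∀ x y, L (x * y) = L x + L y) →
      ∀ x : gradeSub F hF, (x : M) ∈ nxt F → L x = 0 := by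
    intro L hL x hx
    rcases hx.2 with h1 | ⟨t, ht, w, hw, _, hw2⟩
    · have h2 : x = 1 := Subtype.ext h1
      have h3 := hL 1 1
      rw [mul_one] at h3
      rw [h2]
      omega
    · have h2 : x * (⟨t, ht⟩ : gradeSub F hF) * (⟨w, hw⟩ : gradeSub F hF) = ⟨w, hw⟩ :=
        Subtype.ext hw2
      have h3 := congrArg L h2
      rw [hL, hL] at h3
      omega
  -- a function for every element outside the next filter
  have hone : ∀ x : gradeSub F hF, ∃ L : gradeSub F hF → ℕ, (∀ x y, L (x * y) = L x + L y) ∧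
      ((x : M) ∉ nxt F → 0 < L x) := by
    intro x
    rcases Pool.Agent.Helper54.EndCanc.farkas x with ⟨L, hL, hx⟩ | ⟨v, w, hvw⟩
    · exact ⟨L, hL, fun _ => hx⟩
    · refine ⟨fun _ => 0, fun _ _ => rfl, fun hx => absurd ?_ hx⟩
      have h1 : (x : M) * v * w = w := congrArg Subtype.val hvw
      refine ⟨x.2, ?_⟩
      by_cases hw : (w : M) = 1
      · left
        rw [hw, mul_one] at h1
        exact hred _ _ h1
      · exact Or.inr ⟨v, v.2, w, w.2, hw, h1⟩
  choose L hL hLpos using hone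
  let δ₀ : gradeSub F hF → ℕ := fun y => ∑ i, L (a i) y
  have hδ₀ : ∀ x y, δ₀ (x * y) = δ₀ x + δ₀ y := by
    intro x y
    simp only [δ₀]
    rw [← Finset.sum_add_distrib]
    exact Finset.sum_congr rfl fun i _ => hL _ _ _
  have hpos : ∀ y : gradeSub F hF, (y : M) ∈ nxt F ∨ 0 < δ₀ y := by
    let T : Submonoid (gradeSub F hF) :=
      { carrier := {y | (y : M) ∈ nxt F ∨ 0 < δ₀ y}
        one_mem' := Or.inl ⟨hF.one, Or.inl rfl⟩
        mul_mem' := by
          intro x y hx hy
          simp only [Set.mem_ofPred_eq] at hx hy ⊢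
          rw [hδ₀]
          rcases hx with hx | hx
          · rcases hy with hy | hy
            · exact Or.inl (nxt_mul hred hF hx hy)
            · right; omega
          · right; omega }
    intro y
    have hgen : ∀ i, a i ∈ T := by
      intro i
      by_cases hi : (a i : M) ∈ nxt F
      · exact Or.inl hi
      · right
        exact lt_of_lt_of_le (hLpos (a i) hi)
          (Finset.single_le_sum (f := fun j => L (a j) (a i)) (fun _ _ => Nat.zero_le _)
            (Finset.mem_univ i))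
    obtain ⟨u, hu⟩ := hsurj y
    have hy : y ∈ T := by
      rw [← hu]
      exact Submonoid.prod_mem _ fun i _ => Submonoid.pow_mem _ (hgen i) _
    exact hy
  obtain ⟨x₀, hx₀, hx₀'⟩ := hne
  have hne' : ∃ x, 0 < δ₀ x :=
    ⟨⟨x₀, hx₀⟩, (hpos ⟨x₀, hx₀⟩).resolve_left hx₀'⟩
  obtain ⟨d, hd, hdvd, b, c, hbc⟩ := Pool.Agent.Helper54.EndCanc.exists_div δ₀ hδ₀ hne'
  let δ : M → ℕ := fun y => if h : y ∈ F then δ₀ ⟨y, h⟩ / d else 0
  have hδ : ∀ (y : M) (h : y ∈ F), δ y = δ₀ ⟨y, h⟩ / d := fun y h => dif_pos h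
  refine ⟨δ, ?_, ?_, ?_, ?_⟩
  · intro x hx y hy
    rw [hδ x hx, hδ y hy, hδ (x * y) (hF.mul x y hx hy)]
    have h1 : (⟨x * y, hF.mul x y hx hy⟩ : gradeSub F hF) = ⟨x, hx⟩ * ⟨y, hy⟩ := rfl
    rw [h1, hδ₀, Nat.add_div_of_dvd_right (hdvd _)]
  · intro x hx
    rw [hδ x hx.1, hzero δ₀ hδ₀ ⟨x, hx.1⟩ hx, Nat.zero_div]
  · intro x hx hx'
    rw [hδ x hx]
    exact Nat.div_pos (Nat.le_of_dvd ((hpos ⟨x, hx⟩).resolve_left hx') (hdvd _)) hd
  · refine ⟨b, b.2, c, c.2, ?_⟩
    rw [hδ b b.2, hδ c c.2]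
    have h1 : δ₀ ⟨(b : M), b.2⟩ = δ₀ ⟨(c : M), c.2⟩ + d := hbc
    rw [h1, Nat.add_div_right _ hd]

end Pool.Agent.Helper13.EC
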