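import Pool.Agent.Helper13.EC.Defs

set_option autoImplicit false

/-!
[EC-Kappa] Endomorphisms preserve the levels; necessity of condition (II).

`pres`: `ℓ y < ℓ x`, `y ≠ 1` implies `x x' y = y` for some `x'` (`Lev.inv`), so
`f x f x' f y = f y`, `f y ≠ 1`, hence `ℓ (f y) < ℓ (f x f x') ≤ ℓ (f x)` by `key0` (stated here for
a general pair of functions, because the final assembly uses it for `S` itself). Given `x` with
`ℓ x = i` choose `σ k` with `ℓ (σ k) = k`, `σ i = x`; `k ↦ ℓ (f (σ k))` is strictly increasing on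
`{0, .., r}` with values `≤ r`, so it is the identity.

`kappa`: finite generating set `X` of `M`. For `x ∈ X` of level `j < r` take `z_x` of level `j` with
`f x * z_x = g x * z_x`; let `z` be the product of these over the generators of level `j` and of one
more element of level `j`, and `u_j = z z'` with `z'` from `Lev.inv`: level `j`, `u_j y = y` for
`ℓ y < j`, and `f x u_j = g x u_j` for the generators `x` of level `j`. Put
`h s = s * (u_{ℓ s}) ^ d (ℓ s) s` for `s ≠ 1` and `h 1 = 1` (`d` vanishes on higher levels): `h` is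
multiplicative (if `ℓ s' < ℓ s`, then `u_{ℓ s}` acts trivially on `s'`, and `d (ℓ s') s = 0`). Then
`f x * h x = g x * h x` for generators, so everywhere, and `ECM` gives `f = g`. (In `x = 1` the
hypothesis gives nothing, `f 1 = g 1` anyway.)
-/

namespace Pool.Agent.Helper13.EC

/-- A map which is strictly increasing along a finite surjective level function preserves it. -/
theorem level_eq {α : Type*} (r : ℕ) (ℓ : α → ℕ) (hle : ∀ x, ℓ x ≤ r)
    (hs : ∀ j, j ≤ r → ∃ x, ℓ x = j) (f : α → α) (hf : ∀ x y, ℓ y < ℓ x → ℓ (f y) < ℓ (f x))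
    (x : α) : ℓ (f x) = ℓ x := by
  have low : ∀ k, k ≤ r → ∀ x, ℓ x = k → k ≤ ℓ (f x) := by
    intro k
    induction k with
    | zero => exact fun _ _ _ => Nat.zero_le _
    | succ k ih =>
      intro hk x hx
      obtain ⟨y, hy⟩ := hs k (by omega)
      have h1 := ih (by omega) y hy
      have h2 := hf x y (by omega)
      omega
  have up : ∀ j, j ≤ r → ∀ x, ℓ x = r - j → ℓ (f x) ≤ r - j := by
    intro j
    induction j with
    | zero => exact fun _ x _ => by simpa using hle (f x)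
    | succ j ih =>
      intro hj x hx
      obtain ⟨y, hy⟩ := hs (r - j) (by omega)
      have h1 := ih (by omega) y hy
      have h2 := hf y x (by omega)
      omega
  have h1 := low (ℓ x) (hle x) x rfl
  have h3 := hle x
  have h2 := up (r - ℓ x) (by omega) x (by omega)
  omega

theorem pres {M : Type*} [CommMonoid M] {r : ℕ} {ℓ : M → ℕ} {d : ℕ → M → ℕ} (hL : Lev r ℓ d)
    (f : M →* M) (hf : NT f) (x : M) : ℓ (f x) = ℓ x := by
  refine level_eq r ℓ hL.le hL.surj f (fun x y hxy => ?_) x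
  have hy : y ≠ 1 := by
    intro h
    have h1 := (hL.one_iff y).2 h
    have h2 := hL.le x
    omega
  obtain ⟨x', -, hx'⟩ := hL.inv x
  have h1 : f x * f x' * f y = f y := by
    rw [← map_mul, ← map_mul, hx' y hxy]
  have h2 := hL.key0 (f x * f x') (f y) (fun h => hy (hf y h)) h1
  rw [hL.mul] at h2
  exact lt_of_lt_of_le h2 (min_le_left _ _)

/-- One element of level `j` which equalises finitely many pairs. -/
theorem kappa_exists {M : Type*} [CommMonoid M] {r : ℕ} {ℓ : M → ℕ} {d : ℕ → M → ℕ}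
    (hL : Lev r ℓ d) (f g : M → M) (hfg : ∀ x, ∃ z, ℓ z = ℓ x ∧ f x * z = g x * z) {X : Set M}
    (hX : X.Finite) (j : ℕ) (hj : j ≤ r) :
    ∃ u, ℓ u = j ∧ (∀ y, ℓ y < j → u * y = y) ∧ ∀ x ∈ X, ℓ x = j → f x * u = g x * u := by
  obtain ⟨z, hz, hzX⟩ : ∃ z, ℓ z = j ∧ ∀ x ∈ X, ℓ x = j → f x * z = g x * z := by
    induction X, hX using Set.Finite.induction_on with
    | empty =>
      obtain ⟨e, he⟩ := hL.surj j hj
      exact ⟨e, he, fun x hx => absurd hx (Set.notMem_empty x)⟩
    | @insert a X _ _ ih =>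
      obtain ⟨z, hz, hzX⟩ := ih
      by_cases ha : ℓ a = j
      · obtain ⟨w, hw, hwa⟩ := hfg a
        refine ⟨z * w, ?_, fun x hx hxj => ?_⟩
        · rw [hL.mul, hz, hw, ha, min_self]
        · rcases Set.mem_insert_iff.1 hx with rfl | hx
          · rw [mul_comm z w, ← mul_assoc, hwa, mul_assoc]
          · rw [← mul_assoc, hzX x hx hxj, mul_assoc]
      · refine ⟨z, hz, fun x hx hxj => ?_⟩
        rcases Set.mem_insert_iff.1 hx with rfl | hx
        · exact absurd hxj ha
        · exact hzX x hx hxj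
  obtain ⟨z', hz', hzz⟩ := hL.inv z
  refine ⟨z * z', ?_, fun y hy => hzz y (by omega), fun x hx hxj => ?_⟩
  · rw [hL.mul, hz]
    exact min_eq_left (by omega)
  · rw [← mul_assoc, hzX x hx hxj, mul_assoc]

theorem kappa_pow_act {M : Type*} [CommMonoid M] {u y : M} (h : u * y = y) (n : ℕ) :
    u ^ n * y = y := by
  induction n with
  | zero => rw [pow_zero, one_mul]
  | succ n ih => rw [pow_succ, mul_assoc, h, ih]

theorem kappa {M : Type*} [CommMonoid M] [Monoid.FG M] (hred : Red M) (hEC : ECM M) {r : ℕ}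
    {ℓ : M → ℕ} {d : ℕ → M → ℕ} (hL : Lev r ℓ d) : Kap ℓ := by
  classical
  intro f g hf hg hfg
  obtain ⟨X, hX, hfin⟩ := (Monoid.fg_iff (M := M)).1 inferInstance
  have hex : ∀ j, ∃ u, j ≤ r → ℓ u = j ∧ (∀ y, ℓ y < j → u * y = y) ∧
      ∀ x ∈ X, ℓ x = j → f x * u = g x * u := by
    intro j
    by_cases hj : j ≤ r
    · obtain ⟨u, hu⟩ := kappa_exists hL f g hfg hfin j hj
      exact ⟨u, fun _ => hu⟩
    · exact ⟨1, fun h => absurd h hj⟩
  choose u hu using hex
  obtain ⟨H, hH⟩ : ∃ H : M → M, ∀ s, H s = if s = 1 then 1 else s * u (ℓ s) ^ d (ℓ s) s :=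
    ⟨_, fun _ => rfl⟩
  have H1 : H 1 = 1 := by rw [hH, if_pos rfl]
  have Hne : ∀ s, s ≠ 1 → H s = s * u (ℓ s) ^ d (ℓ s) s := fun s hs => by rw [hH, if_neg hs]
  have key : ∀ s t, s ≠ 1 → t ≠ 1 → ℓ t ≤ ℓ s → H (s * t) = H s * H t := by
    intro s t hs ht hle
    have hst : s * t ≠ 1 := fun h => hs (hred s t h)
    have hlev : ℓ (s * t) = ℓ t := by rw [hL.mul, min_eq_right hle]
    rw [Hne _ hst, Hne s hs, Hne t ht, hlev, hL.d_mul _ _ _ hle le_rfl]
    rcases hle.eq_or_lt with heq | hlt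
    · rw [heq, pow_add]
      exact mul_mul_mul_comm _ _ _ _
    · rw [hL.d_zero _ _ hlt, zero_add]
      have h1 : u (ℓ s) ^ d (ℓ s) s * t = t :=
        kappa_pow_act ((hu (ℓ s) (hL.le s)).2.1 t hlt) _
      calc s * t * u (ℓ t) ^ d (ℓ t) t
          = s * (u (ℓ s) ^ d (ℓ s) s * t) * u (ℓ t) ^ d (ℓ t) t := by rw [h1]
        _ = s * u (ℓ s) ^ d (ℓ s) s * (t * u (ℓ t) ^ d (ℓ t) t) := by
          rw [mul_assoc, mul_assoc, mul_assoc]
  have Hmul : ∀ s t, H (s * t) = H s * H t := by
    intro s t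
    by_cases hs : s = 1
    · rw [hs, one_mul, H1, one_mul]
    by_cases ht : t = 1
    · rw [ht, mul_one, H1, mul_one]
    rcases le_total (ℓ t) (ℓ s) with h | h
    · exact key s t hs ht h
    · rw [mul_comm s t, key t s ht hs h, mul_comm]
  obtain ⟨h, hh⟩ : ∃ h : M →* M, ∀ s, h s = H s :=
    ⟨{ toFun := H, map_one' := H1, map_mul' := Hmul }, fun _ => rfl⟩
  have hNT : NT h := by
    intro s hs
    by_contra hne
    rw [hh, Hne s hne] at hs
    exact hne (hred _ _ hs)
  refine hEC f g h hf hg hNT ?_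
  intro x
  have hx : x ∈ Submonoid.closure X := by
    rw [hX]
    exact Submonoid.mem_top x
  induction hx using Submonoid.closure_induction with
  | mem x hx =>
    by_cases h1 : x = 1
    · rw [h1, map_one f, map_one g]
    · have hlt : ℓ x < r := lt_of_le_of_ne (hL.le x) fun h => h1 ((hL.one_iff x).1 h)
      have hd := hL.d_pos (ℓ x) x hlt rfl
      obtain ⟨n, hn⟩ := Nat.exists_eq_succ_of_ne_zero hd.ne'
      have h2 := (hu (ℓ x) (hL.le x)).2.2 x hx rfl
      rw [hh, Hne x h1, hn, pow_succ']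
      calc f x * (x * (u (ℓ x) * u (ℓ x) ^ n))
          = (f x * u (ℓ x)) * (x * u (ℓ x) ^ n) := by
            rw [mul_left_comm x, ← mul_assoc]
        _ = (g x * u (ℓ x)) * (x * u (ℓ x) ^ n) := by rw [h2]
        _ = g x * (x * (u (ℓ x) * u (ℓ x) ^ n)) := by
            rw [mul_left_comm x, mul_assoc]
  | one => rw [map_one f, map_one g]
  | mul x y _ _ ihx ihy =>
    rw [map_mul, map_mul, map_mul, mul_mul_mul_comm, ihx, ihy, mul_mul_mul_comm]

end Pool.Agent.Helper13.EC
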