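import Pool.Agent.Helper13.EC.A12
import Pool.Agent.Helper13.EC.DataI
import Pool.Agent.Helper13.EC.DataA
import Pool.Agent.Helper13.EC.Eps
import Pool.Agent.Helper13.EC.Face

set_option autoImplicit false

/-!
[EC-Levels] The levels are cancellative.

Let `q z = q' z`, all of level `j`. `j = r`: all are `1`. Let `j < r`; take `i, n, g, Λ` from
`exists_i` and `a, b, Λ'` from `exists_data`, `x1` of level `j` with `b x1 = 0`.
`g'` (`Lev.inv` for `g`): `g g' y = y` for `ℓ y < ℓ g`, in particular for level `j`.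
(1) `face` with `ε = n a`: `q' ^ (n a y) g ^ a y = q ^ (n a y) g ^ a y` for `y = x1`; multiply with
`g' ^ a y`: `q' ^ N = q ^ N` with `N = n a x1 > 0`.
(2) Let `K, ε` be as in `exists_eps`; use `face` with `K a`, `K b`, `K Λ'` in place of `a`, `b`,
`Λ'` and this `ε` (`ε y ≤ K a y ≤ n K a y`).
(3) So `q ^ (n K a y - ε y) q' ^ ε y = q ^ (n K a y)` for all `y` of level `j` with `b y = 0` (after
multiplication with `g' ^ (K a y)`). By (1) `q` and `q'` have a common power, and in a separative
monoid `x s = y s` implies `x = y` when `s` divides a power of `x` and a power of `y`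
(`sep_cancel`); so `q' ^ m = q ^ m` for `m = ε y`, `y` of level `j`, `b y = 0`. Two such values
differ by `1`: `sep_of_succ` gives `q = q'`.
`sep_cancel`: `x ^ (n+1) = y x ^ n`, `y ^ (n+1) = x y ^ n`; descending induction: for `n ≥ 2`,
`u = x ^ n` and `v = x ^ (n-1) y` satisfy `u u = u v = v v`, so `x ^ n = x ^ (n-1) y`; finally
`x x = x y = y y`, `x = y`.
-/

namespace Pool.Agent.Helper13.EC

theorem levels_sep_aux {M : Type*} [CommMonoid M] (hsep : Sep M) (x y : M) (n : ℕ)
    (hx : x ^ (n + 1) = y * x ^ n) (hy : y ^ (n + 1) = x * y ^ n) : x = y := by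
  induction n with
  | zero => simpa using hx
  | succ k ih =>
    rcases Nat.eq_zero_or_pos k with hk | hk
    · subst hk
      have h1 : x * x = x * y := by
        have := hx
        simp only [zero_add, pow_one] at this
        rw [pow_two] at this
        rw [this, mul_comm]
      have h2 : x * y = y * y := by
        have := hy
        simp only [zero_add, pow_one] at this
        rw [pow_two] at this
        exact this.symm
      exact hsep x y h1 h2
    · have key : ∀ a b : M, a ^ (k + 1 + 1) = b * a ^ (k + 1) → a ^ (k + 1) = b * a ^ k := by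
        intro a b hab
        have hstep : ∀ m : ℕ, b * a ^ (k + 1 + m) = a ^ (k + 1 + m + 1) := by
          intro m
          rw [pow_add a (k + 1) m, ← mul_assoc, ← hab, ← pow_add]
          congr 1
          omega
        obtain ⟨m, hm⟩ : ∃ m, k = 1 + m := ⟨k - 1, by omega⟩
        apply hsep
        · -- u u = u v
          have e1 : a ^ (k + 1) * (b * a ^ k) = b * a ^ (k + 1 + k) := by
            rw [pow_add a (k + 1) k, mul_left_comm]
          rw [e1, hstep k, ← pow_add]
          congr 1
        · have e1 : a ^ (k + 1) * (b * a ^ k) = b * a ^ (k + 1 + k) := by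
            rw [pow_add a (k + 1) k, mul_left_comm]
          have e2 : (b * a ^ k) * (b * a ^ k) = b * (b * a ^ (k + 1 + m)) := by
            have : a ^ (k + 1 + m) = a ^ k * a ^ k := by
              rw [← pow_add]
              congr 1
              omega
            rw [this, mul_mul_mul_comm, mul_assoc]
          rw [e1, e2, hstep m]
          have : k + 1 + m + 1 = k + 1 + k := by omega
          rw [this]
      exact ih (key x y hx) (key y x hy)

/-- Cancellation by divisors of powers in a separative monoid. -/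
theorem sep_cancel {M : Type*} [CommMonoid M] (hsep : Sep M) {x y s v v' : M} {n : ℕ}
    (h : x * s = y * s) (hx : s * v = x ^ n) (hy : s * v' = y ^ n) : x = y := by
  apply levels_sep_aux hsep x y n
  · rw [pow_succ', ← hx, ← mul_assoc, ← mul_assoc, h]
  · rw [pow_succ', ← hy, ← mul_assoc, ← mul_assoc, h]

theorem levels_lpow {M : Type*} [CommMonoid M] {r : ℕ} {ℓ : M → ℕ} {d : ℕ → M → ℕ}
    (hL : Lev r ℓ d) (x : M) (k : ℕ) (hk : 0 < k) : ℓ (x ^ k) = ℓ x := by
  induction k with
  | zero => exact absurd hk (lt_irrefl 0)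
  | succ m ih =>
    rcases Nat.eq_zero_or_pos m with hm | hm
    · subst hm
      simp
    · rw [pow_succ, hL.mul, ih hm, min_self]

theorem levels_act {M : Type*} [CommMonoid M] (c y : M) (h : c * y = y) (k : ℕ) :
    c ^ k * y = y := by
  induction k with
  | zero => simp
  | succ m ih => rw [pow_succ, mul_assoc, h, ih]

theorem levels_cancel {M : Type*} [CommMonoid M] {ℓ : M → ℕ} {g g' : M}
    (hg : ∀ y, ℓ y < ℓ g → g * g' * y = y) {u v : M} (hu : ℓ u < ℓ g) (hv : ℓ v < ℓ g) (A : ℕ)
    (h : u * g ^ A = v * g ^ A) : u = v := by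
  have e : ∀ w : M, ℓ w < ℓ g → w * g ^ A * g' ^ A = w := by
    intro w hw
    have := levels_act (g * g') w (hg w hw) A
    rw [mul_pow] at this
    rw [mul_assoc, mul_comm w]
    exact this
  rw [← e u hu, h, e v hv]

theorem levels {M : Type*} [CommMonoid M] [Monoid.FG M] (hred : Red M) (hsep : Sep M)
    (hEC : ECM M) {r : ℕ} {ℓ : M → ℕ} {d : ℕ → M → ℕ} (hL : Lev r ℓ d) (hK : Kap ℓ)
    (q q' z : M) (h1 : ℓ q = ℓ z) (h2 : ℓ q' = ℓ z) (h : q * z = q' * z) : q = q' := by
  rcases (hL.le z).lt_or_eq with hj | hj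
  swap
  · have e1 : q = 1 := (hL.one_iff q).1 (h1.trans hj)
    have e2 : q' = 1 := (hL.one_iff q').1 (h2.trans hj)
    rw [e1, e2]
  have hq : ℓ q < r := by rw [h1]; exact hj
  have hAA := aa hred hEC hsep hL
  obtain ⟨i, hi, n, hn, g, hg, hqg, Λ, hΛ, hΛ0, hΛq⟩ := exists_i hred hL q hq
  obtain ⟨a, b, Λ', ha, hb, hab0, hapos, ⟨x1, hx1, hbx1⟩, hΛm, hΛ'0, hΛab⟩ :=
    exists_data hL q hq hi Λ hΛ hΛ0 hΛq
  obtain ⟨g', -, hg'⟩ := hL.inv g
  have hq'j : ℓ q' = ℓ q := h2.trans h1.symm
  have hzj : ℓ z = ℓ q := h1.symm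
  -- (1)
  have hN : q' ^ (n * a x1) = q ^ (n * a x1) := by
    have hf := face hred hL hK hAA hq rfl hq'j hzj h hi hn hg hqg a b Λ' ha hb hab0 hapos hΛm
      hΛ'0 hΛab (fun y => n * a y)
      (fun x y hx hy _ _ => by simp only [ha x y hx hy, mul_add])
      (fun x hx => by simp only [(hab0 x hx).1, mul_zero])
      (fun x _ _ => le_refl _) x1 hx1 hbx1
    simp only [Nat.sub_self, pow_zero, one_mul] at hf
    have hpos : 0 < n * a x1 := Nat.mul_pos hn (hapos x1 hx1)
    refine levels_cancel hg' ?_ ?_ (a x1) hf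
    · rw [levels_lpow hL q' _ hpos, hq'j]; exact hg
    · rw [levels_lpow hL q _ hpos]; exact hg
  have hNpos : 0 < n * a x1 := Nat.mul_pos hn (hapos x1 hx1)
  -- (2)
  obtain ⟨K, ε, hK0, hε, hε0, hεb, x, y, hx, hy, hbx, hby, hxy⟩ :=
    exists_eps hL hq a b ha hb hab0 hapos ⟨x1, hx1, hbx1⟩
  have main : ∀ w, ℓ w = ℓ q → b w = 0 → q ^ ε w = q' ^ ε w := by
    intro w hw hbw
    have hKb : ∀ w', K * b w' = 0 → b w' = 0 := fun w' hw' => by
      rcases Nat.mul_eq_zero.1 hw' with h0 | h0
      · omega
      · exact h0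
    have hle : ∀ w', ℓ w' = ℓ q → b w' = 0 → ε w' ≤ n * (K * a w') := by
      intro w' h1' h2'
      calc ε w' ≤ K * a w' := (hεb w' h1' h2').2
        _ ≤ n * (K * a w') := Nat.le_mul_of_pos_left _ hn
    have hf := face hred hL hK hAA hq rfl hq'j hzj h hi hn hg hqg (fun w => K * a w)
      (fun w => K * b w) (fun w => (K : ℤ) * Λ' w)
      (fun x y hx hy => by simp only [ha x y hx hy, mul_add])
      (fun x y hx hy => by simp only [hb x y hx hy, mul_add])
      (fun x hx => by simp only [(hab0 x hx).1, (hab0 x hx).2, mul_zero, and_self])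
      (fun x hx => Nat.mul_pos hK0 (hapos x hx))
      (fun x y hx hy => by simp only [hΛm x y hx hy, mul_add])
      (fun x hx => by simp only [hΛ'0 x hx, mul_zero])
      (fun x hx => by
        simp only [hΛab x hx]
        push_cast
        ring)
      ε
      (fun x y hx hy hbx hby => hε x y hx hy (hKb x hbx) (hKb y hby))
      hε0
      (fun x hx hbx => hle x hx (hKb x hbx)) w hw (by simp only [hbw, mul_zero])
    set u := n * (K * a w) - ε w with hu
    have hm : 0 < ε w := (hεb w hw hbw).1
    have hum : n * (K * a w) = u + ε w := by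
      have := hle w hw hbw
      omega
    rw [hum] at hf
    have hc : q ^ u * q' ^ ε w = q ^ (u + ε w) := by
      refine levels_cancel hg' ?_ ?_ (K * a w) hf
      · rw [hL.mul, levels_lpow hL q' _ hm, hq'j]
        exact lt_of_le_of_lt (min_le_right _ _) hg
      · rw [levels_lpow hL q _ (by omega)]
        exact hg
    have hpw : ∀ t : ℕ, (q' ^ ε w) ^ ((n * a x1) * t) = (q ^ ε w) ^ ((n * a x1) * t) := by
      intro t
      have e1 : (q' ^ ε w) ^ ((n * a x1) * t) = (q' ^ (n * a x1)) ^ (ε w * t) := by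
        rw [← pow_mul, ← pow_mul]
        congr 1
        ring
      have e2 : (q ^ ε w) ^ ((n * a x1) * t) = (q ^ (n * a x1)) ^ (ε w * t) := by
        rw [← pow_mul, ← pow_mul]
        congr 1
        ring
      rw [e1, e2, hN]
    have hbig : u ≤ ε w * ((n * a x1) * u) := by
      have h3 : 1 ≤ ε w * (n * a x1) := Nat.mul_pos hm hNpos
      calc u = 1 * u := (one_mul u).symm
        _ ≤ (ε w * (n * a x1)) * u := Nat.mul_le_mul_right u h3
        _ = ε w * ((n * a x1) * u) := by ring
    have hv : q ^ u * q ^ (ε w * ((n * a x1) * u) - u) = (q ^ ε w) ^ ((n * a x1) * u) := by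
      rw [← pow_add, ← pow_mul]
      congr 1
      omega
    have := sep_cancel (M := M) hsep (x := q ^ ε w) (y := q' ^ ε w) (s := q ^ u)
      (v := q ^ (ε w * ((n * a x1) * u) - u)) (v' := q ^ (ε w * ((n * a x1) * u) - u))
      (n := (n * a x1) * u)
      (by rw [mul_comm (q' ^ ε w), hc, ← pow_add]; congr 1; ring) hv (by rw [hpw u]; exact hv)
    exact this
  exact sep_of_succ hsep q q' (ε y) (main y hy hby) (by
    have := main x hx hbx
    rw [hxy] at this
    exact this)

end Pool.Agent.Helper13.EC
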