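import Pool.Agent.Helper54.EndFG

set_option autoImplicit false

/-!
[EC-Mono] The case of a semigroup with an identity: `M` a finitely generated commutative monoid whose
semigroup endomorphisms form a cancellative semigroup.

(0) `1` is the only idempotent (`Pool.Agent.Helper54.EndCanc.idem_identity`).
(1) If every element is a unit both statements are clear. Assume not.
(2) Let `X` be a finite generating set, `U = {s | ∃ t w, s t w = w}` (closed under products and
divisors). By `Pool.Agent.Helper54.EndCanc.farkas` for every `x ∉ U` there is an additive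
`L_x : M → ℕ` with `L_x x > 0`; additive functions vanish on `U`. So `δ₀ = ∑ L_x` over the generators
`x ∉ U` is additive, zero on `U`, positive off `U`.
(3) `U ≠ M`: otherwise `e = ∏ x t_x` over `X`, `w = ∏ w_x`, `e w = w`, every element divides a power of
`e`, so `w v = e ^ n`, `e ^ (n+1) = e ^ n`, `e ^ n` is idempotent, `= 1` (take `n > 0`), all
generators are units, against (1).
(4) So `δ₀ ≠ 0`; normalise with `exists_div`: additive `δ`, zero exactly on `U`,
`δ a' = δ b' + 1` for some `a', b'`.
(5) `u w = w` implies `u = 1`: the maps `s ↦ u ^ δ s`, `s ↦ 1` and `h s = w ^ δ s` are endomorphisms,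
`u ^ δ s * w ^ δ s = w ^ δ s`, so `u ^ δ s = 1` for all `s`, in particular for `a'`, `b'`: `u = 1`.
So the elements of `U` are units: `δ s = 0` implies that `s` is a unit.
(6) `mono_kappa`: let `f x z_x = g x z_x` for all `x`. For a unit `x` write `f x = g x * c` with `c` a
unit (`f x`, `g x` are units because `f 1`, `g 1` are idempotents, so `1`); `c (g x z_x) = g x z_x`
gives `c = 1`, `f x = g x`. Let `z` be the product of the `z_x` over `x ∈ X` and `h s = z ^ δ s`:
`f x h x = g x h x` for the generators, so `f h = g h`, `f = g`.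
(7) `mono_sep`: let `a z = b z`. The endomorphisms `s ↦ a ^ δ s` and `s ↦ b ^ δ s` agree modulo `z`
(`h s = z ^ δ s`), so they are equal, `a ^ m = b ^ m` for `m = δ a', δ b'`, hence for all large `m`,
and `Pool.Agent.Helper54.EndCanc.eq_of_eventually` gives `a = b`.
(This is essentially `eventually_pow_eq` and `eq_of_eventually` there.)
-/

namespace Pool.Agent.Helper13.EC

open Pool.Agent.Helper54.EndCanc

section aux
variable {M : Type*} [CommMonoid M]

private lemma mono_idem (hE : ∀ f g h : M →ₙ* M, f * h = g * h → f = g) (e : M)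
    (he : e * e = e) : e = 1 := by
  have h1 := idem_identity hE e he 1
  rwa [mul_one] at h1

private lemma add_vanish {L : M → ℕ} (hL : ∀ x y, L (x * y) = L x + L y) {s t w : M}
    (h : s * t * w = w) : L s = 0 := by
  have h1 := congrArg L h
  rw [hL, hL] at h1
  omega

/-- A normalised grading which vanishes exactly on the elements with a multiple that fixes
something. -/
private lemma mono_grade [Monoid.FG M] (hE : ∀ f g h : M →ₙ* M, f * h = g * h → f = g)
    (hng : ∃ x : M, ¬ IsUnit x) :
    ∃ δ : M → ℕ, (∀ x y, δ (x * y) = δ x + δ y) ∧ (∀ x, δ x = 0 → ∃ t w : M, x * t * w = w) ∧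
      ∃ a b, δ a = δ b + 1 := by
  classical
  obtain ⟨l, hl, x₀, hx₀⟩ := exists_hom (mono_idem hE) hng
  obtain ⟨X, hX, hXf⟩ := Monoid.fg_iff.1 (inferInstance : Monoid.FG M)
  have hex : ∀ x : M, ∃ L : M → ℕ, (∀ x y, L (x * y) = L x + L y) ∧
      (L x = 0 → ∃ t w : M, x * t * w = w) := by
    intro x
    rcases farkas x with ⟨L, hL, hLx⟩ | ⟨t, w, h⟩
    · exact ⟨L, hL, fun h0 => absurd h0 hLx.ne'⟩
    · exact ⟨fun _ => 0, fun _ _ => rfl, fun _ => ⟨t, w, h⟩⟩
  choose L hL1 hL2 using hex
  let D : M → ℕ := fun y => ∑ x ∈ hXf.toFinset, L x y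
  have hD : ∀ x y, D (x * y) = D x + D y := by
    intro x y
    simp only [D, hL1]
    rw [Finset.sum_add_distrib]
  have hD0 : ∀ y, D y = 0 → ∃ t w : M, y * t * w = w := by
    intro y
    have hy : y ∈ Submonoid.closure X := by rw [hX]; trivial
    induction hy using Submonoid.closure_induction with
    | mem y hy =>
      intro h0
      apply hL2 y
      exact (Finset.sum_eq_zero_iff.1 h0) y (hXf.mem_toFinset.2 hy)
    | one => exact fun _ => ⟨1, 1, by simp⟩
    | mul x y _ _ hx hy =>
      intro h0
      rw [hD] at h0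
      obtain ⟨t, w, h1⟩ := hx (by omega)
      obtain ⟨t', w', h2⟩ := hy (by omega)
      refine ⟨t * t', w * w', ?_⟩
      calc x * y * (t * t') * (w * w') = (x * t * w) * (y * t' * w') := by
            rw [mul_mul_mul_comm x y t t', mul_mul_mul_comm]
        _ = w * w' := by rw [h1, h2]
  have hne : ∃ x, 0 < D x := by
    refine ⟨x₀, Nat.pos_of_ne_zero fun h0 => ?_⟩
    obtain ⟨t, w, h⟩ := hD0 x₀ h0
    rw [add_vanish hl h] at hx₀
    exact lt_irrefl _ hx₀
  obtain ⟨d, hd, hdvd, a, b, hab⟩ := exists_div D hD hne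
  refine ⟨fun x => D x / d, fun x y => ?_, fun x hx => ?_, a, b, ?_⟩
  · show D (x * y) / d = D x / d + D y / d
    rw [hD, Nat.add_div_of_dvd_right (hdvd x)]
  · apply hD0
    have h1 := Nat.div_mul_cancel (hdvd x)
    have h2 : D x / d = 0 := hx
    rw [h2, zero_mul] at h1
    exact h1.symm
  · show D a / d = D b / d + 1
    rw [hab, Nat.add_div_right _ hd]

private lemma mono_fix {δ : M → ℕ} (hE : ∀ f g h : M →ₙ* M, f * h = g * h → f = g)
    (hδ : ∀ x y, δ (x * y) = δ x + δ y) (h1 : ∃ a b, δ a = δ b + 1) (u w : M)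
    (huw : u * w = w) : u = 1 := by
  let P : M → (M →ₙ* M) := fun u => ⟨fun s => u ^ δ s, fun x y => by rw [hδ, pow_add]⟩
  have hP : ∀ u s, P u s = u ^ δ s := fun _ _ => rfl
  have h2 : P u * P w = P 1 * P w := by
    apply MulHom.ext
    intro s
    rw [MulHom.mul_apply, MulHom.mul_apply, hP, hP, hP, ← mul_pow, huw, one_pow, one_mul]
  have h3 := hE _ _ _ h2
  have h4 : ∀ s, u ^ δ s = 1 := by
    intro s
    rw [← hP, h3, hP, one_pow]
  obtain ⟨a, b, hab⟩ := h1
  have h5 := h4 a
  rw [hab, pow_succ, h4 b, one_mul] at h5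
  exact h5

end aux

theorem mono_kappa {M : Type*} [CommMonoid M] [Monoid.FG M]
    (hE : ∀ f g h : M →ₙ* M, f * h = g * h → f = g) (f g : M →ₙ* M)
    (h : ∀ x, ∃ z, f x * z = g x * z) : f = g := by
  classical
  by_cases hng : ∃ x : M, ¬ IsUnit x
  · obtain ⟨δ, hδ, hδ0, hδ1⟩ := mono_grade hE hng
    have hfix := mono_fix hE hδ hδ1
    have hone : ∀ k : M →ₙ* M, k 1 = 1 := fun k =>
      mono_idem hE _ (by rw [← map_mul, mul_one])
    have hunit : ∀ x, δ x = 0 → f x = g x := by
      intro x hx
      obtain ⟨t, w, h1⟩ := hδ0 x hx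
      have h2 : x * t = 1 := hfix _ _ h1
      obtain ⟨z, hz⟩ := h x
      have h3 : f t * f x = 1 := by rw [← map_mul, mul_comm t x, h2, hone]
      have h4 : f t * g x * z = z := by
        rw [mul_assoc, ← hz, ← mul_assoc, h3, one_mul]
      have h5 := hfix _ _ h4
      calc f x = f x * (f t * g x) := by rw [h5, mul_one]
        _ = (f t * f x) * g x := by rw [← mul_assoc, mul_comm (f x) (f t)]
        _ = g x := by rw [h3, one_mul]
    obtain ⟨X, hX, hXf⟩ := Monoid.fg_iff.1 (inferInstance : Monoid.FG M)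
    choose z hz using h
    let Z : M := ∏ x ∈ hXf.toFinset, z x
    let H : M →ₙ* M := ⟨fun s => Z ^ δ s, fun x y => by rw [hδ, pow_add]⟩
    have hH : ∀ s, H s = Z ^ δ s := fun _ => rfl
    apply hE f g H
    apply MulHom.ext
    intro s
    rw [MulHom.mul_apply, MulHom.mul_apply]
    have hs : s ∈ Submonoid.closure X := by rw [hX]; trivial
    induction hs using Submonoid.closure_induction with
    | mem y hy =>
      by_cases h0 : δ y = 0
      · rw [hunit y h0]
      · obtain ⟨r, hr⟩ : z y ∣ Z ^ δ y :=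
          (Finset.dvd_prod_of_mem z (hXf.mem_toFinset.2 hy)).trans (dvd_pow_self Z h0)
        rw [hH, hr, ← mul_assoc, ← mul_assoc, hz]
    | one => rw [hone f, hone g]
    | mul x y _ _ hx hy =>
      rw [map_mul, map_mul, map_mul, mul_mul_mul_comm, hx, hy, mul_mul_mul_comm]
  · push Not at hng
    apply MulHom.ext
    intro x
    obtain ⟨z, hz⟩ := h x
    exact (hng z).mul_right_cancel hz

theorem mono_sep {M : Type*} [CommMonoid M] [Monoid.FG M]
    (hE : ∀ f g h : M →ₙ* M, f * h = g * h → f = g)
    (hsep : ∀ a b : M, a * a = a * b → a * b = b * b → a = b) (a b z : M)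
    (h : a * z = b * z) : a = b := by
  by_cases hng : ∃ x : M, ¬ IsUnit x
  · obtain ⟨l, hl, hne⟩ := exists_hom (mono_idem hE) hng
    exact eq_of_eventually (MulHom.id M) Function.injective_id hsep a b
      (eventually_pow_eq (MulHom.id M) Function.injective_id l hl hne (Or.inr ⟨1, rfl⟩) hE z a b
        (by rw [mul_comm z a, mul_comm z b, h]))
  · push Not at hng
    exact (hng z).mul_right_cancel h

end Pool.Agent.Helper13.EC
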