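import Pool.Agent.Helper13.EC.Grade

set_option autoImplicit false

/-!
[EC-Step] One step of the construction of the levelling. `F ≠ {1}` a filter with `Filt F`.

Notation `N = {u ∈ F : u y = y for all y ∉ F}`; `Filt.inv`: every `z ∈ F` has `z' ∈ F`, `z z' ∈ N`.

(1) `key1`: `u w = w`, `u, w ∈ F`, `w ≠ 1`: take `w'` with `w1 = w w' ∈ N`; `u w1 = w1`, so for
`y ∉ F`: `u y = u w1 y = w1 y = y`.
(2) `nxt F ≠ F`: otherwise let `X` be the finite set of generators of `M` lying in `F`, different
from `1`; `x t_x w_x = w_x` (`t_x, w_x ∈ F`, `w_x ≠ 1`), `e = ∏ x t_x`, `w = ∏ w_x`, so `e w = w`,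
`w ≠ 1` (`Red`; there is a generator `≠ 1` because `F ≠ {1}`), and every element of `F` divides a
power of `e` (inside `F`), so `w v = e ^ n`, `e ^ (n+1) = e w v = w v = e ^ n`; we may take `n > 0`;
then `E = e ^ n` satisfies `E * E = E`, so `E = 1` by `hid`, `w v = 1`, `w = 1`, contradiction.
(3) `δ` from `grade`. For `u, w ∈ F`, `w ≠ 1`, `u w = w` let `w1 = w w' ∈ N` be as in (1) and for
`v ∈ N` let `k_v z = z * v ^ δ z` for `z ∈ F` and `k_v y = y` for `y ∉ F`. It is a monoid
endomorphism with trivial kernel (`v ∈ N`, `Filt.left`), and `k_u z * k_w1 z = z * k_w1 z` for all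
`z` (if `δ z > 0` by `u w1 = w1`; if `δ z = 0` trivially). So `ECM` gives `k_u = id`: `key2`.
(4) `Filt (nxt F)`: `one`, `mul` (`nxt_mul`), `left` (`s t ∈ nxt F`, `s t ≠ 1`: `s t t' w = w`; if
`s t = 1` then `s = 1`). `inv`: let now `X` be the generators of `M` in `nxt F`, different from `1`;
if there is none, then `nxt F = {1}` and `z' = 1` works. Otherwise `e = ∏ x t_x`, `w = ∏ w_x` as
before, `e w = w`, `t_x ∈ nxt F` (because `t_x x w_x = w_x`), so `e ∈ nxt F`. By `key1` `e y = y` for
`y ∉ F` and by `key2` `y e ^ δ y = y` for `y ∈ F`. With `K = ∏ δ x` over the generators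
`x ∈ F \ nxt F` (positive): `y e ^ K = y` for every `y ∈ F \ nxt F` (such a `y` has such a generator
as a factor), so `e ^ K y = y` for all `y ∉ nxt F`. Every `z ∈ nxt F` divides `e ^ (K m)` for some
`m` with a cofactor in `nxt F`.
-/

namespace Pool.Agent.Helper13.EC

/-- Induction over the generators of a finitely generated commutative monoid, for the elements of
a set closed under divisors. -/
theorem step_ind {M : Type*} [CommMonoid M] {X : Set M} (hX : Submonoid.closure X = ⊤) {F : Set M}
    (hF : Filt F) {P : M → Prop} (h1 : P 1) (hx : ∀ x ∈ X, x ∈ F → P x)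
    (hmul : ∀ a ∈ F, ∀ b ∈ F, P a → P b → P (a * b)) : ∀ z ∈ F, P z := by
  have key : ∀ z, z ∈ Submonoid.closure X → z ∈ F → P z := by
    intro z hz
    induction hz using Submonoid.closure_induction with
    | mem z hz => exact fun hzF => hx z hz hzF
    | one => exact fun _ => h1
    | mul a b _ _ iha ihb =>
      intro h
      have ha := hF.left _ _ h
      have hb := grade_right hF h
      exact hmul a ha b hb (iha ha) (ihb hb)
  intro z hz
  exact key z (by rw [hX]; trivial) hz

theorem step_key1 {M : Type*} [CommMonoid M] {F : Set M} (hF : Filt F) :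
    ∀ u ∈ F, ∀ w ∈ F, w ≠ 1 → u * w = w → ∀ y, y ∉ F → u * y = y := by
  intro u _ w hw _ huw y hy
  obtain ⟨w', _, hw'⟩ := hF.inv w hw
  have h := hw' y hy
  calc u * y = u * (w * w' * y) := by rw [h]
    _ = (u * w) * w' * y := by simp only [mul_assoc]
    _ = y := by rw [huw, h]

theorem step_proper {M : Type*} [CommMonoid M] [Monoid.FG M] (hred : Red M)
    (hid : ∀ e : M, e * e = e → e = 1) (F : Set M) (hF : Filt F)
    (hne : ∃ x ∈ F, x ≠ 1) : ∃ x ∈ F, x ∉ nxt F := by
  classical
  by_contra hcon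
  push Not at hcon
  obtain ⟨X, hX, hXfin⟩ := Monoid.fg_iff.1 (inferInstance : Monoid.FG M)
  obtain ⟨x₀, hx₀, hx₀1⟩ := hne
  -- a common witness
  have hfin : ∀ T : Finset M, ∃ e ∈ F, ∃ w ∈ F, w ≠ 1 ∧ e * w = w ∧
      ∀ x ∈ T, x ∈ F → ∃ v ∈ F, x * v = e := by
    intro T
    induction T using Finset.induction_on with
    | empty => exact ⟨1, hF.one, x₀, hx₀, hx₀1, one_mul _, by simp⟩
    | insert x T _ ih =>
      obtain ⟨e, he, w, hw, hw1, hew, hT⟩ := ih
      by_cases hxF : x ∈ F
      · rcases (hcon x hxF).2 with hx1 | ⟨t, ht, w', hw', _, hxt⟩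
        · refine ⟨e, he, w, hw, hw1, hew, ?_⟩
          intro y hy hyF
          rcases Finset.mem_insert.1 hy with rfl | hy
          · exact ⟨e, he, by rw [hx1, one_mul]⟩
          · exact hT y hy hyF
        · refine ⟨e * (x * t), hF.mul _ _ he (hF.mul _ _ hxF ht), w * w', hF.mul _ _ hw hw',
            fun h => hw1 (hred _ _ h), ?_, ?_⟩
          · calc e * (x * t) * (w * w') = (e * w) * (x * t * w') := by
                  simp only [mul_assoc, mul_left_comm, mul_comm]
              _ = w * w' := by rw [hew, hxt]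
          · intro y hy hyF
            rcases Finset.mem_insert.1 hy with rfl | hy
            · exact ⟨e * t, hF.mul _ _ he ht, by simp only [mul_left_comm]⟩
            · obtain ⟨v, hv, hyv⟩ := hT y hy hyF
              exact ⟨v * (x * t), hF.mul _ _ hv (hF.mul _ _ hxF ht), by
                rw [← mul_assoc, hyv]⟩
      · refine ⟨e, he, w, hw, hw1, hew, ?_⟩
        intro y hy hyF
        rcases Finset.mem_insert.1 hy with rfl | hy
        · exact absurd hyF hxF
        · exact hT y hy hyF
  obtain ⟨e, he, w, hw, hw1, hew, hT⟩ := hfin hXfin.toFinset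
  have hdiv : ∀ z ∈ F, ∃ n : ℕ, ∃ v ∈ F, z * v = e ^ n := by
    refine step_ind hX hF ⟨0, 1, hF.one, by simp⟩ ?_ ?_
    · intro x hx hxF
      obtain ⟨v, hv, hxv⟩ := hT x (hXfin.mem_toFinset.2 hx) hxF
      exact ⟨1, v, hv, by rw [pow_one, hxv]⟩
    · rintro a _ b _ ⟨n, v, hv, hav⟩ ⟨m, v', hv', hbv⟩
      refine ⟨n + m, v * v', hF.mul _ _ hv hv', ?_⟩
      rw [pow_add, ← hav, ← hbv]
      simp only [mul_assoc, mul_left_comm]
  obtain ⟨n, v, _, hwv⟩ := hdiv w hw
  have h1 : e * e ^ n = e ^ n := by rw [← hwv, ← mul_assoc, hew]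
  have h2 : ∀ k : ℕ, e ^ k * e ^ n = e ^ n := by
    intro k
    induction k with
    | zero => rw [pow_zero, one_mul]
    | succ k ih => rw [pow_succ, mul_assoc, h1, ih]
  have h3 := hid _ (h2 n)
  rw [h3] at hwv
  exact hw1 (hred _ _ hwv)

theorem step_key2 {M : Type*} [CommMonoid M] (hred : Red M) (hEC : ECM M) {F : Set M}
    (hF : Filt F) {δ : M → ℕ} (hδ : ∀ x ∈ F, ∀ y ∈ F, δ (x * y) = δ x + δ y)
    (hδ1 : δ 1 = 0) :
    ∀ u ∈ F, ∀ w ∈ F, w ≠ 1 → u * w = w → ∀ z ∈ F, z * u ^ δ z = z := by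
  classical
  have hker : ∀ v ∈ F, (∀ y, y ∉ F → v * y = y) → ∃ k : M →* M, NT k ∧
      (∀ z ∈ F, k z = z * v ^ δ z) ∧ ∀ y, y ∉ F → k y = y := by
    intro v hv hvy
    have hpow : ∀ (n : ℕ) (y : M), y ∉ F → v ^ n * y = y := by
      intro n y hy
      induction n with
      | zero => rw [pow_zero, one_mul]
      | succ n ih => rw [pow_succ, mul_assoc, hvy y hy, ih]
    let k : M →* M :=
      { toFun := fun z => if z ∈ F then z * v ^ δ z else z
        map_one' := by simp only [hF.one, if_true, hδ1, pow_zero, mul_one]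
        map_mul' := by
          intro a b
          by_cases ha : a ∈ F
          · by_cases hb : b ∈ F
            · simp only [ha, hb, hF.mul a b ha hb, if_true, hδ a ha b hb, pow_add]
              simp only [mul_assoc, mul_left_comm]
            · have hab : a * b ∉ F := fun h => hb (grade_right hF h)
              simp only [ha, hb, hab, if_true, if_false]
              rw [mul_assoc, hpow _ b hb]
          · have hab : a * b ∉ F := fun h => ha (hF.left _ _ h)
            by_cases hb : b ∈ F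
            · simp only [ha, hb, hab, if_true, if_false]
              have h1 := hpow (δ b) a ha
              calc a * b = (v ^ δ b * a) * b := by rw [h1]
                _ = a * (b * v ^ δ b) := by simp only [mul_left_comm, mul_comm]
            · simp only [ha, hb, hab, if_false] }
    have hkF : ∀ z ∈ F, k z = z * v ^ δ z := fun z hz => if_pos hz
    have hkN : ∀ y, y ∉ F → k y = y := fun y hy => if_neg hy
    refine ⟨k, ?_, hkF, hkN⟩
    intro x hx
    by_cases h : x ∈ F
    · rw [hkF x h] at hx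
      exact hred _ _ hx
    · rw [hkN x h] at hx
      exact hx
  intro u hu w hw hw1 huw z hz
  obtain ⟨w', hw'F, hw'⟩ := hF.inv w hw
  have huy := step_key1 hF u hu w hw hw1 huw
  obtain ⟨k, hk, hkF, hkN⟩ := hker u hu huy
  obtain ⟨h, hh, hhF, hhN⟩ := hker (w * w') (hF.mul _ _ hw hw'F) hw'
  have huw1 : u * (w * w') = w * w' := by rw [← mul_assoc, huw]
  have hup : ∀ n : ℕ, u ^ n * (w * w') = w * w' := by
    intro n
    induction n with
    | zero => rw [pow_zero, one_mul]
    | succ n ih => rw [pow_succ, mul_assoc, huw1, ih]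
  have hcanc := hEC k (MonoidHom.id M) h hk (fun x hx => hx) hh (by
    intro x
    by_cases hx : x ∈ F
    · rw [hkF x hx, hhF x hx, MonoidHom.id_apply]
      rcases Nat.eq_zero_or_pos (δ x) with h0 | h0
      · rw [h0, pow_zero, mul_one]
      · obtain ⟨m, hm⟩ : ∃ m, δ x = m + 1 := ⟨δ x - 1, by omega⟩
        have h1 : u ^ δ x * (w * w') ^ δ x = (w * w') ^ δ x := by
          rw [hm, pow_succ (w * w') m, mul_comm ((w * w') ^ m), ← mul_assoc, hup]
        calc x * u ^ δ x * (x * (w * w') ^ δ x) = x * x * (u ^ δ x * (w * w') ^ δ x) := by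
              simp only [mul_assoc, mul_left_comm]
          _ = x * (x * (w * w') ^ δ x) := by rw [h1, mul_assoc]
    · rw [hkN x hx, hhN x hx, MonoidHom.id_apply])
  have := hcanc z
  rw [hkF z hz, MonoidHom.id_apply] at this
  exact this

theorem step {M : Type*} [CommMonoid M] [Monoid.FG M] (hred : Red M)
    (hid : ∀ e : M, e * e = e → e = 1) (hEC : ECM M) (F : Set M) (hF : Filt F)
    (hne : ∃ x ∈ F, x ≠ 1) : ∃ δ : M → ℕ, StepData F δ := by
  classical
  have hproper := step_proper hred hid F hF hne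
  obtain ⟨δ, hmul, hzero, hpos, hone⟩ := grade hred F hF hproper
  have h1n : (1 : M) ∈ nxt F := ⟨hF.one, Or.inl rfl⟩
  have hδ1 : δ 1 = 0 := hzero 1 h1n
  have key1 := step_key1 hF
  have key2 := step_key2 hred hEC hF hmul hδ1
  -- every element of the next filter divides an element acting trivially
  have hE : ∀ x ∈ nxt F, ∃ t ∈ nxt F, (∀ y, y ∉ F → x * t * y = y) ∧
      ∀ z ∈ F, z * (x * t) ^ δ z = z := by
    rintro x ⟨hxF, hx⟩
    rcases hx with rfl | ⟨t, ht, w, hw, hw1, hxt⟩
    · exact ⟨1, h1n, fun y _ => by rw [mul_one, one_mul], fun z _ => by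
        rw [mul_one, one_pow, mul_one]⟩
    · have hxtF := hF.mul _ _ hxF ht
      refine ⟨t, ⟨ht, Or.inr ⟨x, hxF, w, hw, hw1, by rw [mul_comm t x, hxt]⟩⟩,
        key1 _ hxtF w hw hw1 hxt, key2 _ hxtF w hw hw1 hxt⟩
  obtain ⟨X, hX, hXfin⟩ := Monoid.fg_iff.1 (inferInstance : Monoid.FG M)
  let G : Finset M := hXfin.toFinset.filter fun x => x ∈ F ∧ x ∉ nxt F
  let K : ℕ := ∏ x ∈ G, δ x
  have hG : ∀ x ∈ G, x ∈ F ∧ x ∉ nxt F := fun x hx => (Finset.mem_filter.1 hx).2
  have hK : 0 < K := Finset.prod_pos fun x hx => hpos x (hG x hx).1 (hG x hx).2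
  have hfac : ∀ z ∈ F, z ∈ nxt F ∨ ∃ x ∈ G, ∃ v, z = x * v := by
    refine step_ind hX hF (Or.inl h1n) ?_ ?_
    · intro x hx hxF
      by_cases hxn : x ∈ nxt F
      · exact Or.inl hxn
      · exact Or.inr ⟨x, Finset.mem_filter.2 ⟨hXfin.mem_toFinset.2 hx, hxF, hxn⟩, 1,
          (mul_one x).symm⟩
    · rintro a _ b _ (ha | ⟨x, hx, v, rfl⟩) (hb | ⟨x', hx', v', rfl⟩)
      · exact Or.inl (nxt_mul hred hF ha hb)
      · exact Or.inr ⟨x', hx', a * v', by simp only [mul_left_comm]⟩
      · exact Or.inr ⟨x, hx, v * b, by rw [mul_assoc]⟩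
      · exact Or.inr ⟨x, hx, v * (x' * v'), by rw [mul_assoc]⟩
  have hfilt : Filt (nxt F) := by
    refine ⟨h1n, fun x y hx hy => nxt_mul hred hF hx hy, ?_, ?_⟩
    · rintro x y ⟨hxy, h⟩
      have hx := hF.left _ _ hxy
      have hy := grade_right hF hxy
      refine ⟨hx, ?_⟩
      rcases h with h | ⟨t, ht, w, hw, hw1, hxt⟩
      · exact Or.inl (hred _ _ h)
      · exact Or.inr ⟨y * t, hF.mul _ _ hy ht, w, hw, hw1, by
          rw [← mul_assoc x y t]; exact hxt⟩
    · intro z hz
      obtain ⟨t, ht, h1, h2⟩ := hE z hz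
      have hnpow : ∀ n : ℕ, (z * t) ^ n ∈ nxt F := by
        intro n
        induction n with
        | zero => rw [pow_zero]; exact h1n
        | succ n ih => rw [pow_succ]; exact nxt_mul hred hF ih (nxt_mul hred hF hz ht)
      refine ⟨t * (z * t) ^ (K - 1), nxt_mul hred hF ht (hnpow _), ?_⟩
      have hzz : z * (t * (z * t) ^ (K - 1)) = (z * t) ^ K := by
        rw [← mul_assoc, ← pow_succ', Nat.sub_add_cancel hK]
      rw [hzz]
      intro y hy
      by_cases hyF : y ∈ F
      · rcases hfac y hyF with h | ⟨x, hx, v, rfl⟩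
        · exact absurd h hy
        · have h3 : ∀ m : ℕ, x * (z * t) ^ (δ x * m) = x := by
            intro m
            induction m with
            | zero => rw [mul_zero, pow_zero, mul_one]
            | succ m ih =>
              rw [Nat.mul_succ, pow_add, ← mul_assoc, ih, h2 x (hG x hx).1]
          obtain ⟨m, hm⟩ : δ x ∣ K := Finset.dvd_prod_of_mem _ hx
          rw [hm]
          calc (z * t) ^ (δ x * m) * (x * v) = (x * (z * t) ^ (δ x * m)) * v := by
                rw [← mul_assoc, mul_comm ((z * t) ^ (δ x * m)) x]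
            _ = x * v := by rw [h3]
      · have h3 : ∀ n : ℕ, (z * t) ^ n * y = y := by
          intro n
          induction n with
          | zero => rw [pow_zero, one_mul]
          | succ n ih => rw [pow_succ, mul_assoc, h1 y hyF, ih]
        exact h3 K
  exact ⟨δ, hfilt, hproper, key1, hmul, hzero, hpos, hone, key2⟩

end Pool.Agent.Helper13.EC
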