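import Pool.Agent.Helper13.EC.Defs
import Pool.Agent.Helper54.EndFG

set_option autoImplicit false

/-!
[EC-Trans] Transfer between a commutative semigroup `S` and the monoid `WithOne S`.

`ecm_withOne`: a monoid endomorphism of `WithOne S` with trivial kernel restricts to an endomorphism
of `S` (`F x = f x` in `WithOne S`), see `withOne_cases`. `ext`: `WithOne.mapMulHom f` (or
`WithOne.lift`) extends an endomorphism `f` of `S`; its kernel is trivial.
-/

namespace Pool.Agent.Helper13.EC

open Pool.Agent.Helper54.EndCanc (withOne_cases withOne_closure)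

theorem trans_ne_one {S : Type*} (x : S) : (x : WithOne S) ≠ 1 := WithOne.coe_ne_one

theorem red_withOne (S : Type*) [CommSemigroup S] : Red (WithOne S) := by
  intro a b hab
  rcases withOne_cases a with rfl | ⟨x, rfl⟩
  · rfl
  · rcases withOne_cases b with rfl | ⟨y, rfl⟩
    · rwa [mul_one] at hab
    · rw [← WithOne.coe_mul] at hab
      exact absurd hab (trans_ne_one _)

theorem fg_withOne (S : Type*) [CommSemigroup S] (T : Set S) (hTf : T.Finite)
    (hT : Subsemigroup.closure T = ⊤) : Monoid.FG (WithOne S) := by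
  rw [Monoid.fg_def, Submonoid.fg_iff]
  exact ⟨(fun x : S => (x : WithOne S)) '' T, withOne_closure T hT, hTf.image _⟩

/-- restriction of an endomorphism with trivial kernel -/
theorem trans_restrict {S : Type*} [CommSemigroup S] (F : WithOne S →* WithOne S) (hF : NT F) :
    ∃ f : S →ₙ* S, ∀ x : S, F x = (f x : WithOne S) := by
  have h : ∀ x : S, ∃ y : S, F x = (y : WithOne S) := by
    intro x
    rcases withOne_cases (F x) with h | h
    · exact absurd (hF _ h) (trans_ne_one x)
    · exact h
  choose f hf using h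
  refine ⟨⟨f, ?_⟩, hf⟩
  intro x y
  apply WithOne.coe_injective
  rw [WithOne.coe_mul, ← hf, ← hf, ← hf, WithOne.coe_mul, map_mul]

theorem ecm_withOne (S : Type*) [CommSemigroup S]
    (hE : ∀ f g h : S →ₙ* S, f * h = g * h → f = g) : ECM (WithOne S) := by
  intro F G H hF hG hH hFG x
  obtain ⟨f, hf⟩ := trans_restrict F hF
  obtain ⟨g, hg⟩ := trans_restrict G hG
  obtain ⟨h, hh⟩ := trans_restrict H hH
  have hfg : f = g := by
    apply hE f g h
    ext y
    apply WithOne.coe_injective
    have h1 := hFG (y : WithOne S)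
    rw [hf, hg, hh, ← WithOne.coe_mul, ← WithOne.coe_mul] at h1
    exact h1
  rcases withOne_cases x with rfl | ⟨y, rfl⟩
  · rw [map_one, map_one]
  · rw [hf, hg, hfg]

theorem idem_withOne (S : Type*) [CommSemigroup S] (h : ∀ e : S, e * e ≠ e) :
    ∀ e : WithOne S, e * e = e → e = 1 := by
  intro e he
  rcases withOne_cases e with rfl | ⟨y, rfl⟩
  · rfl
  · rw [← WithOne.coe_mul] at he
    exact absurd (WithOne.coe_injective he) (h y)

theorem sep_withOne (S : Type*) [CommSemigroup S]
    (h : ∀ a b : S, a * a = a * b → a * b = b * b → a = b) : Sep (WithOne S) := by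
  intro a b h1 h2
  rcases withOne_cases a with rfl | ⟨x, rfl⟩
  · rw [mul_one, one_mul] at h1
    exact h1
  · rcases withOne_cases b with rfl | ⟨y, rfl⟩
    · rw [mul_one, mul_one] at h2
      exact h2
    · rw [← WithOne.coe_mul, ← WithOne.coe_mul] at h1 h2
      rw [h x y (WithOne.coe_injective h1) (WithOne.coe_injective h2)]

/-- Extension of an endomorphism of `S` to `WithOne S`. -/
theorem ext_withOne (S : Type*) [CommSemigroup S] (f : S →ₙ* S) :
    ∃ F : WithOne S →* WithOne S, NT F ∧ ∀ x : S, F x = (f x : WithOne S) := by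
  refine ⟨WithOne.mapMulHom f, ?_, fun x => WithOne.mapMulHom_coe f x⟩
  intro x hx
  rcases withOne_cases x with rfl | ⟨y, rfl⟩
  · rfl
  · rw [WithOne.mapMulHom_coe] at hx
    exact absurd hx (trans_ne_one _)

end Pool.Agent.Helper13.EC
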