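import Pool.Agent.Helper13.EC.Defs

set_option autoImplicit false

/-!
[EC-Words] The words `q ^ u q' ^ v g ^ A t ^ B`, `u + v = n A`, `A, B > 0`, are all equal.

Replacing `z` by `z z'` (`Lev.inv`) we may assume that `z` acts trivially on the levels `< j`.
`q' ^ v z = q ^ v z` for all `v`.
Claim: for `u + v = n - 1` and `T = q ^ u q' ^ v g t`: `q T = q' T`. Indeed for `ℓ y < j`
`q T y = q T z y = q ^ n g t z y = q ^ n g t y = y` (`v > 0` uses `q' ^ v z = q ^ v z`), and `hAA`
(with its `t` equal to `T`, level `≥ j`) gives it.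
In a word with `v ≥ 1` choose `u' ≤ u`, `v' ≤ v - 1` with `u' + v' = n - 1` (possible because
`u + v = n A ≥ n`): one factor `q'` can be replaced by `q`. Induction on `v`.
-/

namespace Pool.Agent.Helper13.EC

theorem words_pow {M : Type*} [CommMonoid M] {q q' z : M} (h : q * z = q' * z) (v : ℕ) :
    q' ^ v * z = q ^ v * z := by
  induction v with
  | zero => simp
  | succ v ih =>
    calc q' ^ (v + 1) * z = q' ^ v * (q' * z) := by rw [pow_succ, mul_assoc]
      _ = q' ^ v * (q * z) := by rw [h]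
      _ = q * (q' ^ v * z) := by rw [← mul_assoc, mul_comm (q' ^ v) q, mul_assoc]
      _ = q * (q ^ v * z) := by rw [ih]
      _ = q ^ (v + 1) * z := by rw [pow_succ', mul_assoc]

theorem words_level_pow {M : Type*} [CommMonoid M] {r : ℕ} {ℓ : M → ℕ} {d : ℕ → M → ℕ}
    (hL : Lev r ℓ d) {j : ℕ} (hj : j < r) {q : M} (hq : j ≤ ℓ q) (u : ℕ) : j ≤ ℓ (q ^ u) := by
  induction u with
  | zero =>
    have h1 : ℓ (1 : M) = r := (hL.one_iff 1).2 rfl
    rw [pow_zero, h1]
    exact hj.le
  | succ u ih =>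
    rw [pow_succ, hL.mul]
    exact le_min ih hq

theorem words {M : Type*} [CommMonoid M] {r : ℕ} {ℓ : M → ℕ} {d : ℕ → M → ℕ}
    (hL : Lev r ℓ d) (hAA : AA r ℓ) {j : ℕ} (hj : j < r) {q q' z : M}
    (hq : ℓ q = j) (hq' : ℓ q' = j) (hz : ℓ z = j) (hqz : q * z = q' * z) {n : ℕ}
    (hn : 0 < n) {g t : M} (hg : j < ℓ g) (ht : j ≤ ℓ t)
    (hqt : ∀ y, ℓ y < j → q ^ n * g * t * y = y) (u v A B : ℕ) (hA : 0 < A) (hB : 0 < B)
    (huv : u + v = n * A) :
    q ^ u * q' ^ v * g ^ A * t ^ B = q ^ (n * A) * g ^ A * t ^ B := by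
  obtain ⟨z', hz', hZ⟩ := hL.inv z
  rw [hz] at hz' hZ
  set Z := z * z' with hZdef
  have hZj : ℓ Z = j := by
    rw [hZdef, hL.mul, hz]
    exact min_eq_left hz'
  have hqZ : q * Z = q' * Z := by
    rw [hZdef, ← mul_assoc, hqz, mul_assoc]
  -- one factor can be exchanged
  have hT : ∀ u v, u + v + 1 = n →
      q * (q ^ u * q' ^ v * g * t) = q' * (q ^ u * q' ^ v * g * t) := by
    intro u v huv
    refine hAA j hj q q' Z _ hq hq' hZj ?_ hqZ ?_
    · have h1 := words_level_pow hL hj hq.ge u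
      have h2 := words_level_pow hL hj hq'.ge v
      rw [hL.mul, hL.mul, hL.mul]
      exact le_min (le_min (le_min h1 h2) hg.le) ht
    · intro y hy
      have hZy : Z * y = y := hZ y hy
      calc q * (q ^ u * q' ^ v * g * t) * y
          = q * (q ^ u * q' ^ v * g * t) * (Z * y) := by rw [hZy]
        _ = q ^ (u + 1) * (q' ^ v * Z) * g * t * y := by
          rw [pow_succ]
          ac_rfl
        _ = q ^ (u + 1) * (q ^ v * Z) * g * t * y := by rw [words_pow hqZ]
        _ = (q ^ (u + 1) * q ^ v) * g * t * (Z * y) := by ac_rfl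
        _ = q ^ n * g * t * y := by
          have h1 : u + 1 + v = n := by omega
          rw [hZy, ← pow_add, h1]
        _ = y := hqt y hy
  obtain ⟨a, rfl⟩ : ∃ a, A = a + 1 := ⟨A - 1, by omega⟩
  obtain ⟨b, rfl⟩ : ∃ b, B = b + 1 := ⟨B - 1, by omega⟩
  have hge : n ≤ n * (a + 1) := Nat.le_mul_of_pos_right n hA
  induction v generalizing u with
  | zero =>
    have : u = n * (a + 1) := by omega
    rw [this, pow_zero, mul_one]
  | succ v ih =>
    have h1 := ih (u + 1) (by omega)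
    rw [← h1]
    obtain ⟨u', v', u'', v'', hu, hv, hs⟩ : ∃ u' v' u'' v'' : ℕ, u = u' + u'' ∧ v = v' + v'' ∧
        u' + v' + 1 = n := by
      rcases Nat.le_total (n - 1) u with h | h
      · exact ⟨n - 1, 0, u - (n - 1), v, by omega, by omega, by omega⟩
      · exact ⟨u, n - 1 - u, 0, v - (n - 1 - u), by omega, by omega, by omega⟩
    subst hu hv
    calc q ^ (u' + u'') * q' ^ (v' + v'' + 1) * g ^ (a + 1) * t ^ (b + 1)
        = q' * (q ^ u' * q' ^ v' * g * t) * (q ^ u'' * q' ^ v'' * g ^ a * t ^ b) := by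
          simp only [pow_add, pow_one]
          ac_rfl
      _ = q * (q ^ u' * q' ^ v' * g * t) * (q ^ u'' * q' ^ v'' * g ^ a * t ^ b) := by
          rw [hT u' v' hs]
      _ = q ^ (u' + u'' + 1) * q' ^ (v' + v'') * g ^ (a + 1) * t ^ (b + 1) := by
          simp only [pow_add, pow_one]
          ac_rfl

end Pool.Agent.Helper13.EC
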